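import Pool.Agent.Lib.MP_7470b6_lc.Crs.EVA

/-!
# Job EVB
-/

open Finset

namespace Pool.Agent.Lib.MP_7470b6_lc.Crs

variable {ι κ : Type*} [DecidableEq ι] [DecidableEq κ]

private theorem EVB_shift {f : Finset ι → ℝ} {B : Finset ι} (hf : DepOn f B) (i : ι) :
    DepOn (fun T => f (insert i T)) B := by
  intro T T' h
  apply hf
  ext x
  have hx := congrArg (fun S : Finset ι => x ∈ S) h
  simp only [mem_inter, eq_iff_iff] at hx
  simp only [mem_inter, mem_insert]
  tauto

private theorem EVB_same {f : Finset ι → ℝ} {B : Finset ι} (hf : DepOn f B) {i : ι} (hi : i ∉ B)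
    (T : Finset ι) : f (insert i T) = f T := by
  apply hf
  ext x
  simp only [mem_inter, mem_insert]
  constructor
  · rintro ⟨h | h, hx⟩
    · exact absurd (h ▸ hx) hi
    · exact ⟨h, hx⟩
  · rintro ⟨h, hx⟩
    exact ⟨Or.inr h, hx⟩

/-- Job EVB. Independence. Proof: induction on `A` (for all `f`, `g`): a new index `i` is not in
`B` or not in `C`; if it is not in `C` then `g (insert i T) = g T` and
`ev (insert i A) (f g) = p ev A (f (insert i ·) g) + (1 - p) ev A (f g)`; the function
`f (insert i ·)` again depends on `B` only. -/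
theorem ev_indep {A B C : Finset ι} {p : ι → ℝ} {f g : Finset ι → ℝ} (hf : DepOn f B)
    (hg : DepOn g C) (hBC : Disjoint B C) :
    ev A p (fun T => f T * g T) = ev A p f * ev A p g := by
  induction A using Finset.induction_on generalizing f g with
  | empty => simp only [ev_empty]
  | insert i A hi ih =>
      have h1 := ih (EVB_shift hf i) (EVB_shift hg i)
      have h2 := ih hf hg
      rw [ev_insert hi, ev_insert hi, ev_insert hi, h1, h2]
      have h3 : i ∉ B ∨ i ∉ C := by
        by_contra hcon
        push Not at hcon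
        exact Finset.disjoint_left.1 hBC hcon.1 hcon.2
      rcases h3 with h3 | h3
      · have h4 : (fun T => f (insert i T)) = f := funext fun T => EVB_same hf h3 T
        rw [h4]
        ring
      · have h4 : (fun T => g (insert i T)) = g := funext fun T => EVB_same hg h3 T
        rw [h4]
        ring

/-- Job EVB. Harris inequality with private coordinates. Proof: induction on `A` (for all `f`,
`g`). For the new index `i` put `f₁ = f (insert i ·)`, `f₀ = f`, same for `g`. By induction
`ev (insert i A) (f g) ≥ p ev f₁ ev g₁ + (1 - p) ev f₀ ev g₀`. If `i ∈ B ∩ C` then `ev f₀ ≤ ev f₁`,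
`ev g₀ ≤ ev g₁`, and this is at least `(p ev f₁ + (1-p) ev f₀) (p ev g₁ + (1-p) ev g₀)`. If `i ∉ C`
then `g₁ = g₀`, if `i ∉ B` then `f₁ = f₀`, and it is equal to that. -/
theorem ev_harris {A B C : Finset ι} {p : ι → ℝ} (hp : ∀ i ∈ A, 0 ≤ p i ∧ p i ≤ 1)
    {f g : Finset ι → ℝ} (hf : DepOn f B) (hg : DepOn g C)
    (hfm : ∀ i ∈ B ∩ C, ∀ T, f T ≤ f (insert i T)) (hgm : ∀ i ∈ B ∩ C, ∀ T, g T ≤ g (insert i T)) :
    ev A p f * ev A p g ≤ ev A p (fun T => f T * g T) := by
  induction A using Finset.induction_on generalizing f g with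
  | empty => simp only [ev_empty, le_refl]
  | insert i A hi ih =>
      have hp' : ∀ j ∈ A, 0 ≤ p j ∧ p j ≤ 1 := fun j hj => hp j (mem_insert_of_mem hj)
      have hpi := hp i (mem_insert_self i A)
      have h1 := ih hp' (EVB_shift hf i) (EVB_shift hg i)
        (fun j hj T => by rw [Finset.insert_comm i j T]; exact hfm j hj _)
        (fun j hj T => by rw [Finset.insert_comm i j T]; exact hgm j hj _)
      have h2 := ih hp' hf hg hfm hgm
      rw [ev_insert hi, ev_insert hi, ev_insert hi]
      have h3 : 0 ≤ (ev A p (fun T => f (insert i T)) - ev A p f) *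
          (ev A p (fun T => g (insert i T)) - ev A p g) := by
        by_cases hB : i ∈ B
        · by_cases hC : i ∈ C
          · have hBC : i ∈ B ∩ C := mem_inter.2 ⟨hB, hC⟩
            apply mul_nonneg
            · rw [sub_nonneg]
              exact ev_mono hp' (fun T _ => hfm i hBC T)
            · rw [sub_nonneg]
              exact ev_mono hp' (fun T _ => hgm i hBC T)
          · have h4 : (fun T => g (insert i T)) = g := funext fun T => EVB_same hg hC T
            rw [h4, sub_self, mul_zero]
        · have h4 : (fun T => f (insert i T)) = f := funext fun T => EVB_same hf hB T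
          rw [h4, sub_self, zero_mul]
      have h5 : 0 ≤ p i * (1 - p i) := mul_nonneg hpi.1 (by linarith [hpi.2])
      have h6 := mul_nonneg h5 h3
      have h7 := mul_le_mul_of_nonneg_left h1 hpi.1
      have h8 := mul_le_mul_of_nonneg_left h2 (by linarith [hpi.2] : 0 ≤ 1 - p i)
      nlinarith

/-- Job EVB. Product of functions of disjoint blocks: induction on `N` with `ev_indep`
(`∏ b ∈ N, φ b` depends on `N.biUnion Bk`). -/
theorem ev_prod {α : Type*} [DecidableEq α] {A : Finset ι} {p : ι → ℝ} (N : Finset α)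
    (φ : α → Finset ι → ℝ) (Bk : α → Finset ι) (hφ : ∀ b ∈ N, DepOn (φ b) (Bk b))
    (hdis : ∀ b ∈ N, ∀ c ∈ N, b ≠ c → Disjoint (Bk b) (Bk c)) :
    ev A p (fun T => ∏ b ∈ N, φ b T) = ∏ b ∈ N, ev A p (φ b) := by
  induction N using Finset.induction_on with
  | empty => simp only [prod_empty, ev_const]
  | insert a N ha ih =>
      have ih' := ih (fun b hb => hφ b (mem_insert_of_mem hb))
        (fun b hb c hc => hdis b (mem_insert_of_mem hb) c (mem_insert_of_mem hc))
      simp only [prod_insert ha]
      have hdep : DepOn (fun T => ∏ b ∈ N, φ b T) (N.biUnion Bk) := by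
        intro T T' h
        refine prod_congr rfl fun b hb => ?_
        apply hφ b (mem_insert_of_mem hb)
        ext x
        have hx := congrArg (fun S : Finset ι => x ∈ S) h
        simp only [mem_inter, mem_biUnion, eq_iff_iff] at hx
        simp only [mem_inter]
        constructor
        · rintro ⟨h1, h2⟩
          exact ⟨(hx.1 ⟨h1, b, hb, h2⟩).1, h2⟩
        · rintro ⟨h1, h2⟩
          exact ⟨(hx.2 ⟨h1, b, hb, h2⟩).1, h2⟩
      have hdisj : Disjoint (Bk a) (N.biUnion Bk) := by
        rw [Finset.disjoint_biUnion_right]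
        intro b hb
        apply hdis a (mem_insert_self _ _) b (mem_insert_of_mem hb)
        rintro rfl
        exact ha hb
      rw [ev_indep (hφ a (mem_insert_self _ _)) hdep hdisj, ih']

/-- Job EVB. -/
theorem depOn_mul {f g : Finset ι → ℝ} {B : Finset ι} (hf : DepOn f B) (hg : DepOn g B) :
    DepOn (fun T => f T * g T) B := by
  intro T T' h
  simp only
  rw [hf T T' h, hg T T' h]

/-- Job EVB. -/
theorem DepOn.mono {f : Finset ι → ℝ} {B C : Finset ι} (hf : DepOn f B) (h : B ⊆ C) :
    DepOn f C := by
  intro T T' hT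
  apply hf
  ext x
  have hx := congrArg (fun S : Finset ι => x ∈ S) hT
  simp only [mem_inter, eq_iff_iff] at hx
  simp only [mem_inter]
  constructor
  · rintro ⟨h1, h2⟩
    exact ⟨(hx.1 ⟨h1, h h2⟩).1, h2⟩
  · rintro ⟨h1, h2⟩
    exact ⟨(hx.2 ⟨h1, h h2⟩).1, h2⟩

end Pool.Agent.Lib.MP_7470b6_lc.Crs
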