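import Pool.Agent.Lib.MP_7470b6_lc.Crs.EvD

/-!
# Job EVA
-/

open Finset

namespace Pool.Agent.Lib.MP_7470b6_lc.Crs

variable {ι κ : Type*} [DecidableEq ι] [DecidableEq κ]

/-- Job EVA. `Finset.sum_powerset_insert`, `Finset.prod_insert`. -/
theorem ev_insert {A : Finset ι} {i : ι} (hi : i ∉ A) (p : ι → ℝ) (f : Finset ι → ℝ) :
    ev (insert i A) p f = p i * ev A p (fun T => f (insert i T)) + (1 - p i) * ev A p f := by
  unfold ev
  rw [Finset.sum_powerset_insert hi, add_comm, Finset.mul_sum, Finset.mul_sum]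
  congr 1
  · refine Finset.sum_congr rfl fun T hT => ?_
    rw [Finset.prod_insert hi, if_pos (Finset.mem_insert_self i T), mul_assoc]
    congr 2
    refine Finset.prod_congr rfl fun j hj => ?_
    have hji : j ≠ i := fun h => hi (h ▸ hj)
    simp [hji]
  · refine Finset.sum_congr rfl fun T hT => ?_
    have hiT : i ∉ T := fun h => hi (Finset.mem_powerset.1 hT h)
    rw [Finset.prod_insert hi, if_neg hiT, mul_assoc]

/-- Job EVA. -/
theorem ev_empty (p : ι → ℝ) (f : Finset ι → ℝ) : ev ∅ p f = f ∅ := by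
  simp [ev]

/-- Job EVA. -/
theorem ev_add (A : Finset ι) (p : ι → ℝ) (f g : Finset ι → ℝ) :
    ev A p (fun T => f T + g T) = ev A p f + ev A p g := by
  simp only [ev, mul_add, Finset.sum_add_distrib]

/-- Job EVA. -/
theorem ev_sub (A : Finset ι) (p : ι → ℝ) (f g : Finset ι → ℝ) :
    ev A p (fun T => f T - g T) = ev A p f - ev A p g := by
  simp only [ev, mul_sub, Finset.sum_sub_distrib]

/-- Job EVA. -/
theorem ev_const_mul (A : Finset ι) (p : ι → ℝ) (c : ℝ) (f : Finset ι → ℝ) :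
    ev A p (fun T => c * f T) = c * ev A p f := by
  unfold ev
  rw [Finset.mul_sum]
  exact Finset.sum_congr rfl fun T _ => mul_left_comm _ _ _

/-- Job EVA. -/
theorem ev_sum {α : Type*} (A : Finset ι) (p : ι → ℝ) (s : Finset α) (f : α → Finset ι → ℝ) :
    ev A p (fun T => ∑ a ∈ s, f a T) = ∑ a ∈ s, ev A p (f a) := by
  unfold ev
  rw [Finset.sum_comm]
  exact Finset.sum_congr rfl fun T _ => Finset.mul_sum _ _ _

/-- Job EVA. -/
theorem ev_const (A : Finset ι) (p : ι → ℝ) (c : ℝ) : ev A p (fun _ => c) = c := by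
  induction A using Finset.induction_on with
  | empty => exact ev_empty p _
  | insert i A hi ih =>
    rw [ev_insert hi, ih]
    ring

/-- Job EVA. Only subsets of `A` matter. -/
theorem ev_congr {A : Finset ι} {p : ι → ℝ} {f g : Finset ι → ℝ} (h : ∀ T ⊆ A, f T = g T) :
    ev A p f = ev A p g :=
  Finset.sum_congr rfl fun T hT => by rw [h T (Finset.mem_powerset.1 hT)]

/-- Job EVA. -/
theorem ev_mono {A : Finset ι} {p : ι → ℝ} (hp : ∀ i ∈ A, 0 ≤ p i ∧ p i ≤ 1)
    {f g : Finset ι → ℝ} (h : ∀ T ⊆ A, f T ≤ g T) : ev A p f ≤ ev A p g := by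
  refine Finset.sum_le_sum fun T hT => ?_
  refine mul_le_mul_of_nonneg_left (h T (Finset.mem_powerset.1 hT)) ?_
  refine Finset.prod_nonneg fun i hi => ?_
  split_ifs
  · exact (hp i hi).1
  · linarith [(hp i hi).2]

/-- Job EVA. Probability that `i` is present. -/
theorem ev_mem {A : Finset ι} {i : ι} (hi : i ∈ A) (p : ι → ℝ) :
    ev A p (fun T => if i ∈ T then 1 else 0) = p i := by
  have h1 := ev_insert (Finset.notMem_erase i A) p (fun T => if i ∈ T then (1 : ℝ) else 0)
  rw [Finset.insert_erase hi] at h1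
  rw [h1]
  have h2 : ev (A.erase i) p (fun T => if i ∈ insert i T then (1 : ℝ) else 0) = 1 := by
    rw [ev_congr (g := fun _ => (1 : ℝ)) fun T _ => if_pos (Finset.mem_insert_self i T)]
    exact ev_const _ _ _
  have h3 : ev (A.erase i) p (fun T => if i ∈ T then (1 : ℝ) else 0) = 0 := by
    rw [ev_congr (g := fun _ => (0 : ℝ)) fun T hT =>
      if_neg fun h => Finset.notMem_erase i A (hT h)]
    exact ev_const _ _ _
  rw [h2, h3]
  ring

private lemma EVA_prod (A : Finset ι) (p x y : ι → ℝ) :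
    ev A p (fun T => ∏ i ∈ A, if i ∈ T then x i else y i) =
      ∏ i ∈ A, (p i * x i + (1 - p i) * y i) := by
  unfold ev
  rw [Finset.prod_add]
  refine Finset.sum_congr rfl fun T hT => ?_
  have hT' := Finset.mem_powerset.1 hT
  rw [← Finset.prod_mul_distrib]
  have h1 : ∀ i ∈ A, ((if i ∈ T then p i else 1 - p i) * if i ∈ T then x i else y i) =
      T.piecewise (fun i => p i * x i) (fun i => (1 - p i) * y i) i := by
    intro i _
    by_cases h : i ∈ T
    · simp [h]
    · simp [h]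
  rw [Finset.prod_congr rfl h1, Finset.prod_piecewise, Finset.inter_eq_right.2 hT']

private lemma EVA_ind {A B C T : Finset ι} (hB : B ⊆ A) (hC : C ⊆ A) :
    (if B ⊆ T ∧ Disjoint C T then (1 : ℝ) else 0) =
      ∏ i ∈ A, if i ∈ T then (if i ∈ C then (0 : ℝ) else 1) else (if i ∈ B then (0 : ℝ) else 1) := by
  split_ifs with h
  · symm
    refine Finset.prod_eq_one fun i _ => ?_
    by_cases hi : i ∈ T
    · rw [if_pos hi, if_neg fun hc => Finset.disjoint_left.1 h.2 hc hi]
    · rw [if_neg hi, if_neg fun hb => hi (h.1 hb)]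
  · symm
    rw [Finset.prod_eq_zero_iff]
    by_cases hBT : B ⊆ T
    · have hCT : ¬ Disjoint C T := fun hd => h ⟨hBT, hd⟩
      rw [Finset.not_disjoint_iff] at hCT
      obtain ⟨i, h1, h2⟩ := hCT
      exact ⟨i, hC h1, by rw [if_pos h2, if_pos h1]⟩
    · rw [Finset.not_subset] at hBT
      obtain ⟨i, h1, h2⟩ := hBT
      exact ⟨i, hB h1, by rw [if_neg h2, if_pos h1]⟩

/-- Job EVA. Probability that all members of `B` are present and no member of `C` is. -/
theorem ev_pattern {A B C : Finset ι} (hB : B ⊆ A) (hC : C ⊆ A) (hBC : Disjoint B C) (p : ι → ℝ) :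
    ev A p (fun T => if B ⊆ T ∧ Disjoint C T then 1 else 0) =
      (∏ i ∈ B, p i) * ∏ i ∈ C, (1 - p i) := by
  rw [ev_congr (fun T _ => EVA_ind (T := T) hB hC), EVA_prod]
  have h1 : ∀ i ∈ A, (p i * (if i ∈ C then (0 : ℝ) else 1) + (1 - p i) * if i ∈ B then (0 : ℝ) else 1) =
      (if i ∈ B then p i else 1) * (if i ∈ C then 1 - p i else 1) := by
    intro i _
    by_cases hb : i ∈ B
    · have hc : i ∉ C := Finset.disjoint_left.1 hBC hb
      simp [hb, hc]
    · by_cases hc : i ∈ C
      · simp [hb, hc]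
      · simp [hb, hc]
  rw [Finset.prod_congr rfl h1, Finset.prod_mul_distrib, Finset.prod_ite_mem, Finset.prod_ite_mem,
    Finset.inter_eq_right.2 hB, Finset.inter_eq_right.2 hC]

end Pool.Agent.Lib.MP_7470b6_lc.Crs
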