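import Pool.Agent.Lib.MP_7470b6_lc.Crs.PolyD
import Pool.Agent.Lib.MP_7470b6_lc.Crs.EVA

/-!
# Job POL
-/

open Finset

namespace Pool.Agent.Lib.MP_7470b6_lc.Crs

/-- Job POL. -/
theorem PF_mono {V : Type} {F F' : Finset (Sym2 V)} (h : F ⊆ F') : PF F ⊆ PF F' := by
  apply convexHull_mono
  rintro y ⟨M, hM, hm, hy⟩
  exact ⟨M, hM.trans h, hm, hy⟩

/-- Job POL. -/
theorem PF_zero {V : Type} {F : Finset (Sym2 V)} {z : Sym2 V → ℝ} (hz : z ∈ PF F) {e : Sym2 V}
    (he : e ∉ F) : z e = 0 := by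
  have hc : Convex ℝ {z : Sym2 V → ℝ | z e = 0} := by
    intro x hx y hy a b _ _ _
    simp only [Set.mem_ofPred_eq] at hx hy ⊢
    simp [hx, hy]
  have hs : {y | ∃ M : Finset (Sym2 V), M ⊆ F ∧ IsMatch M ∧ y = chi M} ⊆
      {z : Sym2 V → ℝ | z e = 0} := by
    rintro y ⟨M, hM, _, hy⟩
    have : e ∉ M := fun h => he (hM h)
    simp only [Set.mem_ofPred_eq, hy, chi, if_neg this]
  exact convexHull_min hs hc hz

/-- Job POL. -/
theorem PF_nonneg {V : Type} {F : Finset (Sym2 V)} {z : Sym2 V → ℝ} (hz : z ∈ PF F)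
    (e : Sym2 V) : 0 ≤ z e := by
  have hc : Convex ℝ {z : Sym2 V → ℝ | 0 ≤ z e} := by
    intro x hx y hy a b ha hb _
    simp only [Set.mem_ofPred_eq] at hx hy ⊢
    simp only [Pi.add_apply, Pi.smul_apply, smul_eq_mul]
    positivity
  have hs : {y | ∃ M : Finset (Sym2 V), M ⊆ F ∧ IsMatch M ∧ y = chi M} ⊆
      {z : Sym2 V → ℝ | 0 ≤ z e} := by
    rintro y ⟨M, hM, _, hy⟩
    simp only [Set.mem_ofPred_eq, hy, chi]
    split_ifs <;> norm_num
  exact convexHull_min hs hc hz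

open Classical in
/-- Job POL. The vertex constraints. Proof: the set of all `y` with this property is convex and
contains the indicators of matchings. -/
theorem PF_vertex {V : Type} {F : Finset (Sym2 V)} {z : Sym2 V → ℝ} (hz : z ∈ PF F) (v : V) :
    ∑ e ∈ F.filter (fun e => v ∈ e), z e ≤ 1 := by
  have hc : Convex ℝ {z : Sym2 V → ℝ | ∑ e ∈ F.filter (fun e => v ∈ e), z e ≤ 1} := by
    intro x hx y hy a b ha hb hab
    simp only [Set.mem_ofPred_eq] at hx hy ⊢
    simp only [Pi.add_apply, Pi.smul_apply, smul_eq_mul]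
    rw [Finset.sum_add_distrib, ← Finset.mul_sum, ← Finset.mul_sum]
    nlinarith
  have hs : {y | ∃ M : Finset (Sym2 V), M ⊆ F ∧ IsMatch M ∧ y = chi M} ⊆
      {z : Sym2 V → ℝ | ∑ e ∈ F.filter (fun e => v ∈ e), z e ≤ 1} := by
    rintro y ⟨M, hM, hm, hy⟩
    simp only [Set.mem_ofPred_eq, hy, chi]
    rw [← Finset.sum_filter, Finset.sum_const, nsmul_eq_mul, mul_one]
    have h1 : (((F.filter (fun e => v ∈ e)).filter (fun e => e ∈ M)).card) ≤ 1 := by
      rw [Finset.card_le_one]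
      intro a ha b hb
      simp only [Finset.mem_filter] at ha hb
      exact hm a ha.2 b hb.2 v ha.1.2 hb.1.2
    exact_mod_cast h1
  exact convexHull_min hs hc hz

/-- Job POL. Averages of members of the polytope (convexity, `Convex.sum_mem`, `ev_const`). -/
theorem PF_ev {V : Type} {ι : Type*} [DecidableEq ι] {F : Finset (Sym2 V)} {A : Finset ι}
    {p : ι → ℝ} (hp : ∀ i ∈ A, 0 ≤ p i ∧ p i ≤ 1) {z : Finset ι → Sym2 V → ℝ}
    (hz : ∀ T ⊆ A, z T ∈ PF F) : (fun e => ev A p (fun T => z T e)) ∈ PF F := by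
  have h1 : (fun e => ev A p (fun T => z T e)) =
      ∑ T ∈ A.powerset, (∏ i ∈ A, if i ∈ T then p i else 1 - p i) • z T := by
    funext e
    simp only [ev, Finset.sum_apply, Pi.smul_apply, smul_eq_mul]
  rw [h1]
  apply Convex.sum_mem (convex_convexHull ℝ _)
  · intro T _
    apply Finset.prod_nonneg
    intro i hi
    have := hp i hi
    split_ifs <;> linarith
  · have h2 := ev_const A p 1
    unfold ev at h2
    simpa using h2
  · intro T hT
    exact hz T (Finset.mem_powerset.1 hT)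

end Pool.Agent.Lib.MP_7470b6_lc.Crs
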