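import Pool.Agent.Lib.MP_7470b6_lc.Crs.BIR

/-!
# Job BIM
-/

open Finset

namespace Pool.Agent.Lib.MP_7470b6_lc.Crs

/-- Job BIM. `bipartite_mem` for `y s(u,v) = min (1/dg F u) (1/dg F v)`: the sum at `v` is at most
`dg F v * (1 / dg F v)`. -/
theorem exists_min {V : Type} [Fintype V] {F : Finset (Sym2 V)} (c : V → Bool)
    (hc : ∀ u v, s(u, v) ∈ F → c u ≠ c v) :
    ∃ z ∈ PF F, ∀ u v : V, s(u, v) ∈ F → min (1 / (dg F u : ℝ)) (1 / (dg F v : ℝ)) ≤ z s(u, v) := by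
  classical
  let y : Sym2 V → ℝ := Sym2.lift ⟨fun u v => min (1 / (dg F u : ℝ)) (1 / (dg F v : ℝ)),
    fun u v => min_comm _ _⟩
  have hyv : ∀ u v : V, y s(u, v) = min (1 / (dg F u : ℝ)) (1 / (dg F v : ℝ)) := fun u v => rfl
  have hy0 : ∀ e ∈ F, 0 ≤ y e := by
    intro e _
    induction e using Sym2.ind with
    | _ u v =>
      rw [hyv]
      exact le_min (by positivity) (by positivity)
  have hle : ∀ v : V, ∀ e : Sym2 V, v ∈ e → y e ≤ 1 / (dg F v : ℝ) := by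
    intro v e he
    obtain ⟨w, rfl⟩ := Sym2.mem_iff_exists.1 he
    rw [hyv]
    exact min_le_left _ _
  have hy : ∀ v, ∑ e ∈ F.filter (fun e => v ∈ e), y e ≤ 1 := by
    intro v
    calc ∑ e ∈ F.filter (fun e => v ∈ e), y e
        ≤ ∑ e ∈ F.filter (fun e => v ∈ e), 1 / (dg F v : ℝ) :=
          Finset.sum_le_sum (fun e he => hle v e (Finset.mem_filter.1 he).2)
      _ = (dg F v : ℝ) * (1 / (dg F v : ℝ)) := by
          rw [Finset.sum_const, nsmul_eq_mul]
          unfold dg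
          congr!
      _ ≤ 1 := by
          rw [mul_one_div]
          exact div_self_le_one _
  obtain ⟨z, hz, hzy⟩ := bipartite_mem c hc hy0 hy
  refine ⟨z, hz, fun u v huv => ?_⟩
  rw [hzy _ huv, hyv]

end Pool.Agent.Lib.MP_7470b6_lc.Crs
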