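import Pool.Agent.Lib.MP_7470b6_lc.Crs.PolyD

/-!
# Job BIR
-/

open Finset

namespace Pool.Agent.Lib.MP_7470b6_lc.Crs

open Classical in
/-- Job BIR: the matching attached to a permutation of `V ⊕ V`. -/
noncomputable def birM {V : Type} (F : Finset (Sym2 V)) (c : V → Bool)
    (σ : Equiv.Perm (V ⊕ V)) : Finset (Sym2 V) :=
  F.filter (fun e => ∃ a b, c a = true ∧ c b = false ∧ e = s(a, b) ∧ σ (Sum.inl a) = Sum.inl b)

theorem birM_subset {V : Type} (F : Finset (Sym2 V)) (c : V → Bool)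
    (σ : Equiv.Perm (V ⊕ V)) : birM F c σ ⊆ F := by
  classical
  exact Finset.filter_subset _ _

theorem bir_mem_left {V : Type} {c : V → Bool} {a b v : V} (ha : c a = true) (hb : c b = false)
    (hv : v ∈ s(a, b)) : (c v = true ∧ v = a) ∨ (c v = false ∧ v = b) := by
  rcases Sym2.mem_iff.1 hv with rfl | rfl
  · exact Or.inl ⟨ha, rfl⟩
  · exact Or.inr ⟨hb, rfl⟩

theorem birM_isMatch {V : Type} (F : Finset (Sym2 V)) (c : V → Bool)
    (σ : Equiv.Perm (V ⊕ V)) : IsMatch (birM F c σ) := by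
  classical
  intro e he f hf v hve hvf
  obtain ⟨-, a, b, ha, hb, rfl, hσ⟩ := Finset.mem_filter.1 he
  obtain ⟨-, a', b', ha', hb', rfl, hσ'⟩ := Finset.mem_filter.1 hf
  rcases bir_mem_left ha hb hve with ⟨h1, rfl⟩ | ⟨h1, rfl⟩
  · rcases bir_mem_left ha' hb' hvf with ⟨h2, rfl⟩ | ⟨h2, rfl⟩
    · rw [hσ] at hσ'
      rw [Sum.inl.inj hσ']
    · rw [h1] at h2
      exact absurd h2 (by decide)
  · rcases bir_mem_left ha' hb' hvf with ⟨h2, rfl⟩ | ⟨h2, rfl⟩
    · rw [h1] at h2
      exact absurd h2 (by decide)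
    · rw [← hσ] at hσ'
      rw [Sum.inl.inj (σ.injective hσ')]

theorem mem_birM {V : Type} {F : Finset (Sym2 V)} {c : V → Bool}
    {σ : Equiv.Perm (V ⊕ V)} {a b : V} (ha : c a = true) (hb : c b = false) (he : s(a, b) ∈ F) :
    s(a, b) ∈ birM F c σ ↔ σ (Sum.inl a) = Sum.inl b := by
  classical
  rw [birM, Finset.mem_filter]
  constructor
  · rintro ⟨-, a', b', ha', hb', h, hσ⟩
    rcases Sym2.eq_iff.1 h with ⟨rfl, rfl⟩ | ⟨rfl, rfl⟩
    · exact hσ
    · rw [ha] at hb'
      exact absurd hb' (by decide)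
  · intro hσ
    exact ⟨he, a, b, ha, hb, rfl, hσ⟩

open Classical in
/-- Job BIR: the matrix of the fractional matching. -/
noncomputable def birN {V : Type} (F : Finset (Sym2 V)) (c : V → Bool) (y : Sym2 V → ℝ) :
    Matrix V V ℝ :=
  fun a b => if c a = true ∧ c b = false ∧ s(a, b) ∈ F then y s(a, b) else 0

theorem birN_nonneg {V : Type} {F : Finset (Sym2 V)} {c : V → Bool} {y : Sym2 V → ℝ}
    (hy0 : ∀ e ∈ F, 0 ≤ y e) (a b : V) : 0 ≤ birN F c y a b := by
  unfold birN
  split_ifs with h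
  · exact hy0 _ h.2.2
  · exact le_rfl

open Classical in
theorem birN_row {V : Type} [Fintype V] {F : Finset (Sym2 V)} {c : V → Bool} {y : Sym2 V → ℝ}
    (hy0 : ∀ e ∈ F, 0 ≤ y e) (hy : ∀ v, ∑ e ∈ F.filter (fun e => v ∈ e), y e ≤ 1) (a : V) :
    ∑ b, birN F c y a b ≤ 1 := by
  refine le_trans ?_ (hy a)
  unfold birN
  rw [← Finset.sum_filter]
  have hinj : Set.InjOn (fun b => s(a, b))
      (Finset.univ.filter (fun b => c a = true ∧ c b = false ∧ s(a, b) ∈ F) : Finset V) := by
    intro b _ b' _ h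
    exact Sym2.congr_right.1 h
  rw [← Finset.sum_image (f := y) hinj]
  refine Finset.sum_le_sum_of_subset_of_nonneg ?_ ?_
  · intro e he
    obtain ⟨b, hb, rfl⟩ := Finset.mem_image.1 he
    rw [Finset.mem_filter] at hb
    exact Finset.mem_filter.2 ⟨hb.2.2.2, Sym2.mem_mk_left a b⟩
  · intro e he _
    exact hy0 e (Finset.mem_filter.1 he).1

open Classical in
theorem birN_col {V : Type} [Fintype V] {F : Finset (Sym2 V)} {c : V → Bool} {y : Sym2 V → ℝ}
    (hy0 : ∀ e ∈ F, 0 ≤ y e) (hy : ∀ v, ∑ e ∈ F.filter (fun e => v ∈ e), y e ≤ 1) (b : V) :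
    ∑ a, birN F c y a b ≤ 1 := by
  refine le_trans ?_ (hy b)
  unfold birN
  rw [← Finset.sum_filter]
  have hinj : Set.InjOn (fun a => s(a, b))
      (Finset.univ.filter (fun a => c a = true ∧ c b = false ∧ s(a, b) ∈ F) : Finset V) := by
    intro a _ a' _ h
    exact Sym2.congr_left.1 h
  rw [← Finset.sum_image (f := y) hinj]
  refine Finset.sum_le_sum_of_subset_of_nonneg ?_ ?_
  · intro e he
    obtain ⟨a, ha, rfl⟩ := Finset.mem_image.1 he
    rw [Finset.mem_filter] at ha
    exact Finset.mem_filter.2 ⟨ha.2.2.2, Sym2.mem_mk_right a b⟩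
  · intro e he _
    exact hy0 e (Finset.mem_filter.1 he).1

open Classical in
/-- Job BIR: the doubly stochastic matrix. -/
noncomputable def birD {V : Type} [Fintype V] (F : Finset (Sym2 V)) (c : V → Bool)
    (y : Sym2 V → ℝ) : Matrix (V ⊕ V) (V ⊕ V) ℝ :=
  Matrix.fromBlocks (birN F c y) (Matrix.diagonal fun a => 1 - ∑ b, birN F c y a b)
    (Matrix.diagonal fun b => 1 - ∑ a, birN F c y a b) (birN F c y).transpose

open Classical in
theorem birD_mem {V : Type} [Fintype V] {F : Finset (Sym2 V)} {c : V → Bool} {y : Sym2 V → ℝ}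
    (hy0 : ∀ e ∈ F, 0 ≤ y e) (hy : ∀ v, ∑ e ∈ F.filter (fun e => v ∈ e), y e ≤ 1) :
    birD F c y ∈ doublyStochastic ℝ (V ⊕ V) := by
  rw [mem_doublyStochastic_iff_sum]
  refine ⟨?_, ?_, ?_⟩
  · rintro (a | b) (b' | a')
    · exact birN_nonneg hy0 a b'
    · simp only [birD, Matrix.fromBlocks_apply₁₂, Matrix.diagonal_apply]
      split_ifs with h
      · linarith [birN_row (c := c) hy0 hy a]
      · exact le_rfl
    · simp only [birD, Matrix.fromBlocks_apply₂₁, Matrix.diagonal_apply]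
      split_ifs with h
      · linarith [birN_col (c := c) hy0 hy b]
      · exact le_rfl
    · exact birN_nonneg hy0 a' b
  · rintro (a | b)
    · rw [Fintype.sum_sum_type]
      simp [birD, Matrix.diagonal_apply]
    · rw [Fintype.sum_sum_type]
      simp [birD, Matrix.diagonal_apply]
  · rintro (b | a)
    · rw [Fintype.sum_sum_type]
      simp [birD, Matrix.diagonal_apply]
    · rw [Fintype.sum_sum_type]
      simp [birD, Matrix.diagonal_apply]

open Classical in
theorem bir_perm {V : Type} [Fintype V] (σ : Equiv.Perm (V ⊕ V)) (a b : V) :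
    (σ.permMatrix ℝ) (Sum.inl a) (Sum.inl b) = if σ (Sum.inl a) = Sum.inl b then 1 else 0 := by
  rw [Equiv.Perm.permMatrix, PEquiv.toMatrix_apply]
  simp [Equiv.toPEquiv_apply]

open Classical in
/-- Job BIR. Fractional matchings of bipartite graphs are in the matching polytope.
Proof: matrix `N a b = y s(a,b)` if `c a = true`, `c b = false`, `s(a,b) ∈ F`, else `0`, with row sums
`r a ≤ 1` and column sums `k b ≤ 1`. The matrix on `V ⊕ V` with entries `(inl a, inl b) ↦ N a b`,
`(inl a, inr a') ↦ if a = a' then 1 - r a`, `(inr b', inl b) ↦ if b = b' then 1 - k b`,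
`(inr b, inr a) ↦ N a b` is doubly stochastic, so a convex combination of permutation matrices
(`doublyStochastic_eq_convexHull_permMatrix`). For a permutation `σ` the set
`{s(a,b) ∈ F | c a = true, c b = false, σ (inl a) = inl b}` is a matching contained in `F`, and the
linear map `A ↦ (e ↦ ...)` sends the doubly stochastic matrix to the vector which is `y` on `F` and
`0` elsewhere. -/
theorem bipartite_mem {V : Type} [Fintype V] {F : Finset (Sym2 V)} (c : V → Bool)
    (hc : ∀ u v, s(u, v) ∈ F → c u ≠ c v) {y : Sym2 V → ℝ} (hy0 : ∀ e ∈ F, 0 ≤ y e)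
    (hy : ∀ v, ∑ e ∈ F.filter (fun e => v ∈ e), y e ≤ 1) :
    ∃ z ∈ PF F, ∀ e ∈ F, z e = y e := by
  obtain ⟨w, hw0, hw1, hw⟩ := exists_eq_sum_perm_of_mem_doublyStochastic (birD_mem (c := c) hy0 hy)
  refine ⟨∑ σ : Equiv.Perm (V ⊕ V), w σ • chi (birM F c σ), ?_, ?_⟩
  · refine (convex_convexHull ℝ _).sum_mem (fun σ _ => hw0 σ) hw1 fun σ _ => ?_
    exact subset_convexHull ℝ _ ⟨birM F c σ, birM_subset F c σ, birM_isMatch F c σ, rfl⟩
  · have key : ∀ a b, c a = true → c b = false → s(a, b) ∈ F →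
        (∑ σ : Equiv.Perm (V ⊕ V), w σ • chi (birM F c σ)) s(a, b) = y s(a, b) := by
      intro a b ha hb he
      have h1 : birD F c y (Sum.inl a) (Sum.inl b) = y s(a, b) := by
        simp only [birD, Matrix.fromBlocks_apply₁₁, birN]
        rw [if_pos ⟨ha, hb, he⟩]
      rw [← h1, ← hw, Finset.sum_apply, Matrix.sum_apply]
      refine Finset.sum_congr rfl fun σ _ => ?_
      rw [Pi.smul_apply, Matrix.smul_apply, bir_perm]
      congr 1
      unfold chi
      simp only [mem_birM ha hb he]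
    intro e he
    induction e using Sym2.ind with
    | _ a b =>
      have h := hc a b he
      cases ha : c a
      · cases hb : c b
        · exact absurd (ha.trans hb.symm) h
        · rw [Sym2.eq_swap] at he ⊢
          exact key b a hb ha he
      · cases hb : c b
        · exact key a b ha hb he
        · exact absurd (ha.trans hb.symm) h

end Pool.Agent.Lib.MP_7470b6_lc.Crs
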