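import Pool.Agent.Lib.MP_7470b6_lc.Crs.RuleD

/-!
# Job RU1
-/

open Finset

namespace Pool.Agent.Lib.MP_7470b6_lc.Crs

variable {V : Type} [Fintype V] [DecidableEq V]

private theorem RU1_mf {α : Type*} {p : α → Prop} (inst : DecidablePred p) {s : Finset α} {a : α} :
    a ∈ @Finset.filter α p inst s ↔ a ∈ s ∧ p a := Finset.mem_filter

/-- Job RU1. `FF G T` consists of edges that are present. -/
theorem FF_sub (G : SimpleGraph V) (T : Finset (Idx V)) {e : Sym2 V} (he : e ∈ FF G T) :
    e ∈ edges G ∧ Sum.inl e ∈ T := by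
  unfold FF at he
  obtain ⟨h1, h2, _⟩ := (RU1_mf _).1 he
  exact ⟨h1, h2⟩

/-- Job RU1. -/
theorem mk_mem_edges (G : SimpleGraph V) (u v : V) : s(u, v) ∈ edges G ↔ G.Adj u v := by
  unfold edges
  rw [RU1_mf, SimpleGraph.mem_edgeSet]
  exact ⟨fun h => h.2, fun h => ⟨Finset.mem_univ _, h⟩⟩

/-- Membership in `FF` of an edge with one active end. -/
private theorem RU1_mem_FF (G : SimpleGraph V) (T : Finset (Idx V)) {a b : V} (h : act G T a b) :
    s(b, a) ∈ FF G T := by
  obtain ⟨h1, h2, -⟩ := id h
  rw [Sym2.eq_swap] at h1 h2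
  unfold FF
  exact (RU1_mf _).2 ⟨h1, h2, b, a, rfl, Or.inr (Or.inl h)⟩

/-- The form of the members of `FF` at `u`. -/
private theorem RU1_FF_cases (G : SimpleGraph V) (T : Finset (Idx V)) {u b : V}
    (h : s(u, b) ∈ FF G T) :
    act G T u b ∨ act G T b u ∨ ((∀ c, ¬ act G T c u) ∧ ∀ c, ¬ act G T c b) := by
  unfold FF at h
  obtain ⟨-, -, u', v', he, hc⟩ := (RU1_mf _).1 h
  rcases Sym2.eq_iff.1 he with ⟨h1, h2⟩ | ⟨h1, h2⟩
  · rw [← h1, ← h2] at hc
    exact hc
  · rw [← h1, ← h2] at hc
    rcases hc with hc | hc | hc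
    · exact Or.inr (Or.inl hc)
    · exact Or.inl hc
    · exact Or.inr (Or.inr ⟨hc.2, hc.1⟩)

/-- Job RU1. The degree in `FF G T` of a vertex `u` of a present edge `s(u,v)` to which no active
leaf is attached, or of any vertex: at most the number of present edges. -/
theorem dg_le (G : SimpleGraph V) (T : Finset (Idx V)) {u v : V} (huv : s(u, v) ∈ edges G)
    (hT : Sum.inl s(u, v) ∈ T) : dg (FF G T) u ≤ cntK G T u v + 1 := by
  classical
  have hsub : ∀ e ∈ FF G T, u ∈ e → e ∈ insert s(u, v)
      (((nb G u v).filter (fun b => Sum.inl s(u, b) ∈ T)).image (fun b => s(u, b))) := by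
    intro e he hue
    obtain ⟨b, rfl⟩ := Sym2.mem_iff_exists.1 hue
    obtain ⟨h1, h2⟩ := FF_sub G T he
    by_cases hb : b = v
    · rw [hb]
      exact Finset.mem_insert_self _ _
    · refine Finset.mem_insert_of_mem (Finset.mem_image.2 ⟨b, ?_, rfl⟩)
      refine (RU1_mf _).2 ⟨?_, h2⟩
      unfold nb
      exact (RU1_mf _).2 ⟨Finset.mem_univ _, hb, h1⟩
  unfold dg cntK
  refine (Finset.card_le_card (t := insert s(u, v)
      (((nb G u v).filter (fun b => Sum.inl s(u, b) ∈ T)).image (fun b => s(u, b)))) ?_).trans ?_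
  · intro e he
    obtain ⟨h1, h2⟩ := (RU1_mf _).1 he
    exact hsub e h1 h2
  · refine (Finset.card_insert_le _ _).trans ?_
    refine Nat.add_le_add_right (Finset.card_image_le.trans (le_of_eq ?_)) 1
    congr 1

/-- Job RU1. If `v` is an active leaf attached to `u` then `s(u,v) ∈ FF G T`, `dg (FF G T) v = 1` and
`dg (FF G T) u = cntA G T u v + 1`: an edge `s(u,b)` of `FF G T` at `u` satisfies `act b u` (then it is
counted) or `act u b` (then `u` has only one present edge, so `b = v`); the third alternative is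
excluded by `act v u`. -/
theorem dg_act (G : SimpleGraph V) (T : Finset (Idx V)) {u v : V} (h : act G T v u) :
    s(u, v) ∈ FF G T ∧ dg (FF G T) v = 1 ∧ dg (FF G T) u = cntA G T u v + 1 := by
  classical
  have hF : s(u, v) ∈ FF G T := RU1_mem_FF G T h
  obtain ⟨h1, h2, h3, h4⟩ := id h
  refine ⟨hF, ?_, ?_⟩
  · unfold dg
    rw [Finset.card_eq_one]
    refine ⟨s(u, v), ?_⟩
    apply Finset.ext
    intro e
    constructor
    · intro he
      obtain ⟨he1, he2⟩ := (RU1_mf _).1 he
      obtain ⟨he3, he4⟩ := FF_sub G T he1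
      rw [Finset.mem_singleton, h4 e he3 he4 he2, Sym2.eq_swap]
    · intro he
      rw [Finset.mem_singleton] at he
      rw [he]
      exact (RU1_mf _).2 ⟨hF, Sym2.mem_mk_right u v⟩
  · have hset : ∀ e, (e ∈ FF G T ∧ u ∈ e) ↔ e ∈ insert s(u, v)
        (((nb G u v).filter (fun b => act G T b u)).image (fun b => s(u, b))) := by
      intro e
      constructor
      · rintro ⟨he1, he2⟩
        obtain ⟨b, rfl⟩ := Sym2.mem_iff_exists.1 he2
        obtain ⟨he3, he4⟩ := FF_sub G T he1
        by_cases hb : b = v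
        · rw [hb]
          exact Finset.mem_insert_self _ _
        · refine Finset.mem_insert_of_mem (Finset.mem_image.2 ⟨b, ?_, rfl⟩)
          refine (RU1_mf _).2 ⟨?_, ?_⟩
          · unfold nb
            exact (RU1_mf _).2 ⟨Finset.mem_univ _, hb, he3⟩
          · rcases RU1_FF_cases G T he1 with hc | hc | hc
            · exfalso
              obtain ⟨-, -, -, hc4⟩ := hc
              have h5 := hc4 s(v, u) h1 h2 (Sym2.mem_mk_right v u)
              rw [Sym2.eq_swap, Sym2.congr_right] at h5
              exact hb h5.symm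
            · exact hc
            · exact absurd h (hc.1 v)
      · intro he
        rcases Finset.mem_insert.1 he with he | he
        · rw [he]
          exact ⟨hF, Sym2.mem_mk_left u v⟩
        · obtain ⟨b, hb, rfl⟩ := Finset.mem_image.1 he
          obtain ⟨-, hb2⟩ := (RU1_mf _).1 hb
          exact ⟨RU1_mem_FF G T hb2, Sym2.mem_mk_left u b⟩
    have hcard : (insert s(u, v)
        (((nb G u v).filter (fun b => act G T b u)).image (fun b => s(u, b)))).card =
        ((nb G u v).filter (fun b => act G T b u)).card + 1 := by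
      rw [Finset.card_insert_of_notMem, Finset.card_image_of_injective]
      · intro a b hab
        exact Sym2.congr_right.1 hab
      · intro hmem
        obtain ⟨b, hb, hb2⟩ := Finset.mem_image.1 hmem
        rw [Sym2.congr_right] at hb2
        have hb3 := ((RU1_mf _).1 hb).1
        unfold nb at hb3
        exact ((RU1_mf _).1 hb3).2.1 hb2
    unfold dg cntA
    refine Eq.trans ?_ (hcard.trans ?_)
    · congr 1
      apply Finset.ext
      intro e
      rw [← hset e]
      exact RU1_mf _
    · congr 2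

end Pool.Agent.Lib.MP_7470b6_lc.Crs
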