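import Pool.Agent.Lib.MP_7470b6_lc.Crs.SideD
import Pool.Agent.Lib.MP_7470b6_lc.Crs.EVB
import Pool.Agent.Lib.MP_7470b6_lc.Crs.RU1

/-!
# Job SD1
-/

open Finset

namespace Pool.Agent.Lib.MP_7470b6_lc.Crs

variable {V : Type} [Fintype V] [DecidableEq V]

/-- Job SD1. All probabilities are in `[0,1]` if `0 ≤ lam ≤ exp (-1)`. Proof for coins: with
`t = x s(b,u)` we have `oth ≤ 1 - t`, and `1 - exp(-lam t) ≤ lam t ≤ exp(-1) (exp t - 1) =
(1 - exp (-t)) exp (-(1-t)) ≤ (1 - exp (-t)) exp (-oth)`. -/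
theorem pr_mem {G : SimpleGraph V} {x : Sym2 V → ℝ} (hx : FM G x) {lam : ℝ} (h0 : 0 ≤ lam)
    (h1 : lam ≤ Real.exp (-1)) : ∀ i ∈ gr G, 0 ≤ pr G x lam i ∧ pr G x lam i ≤ 1 := by
  intro i hi
  rcases i with f | ⟨b, u⟩
  · have hf : f ∈ edges G := by
      unfold gr at hi
      rwa [Finset.inl_mem_disjSum] at hi
    have h2 := hx.nonneg f hf
    show 0 ≤ 1 - Real.exp (-(x f)) ∧ 1 - Real.exp (-(x f)) ≤ 1
    constructor
    · have : Real.exp (-(x f)) ≤ 1 := Real.exp_le_one_iff.2 (by linarith)
      linarith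
    · have := Real.exp_pos (-(x f))
      linarith
  · show 0 ≤ (if s(b, u) ∈ edges G ∧ 0 < x s(b, u) then
        (1 - Real.exp (-(lam * x s(b, u)))) /
          ((1 - Real.exp (-(x s(b, u)))) * Real.exp (-(oth G x b u)))
      else 0) ∧ (if s(b, u) ∈ edges G ∧ 0 < x s(b, u) then
        (1 - Real.exp (-(lam * x s(b, u)))) /
          ((1 - Real.exp (-(x s(b, u)))) * Real.exp (-(oth G x b u)))
      else 0) ≤ 1
    split_ifs with hc
    · obtain ⟨he, ht⟩ := hc
      have hv := hx.vertex b u he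
      set t := x s(b, u) with htdef
      have hden : 0 < (1 - Real.exp (-t)) * Real.exp (-(oth G x b u)) := by
        apply mul_pos _ (Real.exp_pos _)
        have : Real.exp (-t) < 1 := Real.exp_lt_one_iff.2 (by linarith)
        linarith
      have hnum : 0 ≤ 1 - Real.exp (-(lam * t)) := by
        have : Real.exp (-(lam * t)) ≤ 1 := Real.exp_le_one_iff.2 (by
          have := mul_nonneg h0 ht.le
          linarith)
        linarith
      refine ⟨div_nonneg hnum hden.le, ?_⟩
      rw [div_le_one hden]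
      have e1 : 1 - Real.exp (-(lam * t)) ≤ lam * t := by
        have := Real.add_one_le_exp (-(lam * t))
        linarith
      have e2 : lam * t ≤ Real.exp (-1) * t := mul_le_mul_of_nonneg_right h1 ht.le
      have e3 : Real.exp (-1) * t ≤ Real.exp (-1) * (Real.exp t - 1) := by
        apply mul_le_mul_of_nonneg_left _ (Real.exp_pos _).le
        have := Real.add_one_le_exp t
        linarith
      have e4 : Real.exp (-1) * (Real.exp t - 1) = (1 - Real.exp (-t)) * Real.exp (t - 1) := by
        have a1 : Real.exp (t - 1) = Real.exp (-1) * Real.exp t := by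
          rw [← Real.exp_add]
          congr 1
          ring
        have a2 : Real.exp (-t) * Real.exp t = 1 := by
          rw [← Real.exp_add, neg_add_cancel, Real.exp_zero]
        rw [a1]
        linear_combination Real.exp (-1) * a2
      have e5 : (1 - Real.exp (-t)) * Real.exp (t - 1) ≤
          (1 - Real.exp (-t)) * Real.exp (-(oth G x b u)) := by
        apply mul_le_mul_of_nonneg_left _ _
        · exact Real.exp_le_exp.2 (by linarith)
        · have : Real.exp (-t) ≤ 1 := Real.exp_le_one_iff.2 (by linarith)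
          linarith
      linarith
    · exact ⟨le_refl _, zero_le_one⟩

/-- Job SD1. -/
theorem blk_disjoint {G : SimpleGraph V} (hG : G.CliqueFree 3) {u v b c : V} (hb : b ∈ nb G u v)
    (hc : c ∈ nb G u v) (hbc : b ≠ c) : Disjoint (blk G b u) (blk G c u) := by
  classical
  have hadj : ∀ a ∈ nb G u v, G.Adj u a := by
    intro a ha
    unfold nb at ha
    rw [Finset.mem_filter] at ha
    have h1 := ha.2.2
    unfold edges at h1
    rw [Finset.mem_filter, SimpleGraph.mem_edgeSet] at h1
    exact h1.2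
  rw [Finset.disjoint_left]
  intro i hi hj
  unfold blk at hi hj
  rcases i with f | q
  · rw [Finset.inl_mem_disjSum, Finset.mem_filter] at hi hj
    have h1 : f = s(b, c) := (Sym2.mem_and_mem_iff hbc).1 ⟨hi.2, hj.2⟩
    have h2 := hi.1
    rw [h1] at h2
    unfold edges at h2
    rw [Finset.mem_filter, SimpleGraph.mem_edgeSet] at h2
    exact hG {u, b, c} (SimpleGraph.is3Clique_triple_iff.2 ⟨hadj b hb, hadj c hc, h2.2⟩)
  · rw [Finset.inr_mem_disjSum, Finset.mem_singleton] at hi hj
    rw [hi] at hj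
    exact hbc (congrArg Prod.fst hj)

open Classical in
/-- Job SD1. -/
theorem lf_depOn (G : SimpleGraph V) (u v : V) :
    DepOn (fun T => if lf G T u v then (1 : ℝ) else 0) (stem G u v) := by
  intro T T' h
  have hmem : ∀ i ∈ stem G u v, (i ∈ T ↔ i ∈ T') := by
    intro i hi
    have hx := congrArg (fun S : Finset (Idx V) => i ∈ S) h
    simp only [Finset.mem_inter, hi, and_true, eq_iff_iff] at hx
    exact hx
  have hiff : lf G T u v ↔ lf G T' u v := by
    unfold lf
    have h1 : Sum.inr (u, v) ∈ T ↔ Sum.inr (u, v) ∈ T' := by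
      apply hmem
      unfold stem
      rw [Finset.inr_mem_disjSum, Finset.mem_singleton]
    have h2 : ∀ f ∈ edges G, u ∈ f → f ≠ s(u, v) → (Sum.inl f ∈ T ↔ Sum.inl f ∈ T') := by
      intro f hf huf hne
      apply hmem
      unfold stem
      rw [Finset.inl_mem_disjSum, Finset.mem_filter]
      exact ⟨hf, huf, hne⟩
    rw [h1]
    constructor
    · rintro ⟨h3, h4⟩
      refine ⟨h3, fun f hf hT hu => ?_⟩
      by_contra hne
      exact hne (h4 f hf ((h2 f hf hu hne).2 hT) hu)
    · rintro ⟨h3, h4⟩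
      refine ⟨h3, fun f hf hT hu => ?_⟩
      by_contra hne
      exact hne (h4 f hf ((h2 f hf hu hne).1 hT) hu)
  simp only [hiff]

open Classical in
/-- Job SD1. -/
theorem act_depOn (G : SimpleGraph V) (b u : V) :
    DepOn (fun T => if act G T b u then (1 : ℝ) else 0) (blk G b u) := by
  intro T T' h
  have hmem : ∀ i ∈ blk G b u, (i ∈ T ↔ i ∈ T') := by
    intro i hi
    have hx := congrArg (fun S : Finset (Idx V) => i ∈ S) h
    simp only [Finset.mem_inter, hi, and_true, eq_iff_iff] at hx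
    exact hx
  have hiff : act G T b u ↔ act G T' b u := by
    unfold act lf
    have h1 : Sum.inr (b, u) ∈ T ↔ Sum.inr (b, u) ∈ T' := by
      apply hmem
      unfold blk
      rw [Finset.inr_mem_disjSum, Finset.mem_singleton]
    have h2 : ∀ f ∈ edges G, b ∈ f → (Sum.inl f ∈ T ↔ Sum.inl f ∈ T') := by
      intro f hf hbf
      apply hmem
      unfold blk
      rw [Finset.inl_mem_disjSum, Finset.mem_filter]
      exact ⟨hf, hbf⟩
    rw [h1]
    constructor
    · rintro ⟨h3, h4, h5, h6⟩
      exact ⟨h3, (h2 _ h3 (Sym2.mem_mk_left b u)).1 h4, h5,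
        fun f hf hT hb => h6 f hf ((h2 f hf hb).2 hT) hb⟩
    · rintro ⟨h3, h4, h5, h6⟩
      exact ⟨h3, (h2 _ h3 (Sym2.mem_mk_left b u)).2 h4, h5,
        fun f hf hT hb => h6 f hf ((h2 f hf hb).1 hT) hb⟩
  simp only [hiff]

/-- Job SD1. -/
theorem sum_nb {G : SimpleGraph V} {x : Sym2 V → ℝ} {u v : V} (huv : s(u, v) ∈ edges G) :
    ∑ b ∈ nb G u v, x s(b, u) = oth G x u v := by
  classical
  unfold oth nb
  refine Finset.sum_bij (fun b _ => s(b, u)) ?_ ?_ ?_ ?_
  · intro b hb
    rw [Finset.mem_filter] at hb ⊢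
    refine ⟨by rw [Sym2.eq_swap]; exact hb.2.2, Sym2.mem_mk_right b u, fun h => ?_⟩
    rw [Sym2.eq_swap, Sym2.congr_right] at h
    exact hb.2.1 h
  · intro b _ c _ h
    exact Sym2.congr_left.1 h
  · intro f hf
    rw [Finset.mem_filter] at hf
    obtain ⟨b, rfl⟩ := hf.2.1
    refine ⟨b, ?_, Sym2.eq_swap⟩
    rw [Finset.mem_filter]
    refine ⟨Finset.mem_univ _, fun h => ?_, hf.1⟩
    rw [h] at hf
    exact hf.2.2 rfl
  · intro b _
    rfl

end Pool.Agent.Lib.MP_7470b6_lc.Crs
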