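import Pool.Agent.Lib.MP_7470b6_lc.Crs.CombD
import Pool.Agent.Lib.MP_7470b6_lc.Crs.SD1

/-!
# Job CB1
-/

open Finset

namespace Pool.Agent.Lib.MP_7470b6_lc.Crs

variable {V : Type} [Fintype V] [DecidableEq V]

/-- membership in a common part -/
private theorem cb1_mem {ι : Type*} [DecidableEq ι] {T T' B : Finset ι} (h : T ∩ B = T' ∩ B) {i : ι} (hi : i ∈ B) :
    i ∈ T ↔ i ∈ T' := by
  have := Finset.ext_iff.1 h i
  rw [Finset.mem_inter, Finset.mem_inter] at this
  constructor
  · intro h1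
    exact (this.1 ⟨h1, hi⟩).1
  · intro h1
    exact (this.2 ⟨h1, hi⟩).1

private theorem cb1_inter {ι : Type*} [DecidableEq ι] {T T' B C : Finset ι} (h : T ∩ B = T' ∩ B) (hC : C ⊆ B) :
    T ∩ C = T' ∩ C := by
  ext i
  rw [Finset.mem_inter, Finset.mem_inter]
  constructor
  · rintro ⟨h1, h2⟩
    exact ⟨(cb1_mem h (hC h2)).1 h1, h2⟩
  · rintro ⟨h1, h2⟩
    exact ⟨(cb1_mem h (hC h2)).2 h1, h2⟩

private theorem cb1_iff {p q : Prop} [Decidable p] [Decidable q] (h : (if p then (1 : ℝ) else 0) = if q then (1 : ℝ) else 0) :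
    p ↔ q := by
  by_cases hp : p <;> by_cases hq : q <;> simp_all

private theorem cb1_nb {G : SimpleGraph V} {u v b : V} : b ∈ nb G u v ↔ b ≠ v ∧ s(u, b) ∈ edges G := by
  classical
  unfold nb
  rw [Finset.mem_filter]
  exact ⟨fun h => h.2, fun h => ⟨Finset.mem_univ _, h⟩⟩

private theorem cb1_blk_inl {G : SimpleGraph V} {b u : V} {f : Sym2 V} :
    (Sum.inl f : Idx V) ∈ blk G b u ↔ f ∈ edges G ∧ b ∈ f := by
  classical
  unfold blk
  rw [Finset.inl_mem_disjSum, Finset.mem_filter]

private theorem cb1_blk_inr {G : SimpleGraph V} {b u : V} {c : V × V} :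
    (Sum.inr c : Idx V) ∈ blk G b u ↔ c = (b, u) := by
  classical
  unfold blk
  rw [Finset.inr_mem_disjSum, Finset.mem_singleton]

private theorem cb1_stem_inl {G : SimpleGraph V} {u v : V} {f : Sym2 V} :
    (Sum.inl f : Idx V) ∈ stem G u v ↔ f ∈ edges G ∧ u ∈ f ∧ f ≠ s(u, v) := by
  classical
  unfold stem
  rw [Finset.inl_mem_disjSum, Finset.mem_filter]

private theorem cb1_stem_inr {G : SimpleGraph V} {u v : V} {c : V × V} :
    (Sum.inr c : Idx V) ∈ stem G u v ↔ c = (u, v) := by
  classical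
  unfold stem
  rw [Finset.inr_mem_disjSum, Finset.mem_singleton]

private theorem cb1_edges {G : SimpleGraph V} {u v : V} : s(u, v) ∈ edges G ↔ G.Adj u v := by
  classical
  unfold edges
  rw [Finset.mem_filter]
  exact ⟨fun h => h.2, fun h => ⟨Finset.mem_univ _, h⟩⟩

/-- Job CB1. -/
theorem fH_depOn (G : SimpleGraph V) (h : ℕ → ℝ) (u v : V) :
    DepOn (fH G h u v) (sideSet G u v) := by
  classical
  intro T T' hTT
  have hlf : lf G T u v ↔ lf G T' u v :=
    cb1_iff (lf_depOn G u v T T' (cb1_inter hTT Finset.subset_union_left))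
  have hbl : ∀ b ∈ nb G u v, T ∩ blk G b u = T' ∩ blk G b u := by
    intro b hb
    exact cb1_inter hTT ((Finset.subset_biUnion_of_mem (fun b => blk G b u) hb).trans Finset.subset_union_right)
  have hact : ∀ b ∈ nb G u v, (act G T b u ↔ act G T' b u) := by
    intro b hb
    exact cb1_iff (act_depOn G b u T T' (hbl b hb))
  have hpr : ∀ b ∈ nb G u v, ((Sum.inl s(u, b) : Idx V) ∈ T ↔ (Sum.inl s(u, b) : Idx V) ∈ T') := by
    intro b hb
    apply cb1_mem (hbl b hb)
    rw [cb1_blk_inl]
    exact ⟨(cb1_nb.1 hb).2, Sym2.mem_mk_right u b⟩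
  have hA : cntA G T u v = cntA G T' u v := by
    unfold cntA
    congr 1
    exact Finset.filter_congr hact
  have hK : cntK G T u v = cntK G T' u v := by
    unfold cntK
    congr 1
    exact Finset.filter_congr hpr
  unfold fH
  rw [hA, hK]
  congr 2
  simp only [hlf]

/-- the common indices of the two ends -/
private theorem cb1_common {G : SimpleGraph V} (hG : G.CliqueFree 3) {u v : V} (huv : s(u, v) ∈ edges G)
    {i : Idx V} (hi : i ∈ sideSet G u v ∩ sideSet G v u) : ∃ f, i = Sum.inl f ∧ f ∈ edges G ∧ u ∉ f ∧ v ∉ f := by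
  classical
  have hadj := cb1_edges.1 huv
  have hne : u ≠ v := hadj.ne
  have tri : ∀ w, G.Adj u w → G.Adj v w → False := by
    intro w h1 h2
    exact hG {u, v, w} (SimpleGraph.is3Clique_triple_iff.2 ⟨hadj, h1, h2⟩)
  rw [Finset.mem_inter] at hi
  obtain ⟨h1, h2⟩ := hi
  unfold sideSet at h1 h2
  rw [Finset.mem_union, Finset.mem_biUnion] at h1 h2
  rcases i with f | c
  · refine ⟨f, rfl, ?_⟩
    rcases h1 with h1 | ⟨b, hb, h1⟩
    · rw [cb1_stem_inl] at h1
      rcases h2 with h2 | ⟨a, ha, h2⟩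
      · rw [cb1_stem_inl] at h2
        exact absurd ((Sym2.mem_and_mem_iff hne).1 ⟨h1.2.1, h2.2.1⟩) h1.2.2
      · rw [cb1_blk_inl] at h2
        rw [cb1_nb] at ha
        have hf := (Sym2.mem_and_mem_iff ha.1.symm).1 ⟨h1.2.1, h2.2⟩
        rw [hf] at h1
        exact absurd (cb1_edges.1 ha.2) (fun h => tri a (cb1_edges.1 h1.1) h)
    · rw [cb1_blk_inl] at h1
      rw [cb1_nb] at hb
      rcases h2 with h2 | ⟨a, ha, h2⟩
      · rw [cb1_stem_inl] at h2
        have hf := (Sym2.mem_and_mem_iff hb.1.symm).1 ⟨h2.2.1, h1.2⟩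
        rw [hf] at h2
        exact absurd (cb1_edges.1 h2.1) (fun h => tri b (cb1_edges.1 hb.2) h)
      · rw [cb1_blk_inl] at h2
        rw [cb1_nb] at ha
        have hab : a ≠ b := by
          rintro rfl
          exact tri a (cb1_edges.1 hb.2) (cb1_edges.1 ha.2)
        have hf := (Sym2.mem_and_mem_iff hab).1 ⟨h2.2, h1.2⟩
        refine ⟨h1.1, ?_, ?_⟩
        · rw [hf, Sym2.mem_iff]
          rintro (h | h)
          · exact ha.1 h.symm
          · exact (cb1_edges.1 hb.2).ne h
        · rw [hf, Sym2.mem_iff]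
          rintro (h | h)
          · exact (cb1_edges.1 ha.2).ne h
          · exact hb.1 h.symm
  · exfalso
    rcases h1 with h1 | ⟨b, hb, h1⟩
    · rw [cb1_stem_inr] at h1
      rcases h2 with h2 | ⟨a, ha, h2⟩
      · rw [cb1_stem_inr] at h2
        rw [h1, Prod.mk.injEq] at h2
        exact hne h2.1
      · rw [cb1_blk_inr] at h2
        rw [cb1_nb] at ha
        rw [h1, Prod.mk.injEq] at h2
        exact ha.1 h2.1.symm
    · rw [cb1_blk_inr] at h1
      rw [cb1_nb] at hb
      rcases h2 with h2 | ⟨a, ha, h2⟩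
      · rw [cb1_stem_inr] at h2
        rw [h1, Prod.mk.injEq] at h2
        exact hb.1 h2.1
      · rw [cb1_blk_inr] at h2
        rw [h1, Prod.mk.injEq] at h2
        exact hne h2.2

/-- Job CB1. Common indices of the two ends are edges `s(b,a)` with `b ∈ nb u v`, `a ∈ nb v u`, `a ≠ b`,
none of them `u` or `v` (everything else would give a triangle). Adding such an edge does not change `cntK u v`
and `lf u v`, and can only turn active leaves attached to `u` into inactive vertices. -/
theorem fH_mono {G : SimpleGraph V} (hG : G.CliqueFree 3) {h : ℕ → ℝ} (hh : ∀ k, 0 ≤ h k) {u v : V}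
    (huv : s(u, v) ∈ edges G) : ∀ i ∈ sideSet G u v ∩ sideSet G v u, ∀ T,
      fH G h u v T ≤ fH G h u v (insert i T) := by
  classical
  intro i hi T
  obtain ⟨f, rfl, hf, huf, hvf⟩ := cb1_common hG huv hi
  have hinr : ∀ c : V × V, ((Sum.inr c : Idx V) ∈ insert (Sum.inl f : Idx V) T ↔ (Sum.inr c : Idx V) ∈ T) := by
    intro c
    rw [Finset.mem_insert]
    exact ⟨fun h => h.resolve_left (fun h => by cases h), Or.inr⟩
  have hinl : ∀ f', f' ≠ f → ((Sum.inl f' : Idx V) ∈ insert (Sum.inl f : Idx V) T ↔ (Sum.inl f' : Idx V) ∈ T) := by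
    intro f' hne
    rw [Finset.mem_insert]
    refine ⟨fun h => h.resolve_left (fun h => hne (Sum.inl_injective h)), Or.inr⟩
  have hub : ∀ b, s(u, b) ≠ f := by
    rintro b rfl
    exact huf (Sym2.mem_mk_left u b)
  have hlf : lf G (insert (Sum.inl f : Idx V) T) u v ↔ lf G T u v := by
    unfold lf
    rw [hinr]
    refine and_congr_right fun _ => ?_
    constructor
    · intro h1 f' hf' hT hu
      exact h1 f' hf' (Finset.mem_insert_of_mem hT) hu
    · intro h1 f' hf' hT hu
      rw [hinl] at hT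
      · exact h1 f' hf' hT hu
      · rintro rfl
        exact huf hu
  have hK : cntK G (insert (Sum.inl f : Idx V) T) u v = cntK G T u v := by
    unfold cntK
    congr 1
    exact Finset.filter_congr fun b _ => hinl _ (hub b)
  have hact : ∀ b, act G (insert (Sum.inl f : Idx V) T) b u → act G T b u := by
    rintro b ⟨h1, h2, h3, h4⟩
    refine ⟨h1, ?_, ?_, ?_⟩
    · rw [hinl] at h2
      · exact h2
      · rw [Sym2.eq_swap]
        exact hub b
    · rwa [hinr] at h3
    · intro f' hf' hT hb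
      exact h4 f' hf' (Finset.mem_insert_of_mem hT) hb
  have hA : cntA G (insert (Sum.inl f : Idx V) T) u v ≤ cntA G T u v := by
    unfold cntA
    apply Finset.card_le_card
    intro b hb
    rw [Finset.mem_filter] at hb ⊢
    exact ⟨hb.1, hact b hb.2⟩
  unfold fH
  rw [hK]
  simp only [hlf]
  by_cases h0 : cntA G T u v = 0
  · have h0' : cntA G (insert (Sum.inl f : Idx V) T) u v = 0 := by omega
    rw [if_pos h0, if_pos h0']
  · rw [if_neg h0, mul_zero]
    apply mul_nonneg
    · split_ifs <;> norm_num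
    · split_ifs
      · exact hh _
      · exact le_rfl

end Pool.Agent.Lib.MP_7470b6_lc.Crs
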