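import Pool.Agent.Lib.MP_7470b6_lc.Crs.SD1

/-!
# Job SD2
-/

open Finset

namespace Pool.Agent.Lib.MP_7470b6_lc.Crs

variable {V : Type} [Fintype V] [DecidableEq V]

open Classical in
/-- The edges at `u` other than `s(u,v)`, as indices. -/
noncomputable def sd2C (G : SimpleGraph V) (u v : V) : Finset (Idx V) :=
  ((edges G).filter (fun f => u ∈ f ∧ f ≠ s(u, v))).map ⟨Sum.inl, Sum.inl_injective⟩

theorem sd2C_prod (G : SimpleGraph V) (x : Sym2 V → ℝ) (lam : ℝ) (u v : V) :
    ∏ i ∈ sd2C G u v, (1 - pr G x lam i) = Real.exp (-(oth G x u v)) := by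
  classical
  unfold sd2C oth
  rw [Finset.prod_map, ← Finset.sum_neg_distrib, Real.exp_sum]
  apply Finset.prod_congr rfl
  intro f hf
  simp [pr]

theorem sd2C_sub (G : SimpleGraph V) (u v : V) : sd2C G u v ⊆ gr G := by
  classical
  intro i hi
  unfold sd2C at hi
  rw [Finset.mem_map] at hi
  obtain ⟨f, hf, rfl⟩ := hi
  rw [Finset.mem_filter] at hf
  exact Finset.inl_mem_disjSum.mpr hf.1

theorem sd2_lf_iff (G : SimpleGraph V) (T : Finset (Idx V)) (u v : V) :
    lf G T u v ↔ Sum.inr (u, v) ∈ T ∧ Disjoint (sd2C G u v) T := by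
  classical
  unfold lf
  rw [Finset.disjoint_left]
  apply and_congr_right
  intro _
  constructor
  · intro h i hi hiT
    unfold sd2C at hi
    rw [Finset.mem_map] at hi
    obtain ⟨f, hf, rfl⟩ := hi
    rw [Finset.mem_filter] at hf
    exact hf.2.2 (h f hf.1 hiT hf.2.1)
  · intro h f hf hT hu
    by_contra hne
    refine h ?_ hT
    unfold sd2C
    rw [Finset.mem_map]
    exact ⟨f, Finset.mem_filter.mpr ⟨hf, hu, hne⟩, rfl⟩

theorem sd2C_inr (G : SimpleGraph V) (u v : V) (p : V × V) : Sum.inr p ∉ sd2C G u v := by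
  classical
  intro h
  unfold sd2C at h
  rw [Finset.mem_map] at h
  obtain ⟨f, _, hf⟩ := h
  simp at hf

theorem sd2C_inl (G : SimpleGraph V) (u v : V) : Sum.inl s(u, v) ∉ sd2C G u v := by
  classical
  intro h
  unfold sd2C at h
  rw [Finset.mem_map] at h
  obtain ⟨f, hf, hf'⟩ := h
  rw [Finset.mem_filter] at hf
  have : f = s(u, v) := Sum.inl_injective hf'
  exact hf.2.2 this

theorem sd2_gr_inr (G : SimpleGraph V) (p : V × V) : Sum.inr p ∈ gr G :=
  Finset.inr_mem_disjSum.mpr (Finset.mem_univ _)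

theorem sd2_gr_inl {G : SimpleGraph V} {e : Sym2 V} (he : e ∈ edges G) : Sum.inl e ∈ gr G :=
  Finset.inl_mem_disjSum.mpr he

theorem sd2_one_sub_exp_pos {t : ℝ} (ht : 0 < t) : 0 < 1 - Real.exp (-t) := by
  have : Real.exp (-t) < 1 := by
    rw [Real.exp_lt_one_iff]
    linarith
  linarith

open Classical in
/-- Job SD2. Probability of `lf u v`. Proof: `ev_pattern` with `B = {inr (u,v)}` and `C` the present
edges at `u` other than `s(u,v)`; `∏ exp (-(x f)) = exp (-(oth))`. -/
theorem ev_lf {G : SimpleGraph V} {x : Sym2 V → ℝ} {lam : ℝ} {u v : V} (huv : s(u, v) ∈ edges G)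
    (hx : 0 < x s(u, v)) :
    ev (gr G) (pr G x lam) (fun T => if lf G T u v then (1 : ℝ) else 0) =
      (1 - Real.exp (-(lam * x s(u, v)))) / (1 - Real.exp (-(x s(u, v)))) := by
  have h2 := ev_pattern (A := gr G) (B := {Sum.inr (u, v)}) (C := sd2C G u v)
    (by
      rw [Finset.singleton_subset_iff]
      exact sd2_gr_inr G _)
    (sd2C_sub G u v)
    (by
      rw [Finset.disjoint_singleton_left]
      exact sd2C_inr G u v _) (pr G x lam)
  rw [Finset.prod_singleton, sd2C_prod] at h2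
  refine (ev_congr ?_).trans (h2.trans ?_)
  · intro T _
    by_cases h : lf G T u v
    · have h' := (sd2_lf_iff G T u v).1 h
      rw [if_pos h, if_pos ⟨Finset.singleton_subset_iff.mpr h'.1, h'.2⟩]
    · rw [if_neg h, if_neg]
      rintro ⟨ha, hb⟩
      exact h ((sd2_lf_iff G T u v).2 ⟨Finset.singleton_subset_iff.mp ha, hb⟩)
  · have hp : pr G x lam (Sum.inr (u, v)) = (1 - Real.exp (-(lam * x s(u, v)))) /
          ((1 - Real.exp (-(x s(u, v)))) * Real.exp (-(oth G x u v))) := by
      simp only [pr]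
      rw [if_pos ⟨huv, hx⟩]
    rw [hp]
    have e1 := (sd2_one_sub_exp_pos hx).ne'
    have e2 := (Real.exp_pos (-(oth G x u v))).ne'
    field_simp

open Classical in
/-- Job SD2. Probability that `b` is an active leaf attached to `u`. -/
theorem ev_act {G : SimpleGraph V} {x : Sym2 V → ℝ} {lam : ℝ} {b u : V} (hbu : s(b, u) ∈ edges G)
    (hx : 0 ≤ x s(b, u)) :
    ev (gr G) (pr G x lam) (fun T => if act G T b u then (1 : ℝ) else 0) =
      1 - Real.exp (-(lam * x s(b, u))) := by
  have hne : (Sum.inl s(b, u) : Idx V) ∉ ({Sum.inr (b, u)} : Finset (Idx V)) := by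
    simp
  have h2 := ev_pattern (A := gr G) (B := insert (Sum.inl s(b, u)) {Sum.inr (b, u)})
    (C := sd2C G b u)
    (by
      rw [Finset.insert_subset_iff, Finset.singleton_subset_iff]
      exact ⟨sd2_gr_inl hbu, sd2_gr_inr G _⟩)
    (sd2C_sub G b u)
    (by
      rw [Finset.disjoint_insert_left, Finset.disjoint_singleton_left]
      exact ⟨sd2C_inl G b u, sd2C_inr G b u _⟩) (pr G x lam)
  rw [Finset.prod_insert hne, Finset.prod_singleton, sd2C_prod] at h2
  refine (ev_congr ?_).trans (h2.trans ?_)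
  · intro T _
    by_cases h : act G T b u
    · have h' := (sd2_lf_iff G T b u).1 h.2.2
      rw [if_pos h, if_pos]
      refine ⟨?_, h'.2⟩
      rw [Finset.insert_subset_iff, Finset.singleton_subset_iff]
      exact ⟨h.2.1, h'.1⟩
    · rw [if_neg h, if_neg]
      rintro ⟨ha, hb⟩
      rw [Finset.insert_subset_iff, Finset.singleton_subset_iff] at ha
      exact h ⟨hbu, ha.1, (sd2_lf_iff G T b u).2 ⟨ha.2, hb⟩⟩
  · rcases hx.lt_or_eq with hx | hx
    · have hp : pr G x lam (Sum.inr (b, u)) = (1 - Real.exp (-(lam * x s(b, u)))) /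
            ((1 - Real.exp (-(x s(b, u)))) * Real.exp (-(oth G x b u))) := by
        simp only [pr]
        rw [if_pos ⟨hbu, hx⟩]
      have hq : pr G x lam (Sum.inl s(b, u)) = 1 - Real.exp (-(x s(b, u))) := rfl
      rw [hp, hq]
      have e1 := (sd2_one_sub_exp_pos hx).ne'
      have e2 := (Real.exp_pos (-(oth G x b u))).ne'
      field_simp
    · have hq : pr G x lam (Sum.inl s(b, u)) = 1 - Real.exp (-(x s(b, u))) := rfl
      rw [hq, ← hx]
      simp

open Classical in
/-- Job SD2. Probability that the edge is present but `b` is not an active leaf. -/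
theorem ev_inact {G : SimpleGraph V} {x : Sym2 V → ℝ} {lam : ℝ} {b u : V} (hbu : s(b, u) ∈ edges G)
    (hx : 0 ≤ x s(b, u)) :
    ev (gr G) (pr G x lam)
      (fun T => if Sum.inl s(u, b) ∈ T ∧ ¬ act G T b u then (1 : ℝ) else 0) =
      Real.exp (-(lam * x s(b, u))) - Real.exp (-(x s(b, u))) := by
  have e := ev_sub (gr G) (pr G x lam) (fun T => if Sum.inl s(b, u) ∈ T then (1 : ℝ) else 0)
    (fun T => if act G T b u then (1 : ℝ) else 0)
  rw [ev_act hbu hx, ev_mem (sd2_gr_inl hbu)] at e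
  have hq : pr G x lam (Sum.inl s(b, u)) = 1 - Real.exp (-(x s(b, u))) := rfl
  rw [hq] at e
  refine (ev_congr ?_).trans (e.trans ?_)
  · intro T _
    have hs : s(u, b) = s(b, u) := Sym2.eq_swap
    by_cases h : act G T b u
    · rw [if_pos h, if_pos h.2.1, if_neg]
      · norm_num
      · rintro ⟨_, h'⟩
        exact h' h
    · by_cases h1 : Sum.inl s(b, u) ∈ T
      · rw [if_neg h, if_pos h1, if_pos ⟨hs ▸ h1, h⟩]
        norm_num
      · rw [if_neg h, if_neg h1, if_neg]
        · norm_num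
        · rintro ⟨h', _⟩
          exact h1 (hs ▸ h')
  · ring

open Classical in
/-- Job SD2. -/
theorem ev_absent {G : SimpleGraph V} {x : Sym2 V → ℝ} {lam : ℝ} {b u : V}
    (hbu : s(b, u) ∈ edges G) :
    ev (gr G) (pr G x lam) (fun T => if Sum.inl s(u, b) ∉ T then (1 : ℝ) else 0) =
      Real.exp (-(x s(b, u))) := by
  have e := ev_sub (gr G) (pr G x lam) (fun _ => (1 : ℝ))
    (fun T => if Sum.inl s(b, u) ∈ T then (1 : ℝ) else 0)
  rw [ev_const, ev_mem (sd2_gr_inl hbu)] at e
  have hq : pr G x lam (Sum.inl s(b, u)) = 1 - Real.exp (-(x s(b, u))) := rfl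
  rw [hq] at e
  refine (ev_congr ?_).trans (e.trans ?_)
  · intro T _
    have hs : s(u, b) = s(b, u) := Sym2.eq_swap
    by_cases h1 : Sum.inl s(b, u) ∈ T
    · rw [if_pos h1, if_neg]
      · norm_num
      · intro h'
        exact h' (hs ▸ h1)
    · rw [if_neg h1, if_pos]
      · norm_num
      · intro h'
        exact h1 (hs ▸ h')
  · ring

end Pool.Agent.Lib.MP_7470b6_lc.Crs
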