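import Pool.Agent.Lib.MP_7470b6_lc.Crs.CB1
import Pool.Agent.Lib.MP_7470b6_lc.Crs.SD2

/-!
# Job CB2
-/

open Finset

namespace Pool.Agent.Lib.MP_7470b6_lc.Crs

variable {V : Type} [Fintype V] [DecidableEq V]

private theorem cb2_nb {G : SimpleGraph V} {u v b : V} : b ∈ nb G u v ↔ b ≠ v ∧ s(u, b) ∈ edges G := by
  classical
  unfold nb
  rw [Finset.mem_filter]
  exact ⟨fun h => h.2, fun h => ⟨Finset.mem_univ _, h⟩⟩

/-- if `lf u v` holds then no other edge at `u` is present -/
private theorem cb2_cnt {G : SimpleGraph V} {T : Finset (Idx V)} {u v : V} (h : lf G T u v) :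
    cntA G T u v = 0 ∧ cntK G T u v = 0 := by
  classical
  have key : ∀ b ∈ nb G u v, (Sum.inl s(u, b) : Idx V) ∉ T := by
    intro b hb hT
    rw [cb2_nb] at hb
    have := h.2 s(u, b) hb.2 hT (Sym2.mem_mk_left u b)
    exact hb.1 (Sym2.congr_right.1 this)
  constructor
  · unfold cntA
    rw [Finset.card_eq_zero, Finset.filter_eq_empty_iff]
    intro b hb hact
    apply key b hb
    rw [Sym2.eq_swap]
    exact hact.2.1
  · unfold cntK
    rw [Finset.card_eq_zero, Finset.filter_eq_empty_iff]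
    exact key

open Classical in
/-- Job CB2. If `lf u v` holds then `cntA u v = cntK u v = 0`, so `fH = (...) - 1[lf]` when `h 0 = 1`; `ev_lf`. -/
theorem ev_fH {G : SimpleGraph V} {x : Sym2 V → ℝ} {lam : ℝ} {h : ℕ → ℝ} (hh : h 0 = 1) {u v : V}
    (huv : s(u, v) ∈ edges G) (hx : 0 < x s(u, v)) :
    ev (gr G) (pr G x lam) (fH G h u v) =
      ev (gr G) (pr G x lam) (fun T => if cntA G T u v = 0 then h (cntK G T u v) else 0) -
        eta lam (x s(u, v)) := by
  have h1 : ∀ T ⊆ gr G, fH G h u v T =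
      (if cntA G T u v = 0 then h (cntK G T u v) else 0) - (if lf G T u v then (1 : ℝ) else 0) := by
    intro T _
    unfold fH
    by_cases hl : lf G T u v
    · obtain ⟨hA, hK⟩ := cb2_cnt hl
      rw [if_pos hl, if_pos hA, hK, hh]
      ring
    · rw [if_neg hl]
      ring
  rw [ev_congr h1, ev_sub, ev_lf huv hx]
  rfl

private theorem cb2_side {G : SimpleGraph V} {u v : V} :
    (Sum.inl s(u, v) : Idx V) ∉ sideSet G u v := by
  classical
  unfold sideSet
  rw [Finset.mem_union, Finset.mem_biUnion]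
  rintro (h | ⟨b, hb, h⟩)
  · unfold stem at h
    rw [Finset.inl_mem_disjSum, Finset.mem_filter] at h
    exact h.2.2 rfl
  · unfold blk at h
    rw [Finset.inl_mem_disjSum, Finset.mem_filter, Sym2.mem_iff] at h
    rw [cb2_nb] at hb
    rcases h.2 with h2 | h2
    · have hadj : G.Adj u b := by
        have := hb.2
        unfold edges at this
        rw [Finset.mem_filter] at this
        exact this.2
      exact hadj.ne h2.symm
    · exact hb.1 h2

open Classical in
/-- Job CB2. Correlation inequality: `ev_harris` with `fH_depOn`, `fH_mono` (for both ends), and independence of the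
presence of the edge itself (`Sum.inl s(u,v)` is in neither side set). -/
theorem ev_both {G : SimpleGraph V} (hG : G.CliqueFree 3) {x : Sym2 V → ℝ} (hx : FM G x)
    {lam : ℝ} (hl0 : 0 ≤ lam) (hl1 : lam ≤ Real.exp (-1)) {h : ℕ → ℝ} (hh : ∀ k, 0 ≤ h k)
    {u v : V} (huv : s(u, v) ∈ edges G) :
    (1 - Real.exp (-(x s(u, v)))) *
        (ev (gr G) (pr G x lam) (fH G h u v) * ev (gr G) (pr G x lam) (fH G h v u)) ≤
      ev (gr G) (pr G x lam)
        (fun T => (if Sum.inl s(u, v) ∈ T then 1 else 0) * (fH G h u v T * fH G h v u T)) := by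
  have hgr : (Sum.inl s(u, v) : Idx V) ∈ gr G := by
    unfold gr
    rw [Finset.inl_mem_disjSum]
    exact huv
  have hvu : s(v, u) ∈ edges G := by
    rw [Sym2.eq_swap]
    exact huv
  have hd1 : DepOn (fun T : Finset (Idx V) => if (Sum.inl s(u, v) : Idx V) ∈ T then (1 : ℝ) else 0) {Sum.inl s(u, v)} := by
    intro T T' hTT
    have := Finset.ext_iff.1 hTT (Sum.inl s(u, v))
    rw [Finset.mem_inter, Finset.mem_inter] at this
    have h2 : (Sum.inl s(u, v) : Idx V) ∈ T ↔ (Sum.inl s(u, v) : Idx V) ∈ T' :=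
      ⟨fun h3 => (this.1 ⟨h3, Finset.mem_singleton_self _⟩).1, fun h3 => (this.2 ⟨h3, Finset.mem_singleton_self _⟩).1⟩
    simp only [h2]
  have hd2 : DepOn (fun T => fH G h u v T * fH G h v u T) (sideSet G u v ∪ sideSet G v u) :=
    depOn_mul ((fH_depOn G h u v).mono Finset.subset_union_left) ((fH_depOn G h v u).mono Finset.subset_union_right)
  have hdis : Disjoint ({Sum.inl s(u, v)} : Finset (Idx V)) (sideSet G u v ∪ sideSet G v u) := by
    rw [Finset.disjoint_singleton_left, Finset.mem_union]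
    rintro (h1 | h1)
    · exact cb2_side h1
    · rw [Sym2.eq_swap] at h1
      exact cb2_side h1
  rw [ev_indep hd1 hd2 hdis, ev_mem hgr]
  have hp := pr_mem hx hl0 hl1
  have hpe : pr G x lam (Sum.inl s(u, v)) = 1 - Real.exp (-(x s(u, v))) := rfl
  rw [hpe]
  apply mul_le_mul_of_nonneg_left _ (hpe ▸ (hp _ hgr).1)
  apply ev_harris hp (fH_depOn G h u v) (fH_depOn G h v u)
  · exact fH_mono hG hh huv
  · intro i hi
    rw [Finset.inter_comm] at hi
    exact fH_mono hG hh hvu i hi

/-- Job CB2. `exp (-(1-t)) - eta lam t` is nonnegative. -/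
theorem eta_le {lam t : ℝ} (hl0 : 0 ≤ lam) (hl1 : lam ≤ Real.exp (-1)) (ht0 : 0 < t) (ht1 : t ≤ 1) :
    0 ≤ eta lam t ∧ eta lam t ≤ Real.exp (-(1 - t)) := by
  have h1 : 0 < 1 - Real.exp (-t) := by
    have : Real.exp (-t) < 1 := by
      rw [← Real.exp_zero]
      exact Real.exp_lt_exp.2 (by linarith)
    linarith
  have h2 : 0 ≤ 1 - Real.exp (-(lam * t)) := by
    have : Real.exp (-(lam * t)) ≤ 1 := Real.exp_le_one_iff.2 (by nlinarith)
    linarith
  unfold eta
  refine ⟨div_nonneg h2 h1.le, ?_⟩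
  rw [div_le_iff₀ h1]
  have h3 : 1 - Real.exp (-(lam * t)) ≤ lam * t := by
    have := Real.add_one_le_exp (-(lam * t))
    linarith
  have h4 : lam * t ≤ Real.exp (-1) * t := mul_le_mul_of_nonneg_right hl1 ht0.le
  have h5 : Real.exp (-1) * t ≤ Real.exp (-1) * (Real.exp t - 1) := by
    apply mul_le_mul_of_nonneg_left _ (Real.exp_pos _).le
    have := Real.add_one_le_exp t
    linarith
  have h6 : Real.exp (-1) * (Real.exp t - 1) = Real.exp (-(1 - t)) * (1 - Real.exp (-t)) := by
    rw [mul_sub, mul_sub, ← Real.exp_add, ← Real.exp_add, mul_one, mul_one]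
    congr 1
    · congr 1
      ring
    · congr 1
      ring
  linarith

end Pool.Agent.Lib.MP_7470b6_lc.Crs
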