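import Pool.Agent.Lib.MP_7470b6_lc.Crs.SD2

/-!
# Job SD3
-/

open Finset

namespace Pool.Agent.Lib.MP_7470b6_lc.Crs

variable {V : Type} [Fintype V] [DecidableEq V]

private lemma sd3_mem_nb {G : SimpleGraph V} {u v b : V} (hb : b ∈ nb G u v) :
    s(b, u) ∈ edges G := by
  unfold nb at hb
  rw [Finset.mem_filter] at hb
  rw [Sym2.eq_swap]
  exact hb.2.2

private lemma sd3_act_iff {G : SimpleGraph V} {b u : V} {T T' : Finset (Idx V)}
    (h : T ∩ blk G b u = T' ∩ blk G b u) : act G T b u ↔ act G T' b u := by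
  classical
  have h1 := act_depOn G b u T T' h
  by_cases h2 : act G T b u <;> by_cases h3 : act G T' b u <;> simp [h2, h3] at h1 ⊢

private lemma sd3_pres_iff {G : SimpleGraph V} {b u : V} {T T' : Finset (Idx V)}
    (hb : s(b, u) ∈ edges G) (h : T ∩ blk G b u = T' ∩ blk G b u) :
    (Sum.inl s(u, b) ∈ T ↔ Sum.inl s(u, b) ∈ T') := by
  classical
  have hm : (Sum.inl s(u, b) : Idx V) ∈ blk G b u := by
    unfold blk
    rw [Finset.inl_mem_disjSum, Finset.mem_filter]
    refine ⟨?_, ?_⟩
    · rw [Sym2.eq_swap]; exact hb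
    · exact Sym2.mem_mk_right u b
  constructor
  · intro h1
    have h2 : (Sum.inl s(u, b) : Idx V) ∈ T ∩ blk G b u := Finset.mem_inter.2 ⟨h1, hm⟩
    rw [h] at h2
    exact (Finset.mem_inter.1 h2).1
  · intro h1
    have h2 : (Sum.inl s(u, b) : Idx V) ∈ T' ∩ blk G b u := Finset.mem_inter.2 ⟨h1, hm⟩
    rw [← h] at h2
    exact (Finset.mem_inter.1 h2).1

open Classical in
private lemma sd3_pow (G : SimpleGraph V) (u v : V) (t : ℝ) (T : Finset (Idx V)) :
    t ^ cntA G T u v = ∏ b ∈ nb G u v, (1 - (1 - t) * (if act G T b u then (1 : ℝ) else 0)) := by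
  have h1 : ∀ b ∈ nb G u v, (1 - (1 - t) * (if act G T b u then (1 : ℝ) else 0)) =
      if act G T b u then t else 1 := by
    intro b _
    by_cases h : act G T b u <;> simp [h]
  rw [Finset.prod_congr rfl h1, ← Finset.prod_filter, Finset.prod_const]
  unfold cntA
  congr!

/-- Job SD3. Distribution of the number of active leaves: generating function.
Proof: `t ^ cntA = ∏ b ∈ nb, (if act b u then t else 1)` and `ev_prod` with the blocks. -/
theorem ev_pow_cntA {G : SimpleGraph V} (hG : G.CliqueFree 3) {x : Sym2 V → ℝ} {lam : ℝ}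
    (hx : FM G x) (u v : V) (t : ℝ) :
    ev (gr G) (pr G x lam) (fun T => t ^ cntA G T u v) =
      ∏ b ∈ nb G u v, (1 - (1 - t) * (1 - Real.exp (-(lam * x s(b, u))))) := by
  classical
  have h0 : (fun T : Finset (Idx V) => t ^ cntA G T u v) =
      fun T => ∏ b ∈ nb G u v,
        (fun (b : V) (T : Finset (Idx V)) => (1 - (1 - t) * (if act G T b u then (1 : ℝ) else 0))) b T := by
    funext T
    exact sd3_pow G u v t T
  rw [h0, ev_prod (nb G u v) _ (fun b => blk G b u)]
  · refine Finset.prod_congr rfl fun b hb => ?_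
    have hbu := sd3_mem_nb hb
    rw [ev_sub, ev_const, ev_const_mul, ev_act hbu (hx.nonneg _ hbu)]
  · intro b _ T T' hTT
    have := act_depOn G b u T T' hTT
    simp only at this ⊢
    rw [this]
  · intro b hb c hc hbc
    exact blk_disjoint hG hb hc hbc

open Classical in
private lemma sd3_point (G : SimpleGraph V) (u v : V) (h : ℕ → ℝ) (T : Finset (Idx V)) :
    (if cntA G T u v = 0 then h (cntK G T u v) else 0) =
      ∑ B ∈ (nb G u v).powerset, h B.card *
        ∏ b ∈ nb G u v, (if b ∈ B then (if Sum.inl s(u, b) ∈ T ∧ ¬ act G T b u then (1 : ℝ) else 0)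
          else (if Sum.inl s(u, b) ∉ T then (1 : ℝ) else 0)) := by
  set K : Finset V := (nb G u v).filter (fun b => Sum.inl s(u, b) ∈ T) with hK
  have hKs : K ∈ (nb G u v).powerset := Finset.mem_powerset.2 (Finset.filter_subset _ _)
  rw [Finset.sum_eq_single K]
  · have hcK : cntK G T u v = K.card := by
      unfold cntK
      rw [hK]
    rw [hcK]
    by_cases hA : cntA G T u v = 0
    · rw [if_pos hA]
      unfold cntA at hA
      rw [Finset.card_eq_zero, Finset.filter_eq_empty_iff] at hA
      rw [Finset.prod_eq_one, mul_one]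
      intro b hb
      have h1 : ¬ act G T b u := hA hb
      by_cases h2 : Sum.inl s(u, b) ∈ T
      · have h3 : b ∈ K := Finset.mem_filter.2 ⟨hb, h2⟩
        rw [if_pos h3, if_pos ⟨h2, h1⟩]
      · have h3 : b ∉ K := fun h4 => h2 (Finset.mem_filter.1 h4).2
        rw [if_neg h3, if_pos h2]
    · rw [if_neg hA]
      unfold cntA at hA
      rw [Finset.card_eq_zero, Finset.filter_eq_empty_iff] at hA
      push Not at hA
      obtain ⟨b, hb, hact⟩ := hA
      have h2 : Sum.inl s(u, b) ∈ T := by
        have := hact.2.1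
        rw [Sym2.eq_swap] at this
        exact this
      have h3 : b ∈ K := Finset.mem_filter.2 ⟨hb, h2⟩
      rw [Finset.prod_eq_zero hb, mul_zero]
      rw [if_pos h3, if_neg]
      exact fun h4 => h4.2 hact
  · intro B hB hBK
    have hBs := Finset.mem_powerset.1 hB
    have h1 : ∃ b ∈ nb G u v, ¬ (b ∈ B ↔ b ∈ K) := by
      by_contra h2
      push Not at h2
      apply hBK
      ext b
      constructor
      · intro h3
        exact (h2 b (hBs h3)).1 h3
      · intro h3
        exact (h2 b (Finset.mem_filter.1 h3).1).2 h3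
    obtain ⟨b, hb, hbn⟩ := h1
    rw [Finset.prod_eq_zero hb, mul_zero]
    by_cases h2 : b ∈ B
    · have h3 : b ∉ K := fun h4 => hbn ⟨fun _ => h4, fun _ => h2⟩
      have h4 : Sum.inl s(u, b) ∉ T := fun h5 => h3 (Finset.mem_filter.2 ⟨hb, h5⟩)
      rw [if_pos h2, if_neg]
      exact fun h5 => h4 h5.1
    · have h3 : b ∈ K := by
        by_contra h4
        exact hbn ⟨fun h => absurd h h2, fun h => absurd h h4⟩
      have h4 : Sum.inl s(u, b) ∈ T := (Finset.mem_filter.1 h3).2
      rw [if_neg h2, if_neg]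
      exact fun h5 => h5 h4
  · intro h1
    exact absurd hKs h1

open Classical in
/-- Job SD3. Joint law of the inactive neighbours. Proof: if no active leaf is attached,
`h (cntK) = ∑ B ⊆ nb, h |B| ∏ b ∈ B, 1[present, not active] ∏ b ∈ nb \ B, 1[absent]` (exactly one `B`
contributes), and this is also correct (zero) if there is an active leaf. Then `ev_sum`, `ev_prod`. -/
theorem ev_side {G : SimpleGraph V} (hG : G.CliqueFree 3) {x : Sym2 V → ℝ} {lam : ℝ}
    (hx : FM G x) (u v : V) (h : ℕ → ℝ) :
    ev (gr G) (pr G x lam) (fun T => if cntA G T u v = 0 then h (cntK G T u v) else 0) =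
      ∑ B ∈ (nb G u v).powerset, (∏ b ∈ B, (Real.exp (-(lam * x s(b, u))) - Real.exp (-(x s(b, u))))) *
        (∏ b ∈ nb G u v \ B, Real.exp (-(x s(b, u)))) * h B.card := by
  have h0 : (fun T : Finset (Idx V) => if cntA G T u v = 0 then h (cntK G T u v) else 0) =
      fun T => ∑ B ∈ (nb G u v).powerset, (fun (B : Finset V) (T : Finset (Idx V)) => h B.card *
        ∏ b ∈ nb G u v, (fun (b : V) (T : Finset (Idx V)) =>
          (if b ∈ B then (if Sum.inl s(u, b) ∈ T ∧ ¬ act G T b u then (1 : ℝ) else 0)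
          else (if Sum.inl s(u, b) ∉ T then (1 : ℝ) else 0))) b T) B T := by
    funext T
    exact sd3_point G u v h T
  rw [h0, ev_sum]
  refine Finset.sum_congr rfl fun B hB => ?_
  have hBs := Finset.mem_powerset.1 hB
  rw [ev_const_mul, ev_prod (nb G u v) _ (fun b => blk G b u)]
  · rw [mul_comm, ← Finset.prod_sdiff hBs]
    congr 1
    rw [mul_comm]
    congr 1
    · refine Finset.prod_congr rfl fun b hb => ?_
      have hbu := sd3_mem_nb (hBs hb)
      simp only [if_pos hb]
      exact ev_inact hbu (hx.nonneg _ hbu)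
    · refine Finset.prod_congr rfl fun b hb => ?_
      have hb' := Finset.mem_sdiff.1 hb
      have hbu := sd3_mem_nb hb'.1
      simp only [if_neg hb'.2]
      exact ev_absent hbu
  · intro b hb T T' hTT
    have hbu := sd3_mem_nb hb
    have h1 := sd3_act_iff hTT
    have h2 := sd3_pres_iff hbu hTT
    simp only [h1, h2]
  · intro b hb c hc hbc
    exact blk_disjoint hG hb hc hbc

end Pool.Agent.Lib.MP_7470b6_lc.Crs
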