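import Mathlib

/-!
# Job SN1
-/

open Finset

namespace Pool.Agent.Lib.MP_7470b6_lc.Crs

theorem sn1_conv {x y a b : ℝ} (ha : 0 ≤ a) (hb : 0 ≤ b) (hab : a + b = 1) :
    Real.exp (a * x + b * y) ≤ a * Real.exp x + b * Real.exp y := by
  have h := convexOn_exp.2 (Set.mem_univ x) (Set.mem_univ y) ha hb hab
  simpa only [smul_eq_mul] using h

/-- Job SN1. Proof: by convexity of `exp`, `exp (-(lam w (1-t))) ≤ t + (1-t) exp (-(lam w))`, which is the
factor; multiply, and use `∑ w ≤ m`. -/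
theorem prod_ge {α : Type*} (N : Finset α) (w : α → ℝ) (hw : ∀ b ∈ N, 0 ≤ w b) {m lam t : ℝ}
    (hm : ∑ b ∈ N, w b ≤ m) (hl : 0 ≤ lam) (ht0 : 0 ≤ t) (ht1 : t ≤ 1) :
    Real.exp (-(lam * m * (1 - t))) ≤
      ∏ b ∈ N, (1 - (1 - t) * (1 - Real.exp (-(lam * w b)))) := by
  have h1 : ∏ b ∈ N, Real.exp (-(lam * w b * (1 - t))) ≤
      ∏ b ∈ N, (1 - (1 - t) * (1 - Real.exp (-(lam * w b)))) := by
    refine Finset.prod_le_prod (fun b _ => (Real.exp_pos _).le) fun b _ => ?_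
    have h := sn1_conv (x := 0) (y := -(lam * w b)) (a := t) (b := 1 - t) ht0 (by linarith)
      (by ring)
    rw [Real.exp_zero] at h
    have e : -(lam * w b * (1 - t)) = t * 0 + (1 - t) * -(lam * w b) := by ring
    rw [e]
    linarith
  refine le_trans ?_ h1
  rw [← Real.exp_sum]
  apply Real.exp_le_exp.2
  rw [Finset.sum_neg_distrib, neg_le_neg_iff]
  have e : ∑ b ∈ N, lam * w b * (1 - t) = lam * (1 - t) * ∑ b ∈ N, w b := by
    rw [Finset.mul_sum]
    exact Finset.sum_congr rfl fun b _ => by ring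
  rw [e]
  have h2 : 0 ≤ lam * (1 - t) := mul_nonneg hl (by linarith)
  nlinarith [mul_le_mul_of_nonneg_left hm h2]

/-- Job SN1. Proof: the sum is `∏ b ∈ N, (s (exp (-lam w) - exp (-w)) + exp (-w))` (`Finset.prod_add`), and
`s exp (-lam w) + (1-s) exp (-w) ≥ exp (-(s lam w + (1-s) w))` by convexity. -/
theorem side_pow {α : Type*} [DecidableEq α] (N : Finset α) (w : α → ℝ)
    (hw : ∀ b ∈ N, 0 ≤ w b) {m lam s : ℝ} (hm : ∑ b ∈ N, w b ≤ m) (hl0 : 0 ≤ lam) (hl1 : lam ≤ 1)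
    (hs0 : 0 ≤ s) (hs1 : s ≤ 1) :
    Real.exp (-(m * (1 - (1 - lam) * s))) ≤
      ∑ B ∈ N.powerset, (∏ b ∈ B, (Real.exp (-(lam * w b)) - Real.exp (-(w b)))) *
        (∏ b ∈ N \ B, Real.exp (-(w b))) * s ^ B.card := by
  have h0 : ∑ B ∈ N.powerset, (∏ b ∈ B, (Real.exp (-(lam * w b)) - Real.exp (-(w b)))) *
        (∏ b ∈ N \ B, Real.exp (-(w b))) * s ^ B.card =
      ∏ b ∈ N, (s * (Real.exp (-(lam * w b)) - Real.exp (-(w b))) + Real.exp (-(w b))) := by
    rw [Finset.prod_add]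
    refine Finset.sum_congr rfl fun B _ => ?_
    rw [Finset.prod_mul_distrib, Finset.prod_const]
    ring
  rw [h0]
  have h1 : ∏ b ∈ N, Real.exp (-(w b * (1 - (1 - lam) * s))) ≤
      ∏ b ∈ N, (s * (Real.exp (-(lam * w b)) - Real.exp (-(w b))) + Real.exp (-(w b))) := by
    refine Finset.prod_le_prod (fun b _ => (Real.exp_pos _).le) fun b _ => ?_
    have h := sn1_conv (x := -(lam * w b)) (y := -(w b)) (a := s) (b := 1 - s) hs0 (by linarith)
      (by ring)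
    have e : -(w b * (1 - (1 - lam) * s)) = s * -(lam * w b) + (1 - s) * -(w b) := by ring
    rw [e]
    linarith
  refine le_trans ?_ h1
  rw [← Real.exp_sum]
  apply Real.exp_le_exp.2
  rw [Finset.sum_neg_distrib, neg_le_neg_iff, ← Finset.sum_mul]
  refine mul_le_mul_of_nonneg_right hm ?_
  nlinarith [mul_nonneg (sub_nonneg.2 hl1) (sub_nonneg.2 hs1)]

end Pool.Agent.Lib.MP_7470b6_lc.Crs
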