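import Pool.Agent.Lib.MP_7470b6_lc.Crs.CB2
import Pool.Agent.Lib.MP_7470b6_lc.Crs.SD3
import Pool.Agent.Lib.MP_7470b6_lc.Crs.SN1

/-!
# Job CB3
-/

open Finset

namespace Pool.Agent.Lib.MP_7470b6_lc.Crs

variable {V : Type} [Fintype V] [DecidableEq V]

private theorem cb3_indep {A : Finset (Idx V)} {p : Idx V → ℝ} {f g k : Finset (Idx V) → ℝ} {B C D : Finset (Idx V)}
    (hf : DepOn f B) (hg : DepOn g C) (hk : DepOn k D) (hBC : Disjoint B C) (hBD : Disjoint B D) (hCD : Disjoint C D) :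
    ev A p (fun T => f T * (g T * k T)) = ev A p f * (ev A p g * ev A p k) := by
  have h1 : DepOn (fun T => g T * k T) (C ∪ D) :=
    depOn_mul (hg.mono Finset.subset_union_left) (hk.mono Finset.subset_union_right)
  have h2 : Disjoint B (C ∪ D) := Finset.disjoint_union_right.2 ⟨hBC, hBD⟩
  rw [ev_indep hf h1 h2, ev_indep hg hk hCD]

private theorem cb3_adj {G : SimpleGraph V} {u v : V} (h : s(u, v) ∈ edges G) : G.Adj u v := by
  classical
  unfold edges at h
  rw [Finset.mem_filter] at h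
  exact h.2

private theorem cb3_nb {G : SimpleGraph V} {u v b : V} : b ∈ nb G u v ↔ b ≠ v ∧ s(u, b) ∈ edges G := by
  classical
  unfold nb
  rw [Finset.mem_filter]
  exact ⟨fun h => h.2, fun h => ⟨Finset.mem_univ _, h⟩⟩

private theorem cb3_blk_inl {G : SimpleGraph V} {b u : V} {f : Sym2 V} :
    (Sum.inl f : Idx V) ∈ blk G b u ↔ f ∈ edges G ∧ b ∈ f := by
  classical
  unfold blk
  rw [Finset.inl_mem_disjSum, Finset.mem_filter]

private theorem cb3_blk_inr {G : SimpleGraph V} {b u : V} {c : V × V} :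
    (Sum.inr c : Idx V) ∈ blk G b u ↔ c = (b, u) := by
  classical
  unfold blk
  rw [Finset.inr_mem_disjSum, Finset.mem_singleton]

private theorem cb3_stem_inl {G : SimpleGraph V} {u v : V} {f : Sym2 V} :
    (Sum.inl f : Idx V) ∈ stem G u v ↔ f ∈ edges G ∧ u ∈ f ∧ f ≠ s(u, v) := by
  classical
  unfold stem
  rw [Finset.inl_mem_disjSum, Finset.mem_filter]

private theorem cb3_stem_inr {G : SimpleGraph V} {u v : V} {c : V × V} :
    (Sum.inr c : Idx V) ∈ stem G u v ↔ c = (u, v) := by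
  classical
  unfold stem
  rw [Finset.inr_mem_disjSum, Finset.mem_singleton]

open Classical in
/-- the presence of one index -/
private theorem cb3_depOn_mem (i : Idx V) : DepOn (fun T : Finset (Idx V) => if i ∈ T then (1 : ℝ) else 0) {i} := by
  intro T T' hTT
  have := Finset.ext_iff.1 hTT i
  rw [Finset.mem_inter, Finset.mem_inter] at this
  have h2 : i ∈ T ↔ i ∈ T' :=
    ⟨fun h3 => (this.1 ⟨h3, Finset.mem_singleton_self _⟩).1, fun h3 => (this.2 ⟨h3, Finset.mem_singleton_self _⟩).1⟩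
  simp only [h2]

/-- the number of active leaves depends on the blocks -/
private theorem cb3_depOn_cntA (G : SimpleGraph V) (u v : V) (φ : ℕ → ℝ) :
    DepOn (fun T => φ (cntA G T u v)) ((nb G u v).biUnion fun b => blk G b u) := by
  classical
  intro T T' hTT
  have hact : ∀ b ∈ nb G u v, (act G T b u ↔ act G T' b u) := by
    intro b hb
    have hsub : blk G b u ⊆ (nb G u v).biUnion fun b => blk G b u :=
      Finset.subset_biUnion_of_mem (fun b => blk G b u) hb
    have h1 : T ∩ blk G b u = T' ∩ blk G b u := by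
      ext i
      have := Finset.ext_iff.1 hTT i
      rw [Finset.mem_inter, Finset.mem_inter] at this ⊢
      constructor
      · rintro ⟨h1, h2⟩
        exact ⟨(this.1 ⟨h1, hsub h2⟩).1, h2⟩
      · rintro ⟨h1, h2⟩
        exact ⟨(this.2 ⟨h1, hsub h2⟩).1, h2⟩
    have h2 := act_depOn G b u T T' h1
    by_cases hp : act G T b u <;> by_cases hq : act G T' b u <;> simp_all
  have hA : cntA G T u v = cntA G T' u v := by
    unfold cntA
    congr 1
    exact Finset.filter_congr hact
  show φ (cntA G T u v) = φ (cntA G T' u v)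
  rw [hA]

private theorem cb3_edge_stem {G : SimpleGraph V} {u v : V} : Disjoint ({Sum.inl s(u, v)} : Finset (Idx V)) (stem G u v) := by
  rw [Finset.disjoint_singleton_left, cb3_stem_inl]
  exact fun h => h.2.2 rfl

private theorem cb3_edge_stem' {G : SimpleGraph V} {u v : V} : Disjoint ({Sum.inl s(u, v)} : Finset (Idx V)) (stem G v u) := by
  rw [Sym2.eq_swap]
  exact cb3_edge_stem

private theorem cb3_edge_blk {G : SimpleGraph V} {u v : V} :
    Disjoint ({Sum.inl s(u, v)} : Finset (Idx V)) ((nb G u v).biUnion fun b => blk G b u) := by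
  rw [Finset.disjoint_singleton_left, Finset.mem_biUnion]
  rintro ⟨b, hb, h⟩
  rw [cb3_blk_inl, Sym2.mem_iff] at h
  rw [cb3_nb] at hb
  rcases h.2 with h2 | h2
  · exact (cb3_adj hb.2).ne h2.symm
  · exact hb.1 h2

private theorem cb3_stem_stem {G : SimpleGraph V} {u v : V} (huv : s(u, v) ∈ edges G) : Disjoint (stem G u v) (stem G v u) := by
  have hne : u ≠ v := (cb3_adj huv).ne
  rw [Finset.disjoint_left]
  rintro (f | c) h1 h2
  · rw [cb3_stem_inl] at h1 h2
    exact h1.2.2 ((Sym2.mem_and_mem_iff hne).1 ⟨h1.2.1, h2.2.1⟩)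
  · rw [cb3_stem_inr] at h1 h2
    rw [h1, Prod.mk.injEq] at h2
    exact hne h2.1

private theorem cb3_stem_blk {G : SimpleGraph V} (hG : G.CliqueFree 3) {u v : V} (huv : s(u, v) ∈ edges G) :
    Disjoint (stem G v u) ((nb G u v).biUnion fun b => blk G b u) := by
  classical
  have hadj := cb3_adj huv
  rw [Finset.disjoint_left]
  intro i h1 h2
  rw [Finset.mem_biUnion] at h2
  obtain ⟨b, hb, h2⟩ := h2
  rw [cb3_nb] at hb
  rcases i with f | c
  · rw [cb3_stem_inl] at h1
    rw [cb3_blk_inl] at h2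
    have hf := (Sym2.mem_and_mem_iff hb.1.symm).1 ⟨h1.2.1, h2.2⟩
    rw [hf] at h1
    exact hG {u, v, b} (SimpleGraph.is3Clique_triple_iff.2 ⟨hadj, cb3_adj hb.2, cb3_adj h1.1⟩)
  · rw [cb3_stem_inr] at h1
    rw [cb3_blk_inr] at h2
    rw [h1, Prod.mk.injEq] at h2
    exact hb.1 h2.1.symm

private theorem cb3_gr {G : SimpleGraph V} {u v : V} (huv : s(u, v) ∈ edges G) : (Sum.inl s(u, v) : Idx V) ∈ gr G := by
  unfold gr
  rw [Finset.inl_mem_disjSum]
  exact huv

/-- the expectation of `1 / (1 + cntA)` -/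
private theorem cb3_inv {G : SimpleGraph V} (hG : G.CliqueFree 3) {x : Sym2 V → ℝ} (hx : FM G x)
    {lam : ℝ} (hl0 : 0 ≤ lam) {u v : V} (huv : s(u, v) ∈ edges G) :
    (∫ t in (0 : ℝ)..1, Real.exp (-(lam * (1 - x s(u, v)) * t))) ≤
      ev (gr G) (pr G x lam) (fun T => 1 / (1 + (cntA G T u v : ℝ))) := by
  classical
  have h1 : ev (gr G) (pr G x lam) (fun T => 1 / (1 + (cntA G T u v : ℝ))) =
      ∫ t in (0 : ℝ)..1, ev (gr G) (pr G x lam) (fun T => t ^ cntA G T u v) := by
    unfold ev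
    rw [intervalIntegral.integral_finsetSum]
    · refine Finset.sum_congr rfl fun T _ => ?_
      rw [intervalIntegral.integral_const_mul, integral_pow]
      congr 1
      rw [one_pow, zero_pow (Nat.succ_ne_zero _), sub_zero]
      show 1 / (1 + (cntA G T u v : ℝ)) = 1 / ((cntA G T u v : ℝ) + 1)
      rw [add_comm]
    · intro T _
      exact (Continuous.intervalIntegrable (by fun_prop) _ _)
  have h2 : (∫ t in (0 : ℝ)..1, Real.exp (-(lam * (1 - x s(u, v)) * t))) =
      ∫ t in (0 : ℝ)..1, Real.exp (-(lam * (1 - x s(u, v)) * (1 - t))) := by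
    have := intervalIntegral.integral_comp_sub_left (a := 0) (b := 1) (fun t : ℝ => Real.exp (-(lam * (1 - x s(u, v)) * t))) 1
    rw [this]
    norm_num
  rw [h1, h2]
  apply intervalIntegral.integral_mono_on (by norm_num)
  · exact (Continuous.intervalIntegrable (by fun_prop) _ _)
  · apply Continuous.intervalIntegrable
    unfold ev
    fun_prop
  · intro t ht
    rw [ev_pow_cntA hG hx]
    apply prod_ge _ _ _ _ hl0 ht.1 ht.2
    · intro b hb
      apply hx.nonneg
      rw [Sym2.eq_swap]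
      exact (cb3_nb.1 hb).2
    · rw [sum_nb huv]
      have := hx.vertex u v huv
      linarith

open Classical in
/-- Job CB3. `lf v u`, `cntA u v` and the presence of the edge are independent (triangle free: the edges at `v` are in no
block of `b ∈ nb u v`); `1/(1+k) = ∫ t in 0..1, t^k`, `ev_pow_cntA` and `prod_ge`
(with `∑ b ∈ nb, x s(b,u) = oth ≤ 1 - x s(u,v)`). -/
theorem ev_leaf {G : SimpleGraph V} (hG : G.CliqueFree 3) {x : Sym2 V → ℝ} (hx : FM G x)
    {lam : ℝ} (hl0 : 0 ≤ lam) (hl1 : lam ≤ Real.exp (-1))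
    {u v : V} (huv : s(u, v) ∈ edges G) (hxe : 0 < x s(u, v)) :
    (1 - Real.exp (-(x s(u, v)))) * eta lam (x s(u, v)) *
        (∫ t in (0 : ℝ)..1, Real.exp (-(lam * (1 - x s(u, v)) * t))) ≤
      ev (gr G) (pr G x lam) (fun T => (if Sum.inl s(u, v) ∈ T then 1 else 0) *
        (if lf G T v u then 1 / (1 + (cntA G T u v : ℝ)) else 0)) := by
  have hvu : s(v, u) ∈ edges G := by
    rw [Sym2.eq_swap]
    exact huv
  have hxvu : x s(v, u) = x s(u, v) := by rw [Sym2.eq_swap]
  have hx1 : x s(u, v) ≤ 1 := by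
    have h1 := hx.vertex u v huv
    have h2 : 0 ≤ oth G x u v := by
      unfold oth
      apply Finset.sum_nonneg
      intro f hf
      exact hx.nonneg f (Finset.mem_filter.1 hf).1
    linarith
  have h0 : (fun T : Finset (Idx V) => (if (Sum.inl s(u, v) : Idx V) ∈ T then (1 : ℝ) else 0) *
        (if lf G T v u then 1 / (1 + (cntA G T u v : ℝ)) else 0)) =
      fun T => (if (Sum.inl s(u, v) : Idx V) ∈ T then (1 : ℝ) else 0) *
        ((if lf G T v u then (1 : ℝ) else 0) * (1 / (1 + (cntA G T u v : ℝ)))) := by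
    funext T
    congr 1
    split_ifs
    · rw [one_mul]
    · rw [zero_mul]
  rw [h0]
  have h1 := cb3_indep (A := gr G) (p := pr G x lam) (cb3_depOn_mem (Sum.inl s(u, v) : Idx V)) (lf_depOn G v u)
    (cb3_depOn_cntA G u v (fun k => 1 / (1 + (k : ℝ)))) cb3_edge_stem' cb3_edge_blk (cb3_stem_blk hG huv)
  rw [h1, ev_mem (cb3_gr huv), ev_lf hvu (by rw [hxvu]; exact hxe), hxvu]
  have hpe : pr G x lam (Sum.inl s(u, v)) = 1 - Real.exp (-(x s(u, v))) := rfl
  rw [hpe]
  have heta : (1 - Real.exp (-(lam * x s(u, v)))) / (1 - Real.exp (-(x s(u, v)))) = eta lam (x s(u, v)) := rfl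
  rw [heta, mul_assoc]
  apply mul_le_mul_of_nonneg_left
  · apply mul_le_mul_of_nonneg_left (cb3_inv hG hx hl0 huv)
    exact (eta_le hl0 hl1 hxe hx1).1
  · have : Real.exp (-(x s(u, v))) ≤ 1 := Real.exp_le_one_iff.2 (by linarith)
    linarith

open Classical in
/-- Job CB3. -/
theorem ev_leaf_both {G : SimpleGraph V} {x : Sym2 V → ℝ} {lam : ℝ}
    {u v : V} (huv : s(u, v) ∈ edges G) (hxe : 0 < x s(u, v)) :
    ev (gr G) (pr G x lam) (fun T => (if Sum.inl s(u, v) ∈ T then 1 else 0) *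
        (if lf G T u v ∧ lf G T v u then 1 else 0)) =
      (1 - Real.exp (-(x s(u, v)))) * eta lam (x s(u, v)) ^ 2 := by
  have hvu : s(v, u) ∈ edges G := by
    rw [Sym2.eq_swap]
    exact huv
  have hxvu : x s(v, u) = x s(u, v) := by rw [Sym2.eq_swap]
  have h0 : (fun T : Finset (Idx V) => (if (Sum.inl s(u, v) : Idx V) ∈ T then (1 : ℝ) else 0) *
        (if lf G T u v ∧ lf G T v u then (1 : ℝ) else 0)) =
      fun T => (if (Sum.inl s(u, v) : Idx V) ∈ T then (1 : ℝ) else 0) *
        ((if lf G T u v then (1 : ℝ) else 0) * (if lf G T v u then (1 : ℝ) else 0)) := by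
    funext T
    congr 1
    by_cases h1 : lf G T u v <;> by_cases h2 : lf G T v u <;> simp [h1, h2]
  rw [h0]
  have h1 := cb3_indep (A := gr G) (p := pr G x lam) (cb3_depOn_mem (Sum.inl s(u, v) : Idx V)) (lf_depOn G u v)
    (lf_depOn G v u) cb3_edge_stem cb3_edge_stem' (cb3_stem_stem huv)
  rw [h1, ev_mem (cb3_gr huv), ev_lf huv hxe, ev_lf hvu (by rw [hxvu]; exact hxe), hxvu]
  have hpe : pr G x lam (Sum.inl s(u, v)) = 1 - Real.exp (-(x s(u, v))) := rfl
  rw [hpe]
  unfold eta
  ring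

end Pool.Agent.Lib.MP_7470b6_lc.Crs
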