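import Mathlib

/-!
# Job CW
-/

open Finset

namespace Pool.Agent.Lib.MP_7470b6_lc.Crs

open Classical in
private theorem cw_nonneg {α : Type} (P : Finset α → Prop) (z : α → ℝ)
    (hz : z ∈ convexHull ℝ {y : α → ℝ | ∃ M : Finset α, P M ∧
        y = fun e => if e ∈ M then (1 : ℝ) else 0}) (e : α) : 0 ≤ z e := by
  have hconv : Convex ℝ {y : α → ℝ | 0 ≤ y e} := by
    intro x hx y hy a b ha hb hab
    simp only [Set.mem_ofPred_eq] at hx hy ⊢
    have h1 : (a • x + b • y) e = a * x e + b * y e := by
      simp [Pi.add_apply, Pi.smul_apply, smul_eq_mul]
    rw [h1]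
    positivity
  have hsub : {y : α → ℝ | ∃ M : Finset α, P M ∧
        y = fun e => if e ∈ M then (1 : ℝ) else 0} ⊆ {y : α → ℝ | 0 ≤ y e} := by
    rintro y ⟨M, -, rfl⟩
    simp only [Set.mem_ofPred_eq]
    split_ifs <;> norm_num
  exact convexHull_min hsub hconv hz

open Classical in
/-- Job CW. Caro-Wei theorem in distributional form, for an abstract conflict relation.
Proof: strong induction on the number of elements of `F`; the case `F = ∅` is trivial (`y = 0`).
For `v ∈ F` let `F_v` be the set of the `f ∈ F` with `f ≠ v` and not in conflict with `v`, let `z_v`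
be the vector given by induction for `F_v`, and `y_v = z_v + indicator of v` (which is in the convex
hull for `F`: the set of `y` such that `y + indicator {v}` lies in the hull is convex and contains the
indicators of conflict-free subsets of `F_v`; also `z_v v = 0`). Take the average `z` of the `y_v`,
`v ∈ F`. With `n = |F|` and `d` the number of conflicts of `e` in `F`: the `n - 1 - d` elements `v`
without conflict with `e` contribute at least `1/(1+d)` each, `v = e` contributes `1`:
`z e ≥ (1 + (n-1-d)/(1+d))/n = 1/(1+d)`. -/
theorem caroWei {α : Type} (r : α → α → Prop) (hr : ∀ a b, r a b → r b a) (F : Finset α) :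
    ∃ z : α → ℝ,
      z ∈ convexHull ℝ {y : α → ℝ | ∃ M : Finset α, M ⊆ F ∧ (∀ e ∈ M, ∀ f ∈ M, r e f → e = f) ∧
        y = fun e => if e ∈ M then (1 : ℝ) else 0} ∧
      ∀ e ∈ F, 1 / (1 + ((F.filter (fun f => f ≠ e ∧ r e f)).card : ℝ)) ≤ z e := by
  induction F using Finset.strongInduction with
  | H F ih =>
    rcases F.eq_empty_or_nonempty with hF | hF
    · subst hF
      refine ⟨fun _ => 0, subset_convexHull ℝ _ ⟨∅, subset_rfl, ?_, ?_⟩, ?_⟩
      · simp
      · simp
      · simp
    · have hstep : ∀ v ∈ F, ∃ z : α → ℝ,
          z ∈ convexHull ℝ {y : α → ℝ | ∃ M : Finset α,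
            M ⊆ F.filter (fun f => f ≠ v ∧ ¬ r v f) ∧ (∀ e ∈ M, ∀ f ∈ M, r e f → e = f) ∧
            y = fun e => if e ∈ M then (1 : ℝ) else 0} ∧
          ∀ e ∈ F.filter (fun f => f ≠ v ∧ ¬ r v f),
            1 / (1 + (((F.filter (fun f => f ≠ v ∧ ¬ r v f)).filter
              (fun f => f ≠ e ∧ r e f)).card : ℝ)) ≤ z e := by
        intro v hv
        apply ih
        refine ⟨Finset.filter_subset _ _, fun hsub => ?_⟩
        have := hsub hv
        simp at this
      choose! zz hz1 hz2 using hstep
      have hn : (0 : ℝ) < (F.card : ℝ) := by exact_mod_cast hF.card_pos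
      have hmem : ∀ v ∈ F, (zz v + fun e => if e = v then (1 : ℝ) else 0) ∈
          convexHull ℝ {y : α → ℝ | ∃ M : Finset α, M ⊆ F ∧
            (∀ e ∈ M, ∀ f ∈ M, r e f → e = f) ∧ y = fun e => if e ∈ M then (1 : ℝ) else 0} := by
        intro v hv
        have hconv : Convex ℝ {y : α → ℝ | (y + fun e => if e = v then (1 : ℝ) else 0) ∈
            convexHull ℝ {y : α → ℝ | ∃ M : Finset α, M ⊆ F ∧
            (∀ e ∈ M, ∀ f ∈ M, r e f → e = f) ∧
            y = fun e => if e ∈ M then (1 : ℝ) else 0}} := by
          intro x hx y hy a b ha hb hab
          simp only [Set.mem_ofPred_eq] at hx hy ⊢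
          have h1 := (convex_convexHull ℝ _) hx hy ha hb hab
          convert h1 using 1
          ext e
          simp only [Pi.add_apply, Pi.smul_apply, smul_eq_mul]
          split_ifs
          · linear_combination (-1 : ℝ) * hab
          · ring
        refine (convexHull_min ?_ hconv) (hz1 v hv)
        rintro y ⟨M, hM, hfree, rfl⟩
        simp only [Set.mem_ofPred_eq]
        apply subset_convexHull
        have hvM : ∀ f ∈ M, f ∈ F ∧ f ≠ v ∧ ¬ r v f := fun f hf => by
          have := hM hf
          simpa using this
        refine ⟨insert v M, ?_, ?_, ?_⟩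
        · intro f hf
          rcases Finset.mem_insert.1 hf with h | h
          · rw [h]; exact hv
          · exact (hvM f h).1
        · intro e he f hf hef
          rcases Finset.mem_insert.1 he with h | h
          · rcases Finset.mem_insert.1 hf with h' | h'
            · rw [h, h']
            · rw [h] at hef
              exact absurd hef (hvM f h').2.2
          · rcases Finset.mem_insert.1 hf with h' | h'
            · rw [h'] at hef
              exact absurd (hr _ _ hef) (hvM e h).2.2
            · exact hfree e h f h' hef
        · funext e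
          simp only [Pi.add_apply, Finset.mem_insert]
          by_cases hev : e = v
          · have : v ∉ M := fun h => (hvM v h).2.1 rfl
            subst hev
            simp [this]
          · simp [hev]
      refine ⟨∑ v ∈ F, (1 / (F.card : ℝ)) • (zz v + fun e => if e = v then (1 : ℝ) else 0), ?_, ?_⟩
      · apply (convex_convexHull ℝ _).sum_mem
        · intro v hv
          positivity
        · rw [Finset.sum_const, nsmul_eq_mul]
          field_simp
        · exact hmem
      · intro e he
        have hval : (∑ v ∈ F, (1 / (F.card : ℝ)) •
            (zz v + fun e => if e = v then (1 : ℝ) else 0)) e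
            = (1 / (F.card : ℝ)) * (∑ v ∈ F, zz v e + 1) := by
          rw [Finset.sum_apply, mul_add, Finset.mul_sum]
          simp only [Pi.smul_apply, Pi.add_apply, smul_eq_mul, mul_add]
          rw [Finset.sum_add_distrib]
          congr 1
          rw [← Finset.mul_sum, Finset.sum_ite_eq]
          simp [he]
        rw [hval]
        set d : ℝ := ((F.filter (fun f => f ≠ e ∧ r e f)).card : ℝ) with hd
        have hd0 : 0 ≤ d := Nat.cast_nonneg _
        have hnn : ∀ v ∈ F, 0 ≤ zz v e := by
          intro v hv
          refine cw_nonneg (fun M => M ⊆ F.filter (fun f => f ≠ v ∧ ¬ r v f) ∧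
            (∀ e ∈ M, ∀ f ∈ M, r e f → e = f)) (zz v) ?_ e
          convert hz1 v hv using 3
          ext y
          simp [and_assoc]
        have hcard : ((F.filter (fun f => f ≠ e ∧ ¬ r e f)).card : ℝ) = F.card - 1 - d := by
          have h1 : F.filter (fun f => f ≠ e) = F.filter (fun f => f ≠ e ∧ r e f) ∪
              F.filter (fun f => f ≠ e ∧ ¬ r e f) := by
            ext f
            simp only [Finset.mem_filter, Finset.mem_union]
            tauto
          have h2 : Disjoint (F.filter (fun f => f ≠ e ∧ r e f))
              (F.filter (fun f => f ≠ e ∧ ¬ r e f)) := by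
            rw [Finset.disjoint_left]
            intro f hf hf'
            simp only [Finset.mem_filter] at hf hf'
            exact hf'.2.2 hf.2.2
          have h3 : (F.filter (fun f => f ≠ e)).card + 1 = F.card := by
            rw [Finset.filter_ne', Finset.card_erase_add_one he]
          rw [h1, Finset.card_union_of_disjoint h2] at h3
          have h4 : (((F.filter (fun f => f ≠ e ∧ r e f)).card +
            (F.filter (fun f => f ≠ e ∧ ¬ r e f)).card + 1 : ℕ) : ℝ) = (F.card : ℝ) := by
            rw [h3]
          push_cast at h4
          rw [hd]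
          linarith
        have hsum : (F.card - 1 - d) * (1 / (1 + d)) ≤ ∑ v ∈ F, zz v e := by
          calc (F.card - 1 - d) * (1 / (1 + d))
              = ∑ v ∈ F.filter (fun f => f ≠ e ∧ ¬ r e f), 1 / (1 + d) := by
                rw [Finset.sum_const, nsmul_eq_mul, hcard]
            _ ≤ ∑ v ∈ F.filter (fun f => f ≠ e ∧ ¬ r e f), zz v e := by
                apply Finset.sum_le_sum
                intro v hv
                simp only [Finset.mem_filter] at hv
                have heFv : e ∈ F.filter (fun f => f ≠ v ∧ ¬ r v f) := by
                  simp only [Finset.mem_filter]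
                  exact ⟨he, fun h => hv.2.1 h.symm, fun h => hv.2.2 (hr _ _ h)⟩
                refine le_trans ?_ (hz2 v hv.1 e heFv)
                apply one_div_le_one_div_of_le
                · positivity
                · have : (((F.filter (fun f => f ≠ v ∧ ¬ r v f)).filter
                      (fun f => f ≠ e ∧ r e f)).card : ℝ) ≤ d := by
                    rw [hd]
                    exact_mod_cast Finset.card_le_card
                      (Finset.filter_subset_filter _ (Finset.filter_subset _ _))
                  linarith
            _ ≤ ∑ v ∈ F, zz v e := by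
                apply Finset.sum_le_sum_of_subset_of_nonneg (Finset.filter_subset _ _)
                intro v hv _
                exact hnn v hv
        have hfin : 1 / (1 + d) = (1 / (F.card : ℝ)) * ((F.card - 1 - d) * (1 / (1 + d)) + 1) := by
          have : (1 + d) ≠ 0 := by positivity
          field_simp
          ring
        rw [hfin]
        apply mul_le_mul_of_nonneg_left _ (by positivity)
        linarith

end Pool.Agent.Lib.MP_7470b6_lc.Crs
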