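import Pool.Agent.Lib.MP_7470b6_lc.Crs.CW
import Pool.Agent.Lib.MP_7470b6_lc.Crs.POL

/-!
# Job CWM
-/

open Finset

namespace Pool.Agent.Lib.MP_7470b6_lc.Crs

open Classical in
private lemma cwm_card {V : Type} (F : Finset (Sym2 V)) (u v : V) (he : s(u, v) ∈ F) :
    (F.filter (fun f => f ≠ s(u, v) ∧ ∃ w, w ∈ s(u, v) ∧ w ∈ f)).card + 2 ≤ dg F u + dg F v := by
  have hsub : F.filter (fun f => f ≠ s(u, v) ∧ ∃ w, w ∈ s(u, v) ∧ w ∈ f) ⊆
      ((F.filter (fun e => u ∈ e)).erase s(u, v)) ∪ ((F.filter (fun e => v ∈ e)).erase s(u, v)) := by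
    intro f hf
    rw [Finset.mem_filter] at hf
    obtain ⟨hfF, hne, w, hw, hwf⟩ := hf
    rw [Finset.mem_union, Finset.mem_erase, Finset.mem_erase, Finset.mem_filter, Finset.mem_filter]
    rcases Sym2.mem_iff.1 hw with rfl | rfl
    · left; exact ⟨hne, hfF, hwf⟩
    · right; exact ⟨hne, hfF, hwf⟩
  have h1 := (Finset.card_le_card hsub).trans (Finset.card_union_le _ _)
  have hu : s(u, v) ∈ F.filter (fun e => u ∈ e) :=
    Finset.mem_filter.2 ⟨he, Sym2.mem_mk_left u v⟩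
  have hv : s(u, v) ∈ F.filter (fun e => v ∈ e) :=
    Finset.mem_filter.2 ⟨he, Sym2.mem_mk_right u v⟩
  have hu1 := Finset.card_erase_add_one hu
  have hv1 := Finset.card_erase_add_one hv
  unfold dg
  omega

/-- Job CWM. `caroWei` for the relation of sharing a vertex: for `e = s(u,v)` the number of
conflicts is at most `(dg F u - 1) + (dg F v - 1)`. -/
theorem exists_caroWei {V : Type} (F : Finset (Sym2 V)) :
    ∃ z ∈ PF F, ∀ u v : V, s(u, v) ∈ F →
      1 / ((dg F u : ℝ) + dg F v - 1) ≤ z s(u, v) := by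
  classical
  obtain ⟨z, hz, hz'⟩ := caroWei (fun e f : Sym2 V => ∃ w, w ∈ e ∧ w ∈ f)
    (fun a b ⟨w, h1, h2⟩ => ⟨w, h2, h1⟩) F
  refine ⟨z, ?_, ?_⟩
  · refine convexHull_mono ?_ hz
    rintro y ⟨M, hM, hM', rfl⟩
    refine ⟨M, hM, fun e he f hf v hv hv' => hM' e he f hf ⟨v, hv, hv'⟩, ?_⟩
    funext e
    unfold chi
    congr
  · intro u v he
    refine le_trans ?_ (hz' _ he)
    have hc := cwm_card F u v he
    have key : ∀ n : ℕ, n + 2 ≤ dg F u + dg F v → 1 + (n : ℝ) ≤ (dg F u : ℝ) + dg F v - 1 := by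
      intro n hn
      have : (n : ℝ) + 2 ≤ (dg F u : ℝ) + dg F v := by exact_mod_cast hn
      linarith
    apply one_div_le_one_div_of_le
    · positivity
    · apply key
      convert hc

end Pool.Agent.Lib.MP_7470b6_lc.Crs
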