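import Pool.Agent.Lib.MP_7470b6_lc.Crs.SideD

/-!
# The two ends of an edge
-/

open Finset

namespace Pool.Agent.Lib.MP_7470b6_lc.Crs

variable {V : Type} [Fintype V] [DecidableEq V]

open Classical in
/-- The end `u` of the edge `s(u,v)`: `lf u v` fails, no active leaf is attached to `u`; weight `h` of the number of
other present edges at `u`. -/
noncomputable def fH (G : SimpleGraph V) (h : ℕ → ℝ) (u v : V) (T : Finset (Idx V)) : ℝ :=
  (1 - if lf G T u v then 1 else 0) * (if cntA G T u v = 0 then h (cntK G T u v) else 0)

/-- The indices on which `fH u v` depends. -/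
noncomputable def sideSet (G : SimpleGraph V) (u v : V) : Finset (Idx V) :=
  stem G u v ∪ (nb G u v).biUnion (fun b => blk G b u)

/-- The probability of `lf`. -/
noncomputable def eta (lam t : ℝ) : ℝ := (1 - Real.exp (-(lam * t))) / (1 - Real.exp (-t))

end Pool.Agent.Lib.MP_7470b6_lc.Crs
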