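import Pool.Agent.Lib.MP_7470b6_lc.Crs.PolyD
import Pool.Agent.Lib.MP_7470b6_lc.Crs.POL

/-!
# Job DIS
-/

open Finset

namespace Pool.Agent.Lib.MP_7470b6_lc.Crs

open Classical in
/-- The distribution for one set `S`. -/
private theorem DIS_one {V : Type} {A S : Finset (Sym2 V)} (hS : S ⊆ A) {z : Sym2 V → ℝ}
    (hz : z ∈ PF S) :
    ∃ m : Finset (Sym2 V) → ℝ, (∀ M, 0 ≤ m M) ∧ (∑ M ∈ A.powerset, m M = 1) ∧
      (∀ M, m M ≠ 0 → M ⊆ S ∧ IsMatch M) ∧
      ∀ e, (∑ M ∈ A.powerset, if e ∈ M then m M else 0) = z e := by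
  obtain ⟨ι, hι, w, y, hw, hw1, hy, hs⟩ := mem_convexHull_iff_exists_fintype.1 hz
  choose N hN1 hN2 hN3 using hy
  refine ⟨fun M => ∑ i, if N i = M then w i else 0, fun M => ?_, ?_, fun M hM => ?_, fun e => ?_⟩
  · refine Finset.sum_nonneg fun i _ => ?_
    split_ifs
    · exact hw i
    · exact le_rfl
  · rw [Finset.sum_comm, ← hw1]
    refine Finset.sum_congr rfl fun i _ => ?_
    rw [Finset.sum_ite_eq, if_pos (Finset.mem_powerset.2 ((hN1 i).trans hS))]
  · obtain ⟨i, -, hi⟩ := Finset.exists_ne_zero_of_sum_ne_zero hM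
    by_cases h : N i = M
    · rw [← h]
      exact ⟨hN1 i, hN2 i⟩
    · rw [if_neg h] at hi
      exact absurd rfl hi
  · have h1 : ∀ M ∈ A.powerset, (if e ∈ M then (∑ i, if N i = M then w i else 0) else 0) =
        ∑ i, if N i = M then (if e ∈ M then w i else 0) else 0 := by
      intro M _
      by_cases h : e ∈ M
      · simp only [if_pos h]
      · simp only [if_neg h, ite_self, Finset.sum_const_zero]
    rw [Finset.sum_congr rfl h1, Finset.sum_comm, ← hs, Finset.sum_apply]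
    refine Finset.sum_congr rfl fun i _ => ?_
    rw [Finset.sum_ite_eq, if_pos (Finset.mem_powerset.2 ((hN1 i).trans hS)), Pi.smul_apply, hN3 i,
      smul_eq_mul]
    unfold chi
    by_cases h : e ∈ N i
    · rw [if_pos h, if_pos h, mul_one]
    · rw [if_neg h, if_neg h, mul_zero]

open Classical in
/-- Job DIS. From marginals to a scheme. Proof: for `S ⊆ edges G` write `Z S` as a convex combination
`∑ i, w i • chi (M i)` with matchings `M i ⊆ S` (`mem_convexHull_iff_exists_fintype`), and put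
`μ S M = ∑ i with M i = M, w i`. -/
theorem exists_scheme {V : Type} [Fintype V] {G : SimpleGraph V}
    {Z : Finset (Sym2 V) → Sym2 V → ℝ} (hZ : ∀ S ⊆ edges G, Z S ∈ PF S) :
    ∃ μ, IsScheme G μ ∧ ∀ S ⊆ edges G, ∀ e,
      (∑ M ∈ (edges G).powerset, if e ∈ M then μ S M else 0) = Z S e := by
  have h1 : ∀ S : Finset (Sym2 V), ∃ m : Finset (Sym2 V) → ℝ, S ⊆ edges G → (∀ M, 0 ≤ m M) ∧
      (∑ M ∈ (edges G).powerset, m M = 1) ∧ (∀ M, m M ≠ 0 → M ⊆ S ∧ IsMatch M) ∧
      ∀ e, (∑ M ∈ (edges G).powerset, if e ∈ M then m M else 0) = Z S e := by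
    intro S
    by_cases hS : S ⊆ edges G
    · obtain ⟨m, hm⟩ := DIS_one hS (hZ S hS)
      exact ⟨m, fun _ => hm⟩
    · exact ⟨fun _ => 0, fun h => absurd h hS⟩
  choose μ hμ using h1
  exact ⟨μ, ⟨fun S hS => (hμ S hS).1, fun S hS => (hμ S hS).2.1, fun S hS => (hμ S hS).2.2.1⟩,
    fun S hS => (hμ S hS).2.2.2⟩

end Pool.Agent.Lib.MP_7470b6_lc.Crs
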