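import Mathlib

/-!
# Contention resolution schemes for matchings: definitions
-/

open Finset

namespace Pool.Agent.Lib.MP_7470b6_lc.Crs

open Classical in
/-- The edge set of a finite graph as a finite set. -/
noncomputable def edges {V : Type} [Fintype V] (G : SimpleGraph V) : Finset (Sym2 V) :=
  Finset.univ.filter (fun e => e ∈ G.edgeSet)

/-- A set of pairs is a matching if no vertex belongs to two of its members. -/
def IsMatch {V : Type} (M : Finset (Sym2 V)) : Prop :=
  ∀ e ∈ M, ∀ f ∈ M, ∀ v, v ∈ e → v ∈ f → e = f

open Classical in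
/-- The indicator vector of a set of edges. -/
noncomputable def chi {V : Type} (M : Finset (Sym2 V)) : Sym2 V → ℝ :=
  fun e => if e ∈ M then 1 else 0

/-- The matching polytope of a graph: the convex hull of the indicator vectors of its matchings. -/
def matchingPolytope {V : Type} [Fintype V] (G : SimpleGraph V) : Set (Sym2 V → ℝ) :=
  convexHull ℝ {y | ∃ M : Finset (Sym2 V), M ⊆ edges G ∧ IsMatch M ∧ y = chi M}

open Classical in
/-- The probability that the random set `R(x)` is `S` (`S ⊆ edges G`): the edges are present
independently, the edge `e` with probability `x e`. -/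
noncomputable def prob {V : Type} [Fintype V] (G : SimpleGraph V) (x : Sym2 V → ℝ)
    (S : Finset (Sym2 V)) : ℝ :=
  ∏ e ∈ edges G, if e ∈ S then x e else 1 - x e

/-- A contention resolution scheme for a graph: if the edges present are exactly those of `S`, it
outputs the matching `M ⊆ S` with probability `μ S M`. -/
structure IsScheme {V : Type} [Fintype V] (G : SimpleGraph V)
    (μ : Finset (Sym2 V) → Finset (Sym2 V) → ℝ) : Prop where
  nonneg : ∀ S ⊆ edges G, ∀ M, 0 ≤ μ S M
  total : ∀ S ⊆ edges G, ∑ M ∈ (edges G).powerset, μ S M = 1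
  supp : ∀ S ⊆ edges G, ∀ M, μ S M ≠ 0 → M ⊆ S ∧ IsMatch M

open Classical in
/-- The probability that the edge `e` is in the matching chosen by the scheme. -/
noncomputable def probIn {V : Type} [Fintype V] (G : SimpleGraph V) (x : Sym2 V → ℝ)
    (μ : Finset (Sym2 V) → Finset (Sym2 V) → ℝ) (e : Sym2 V) : ℝ :=
  ∑ S ∈ (edges G).powerset, prob G x S * ∑ M ∈ (edges G).powerset, if e ∈ M then μ S M else 0

open Classical in
/-- The probability that the edge `e` is in the random set `R(x)`. -/
noncomputable def probPresent {V : Type} [Fintype V] (G : SimpleGraph V) (x : Sym2 V → ℝ)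
    (e : Sym2 V) : ℝ :=
  ∑ S ∈ (edges G).powerset, if e ∈ S then prob G x S else 0

/-- The scheme is `c`-balanced at the fractional matching `x`: every edge with `x e > 0` is chosen
with conditional probability at least `c`, given that it is present. -/
def Balanced {V : Type} [Fintype V] (G : SimpleGraph V) (x : Sym2 V → ℝ)
    (μ : Finset (Sym2 V) → Finset (Sym2 V) → ℝ) (c : ℝ) : Prop :=
  ∀ e ∈ edges G, 0 < x e → c ≤ probIn G x μ e / probPresent G x e

end Pool.Agent.Lib.MP_7470b6_lc.Crs
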