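import Pool.Agent.Lib.MP_7470b6_lc.Crs.EVA

/-!
# Job EVC
-/

open Finset

namespace Pool.Agent.Lib.MP_7470b6_lc.Crs

variable {ι κ : Type*} [DecidableEq ι] [DecidableEq κ]

private theorem EVC_insert_left (i : ι) (A : Finset ι) (B : Finset κ) :
    (insert i A).disjSum B = insert (Sum.inl i) (A.disjSum B) := by
  ext x
  rcases x with x | x <;> simp

private theorem EVC_insert_right (j : κ) (A : Finset ι) (B : Finset κ) :
    A.disjSum (insert j B) = insert (Sum.inr j) (A.disjSum B) := by
  ext x
  rcases x with x | x <;> simp

private theorem EVC_base (B : Finset κ) (p : ι ⊕ κ → ℝ) (f : Finset (ι ⊕ κ) → ℝ) :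
    ev ((∅ : Finset ι).disjSum B) p f =
      ev B (fun j => p (Sum.inr j)) (fun T => f ((∅ : Finset ι).disjSum T)) := by
  induction B using Finset.induction_on generalizing f with
  | empty =>
    rw [ev_empty]
    have h : (∅ : Finset ι).disjSum (∅ : Finset κ) = ∅ := by ext x; rcases x with x | x <;> simp
    rw [h, ev_empty]
  | insert j B hj ih =>
    have hj' : (Sum.inr j : ι ⊕ κ) ∉ (∅ : Finset ι).disjSum B := by simpa using hj
    rw [EVC_insert_right, ev_insert hj', ev_insert hj, ih, ih]
    simp only [EVC_insert_right]

/-- Job EVC. Fubini for a disjoint sum of index sets. Proof: induction on `A` with `ev_insert`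
(`(insert i A).disjSum B = insert (inl i) (A.disjSum B)`), in the base case induction on `B`. -/
theorem ev_disjSum (A : Finset ι) (B : Finset κ) (p : ι ⊕ κ → ℝ) (f : Finset (ι ⊕ κ) → ℝ) :
    ev (A.disjSum B) p f =
      ev A (fun i => p (Sum.inl i)) (fun S => ev B (fun j => p (Sum.inr j))
        (fun T => f (S.disjSum T))) := by
  induction A using Finset.induction_on generalizing f with
  | empty => rw [ev_empty, EVC_base]
  | insert i A hi ih =>
    have hi' : (Sum.inl i : ι ⊕ κ) ∉ A.disjSum B := by simpa using hi
    rw [EVC_insert_left, ev_insert hi', ev_insert hi, ih, ih]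
    simp only [EVC_insert_left]

/-- Job EVC. Thinning: choosing `S` with probabilities `x` and then keeping each member `i` of `S`
with probability `r i` is the same as choosing with probabilities `x i * r i`.
Proof: induction on `A`. For the new index `i`:
`ev (insert i A) x (fun S => ev S r g) = x i * ev A x (fun S => ev (insert i S) r g) + ...` and
`ev_insert` for the inner expectation (`i ∉ S` for `S ⊆ A`, `ev_congr`). -/
theorem ev_thin (A : Finset ι) (x r : ι → ℝ) (g : Finset ι → ℝ) :
    ev A x (fun S => ev S r g) = ev A (fun i => x i * r i) g := by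
  induction A using Finset.induction_on generalizing g with
  | empty => rw [ev_empty, ev_empty, ev_empty]
  | insert i A hi ih =>
    rw [ev_insert hi, ev_insert hi]
    have h : ev A x (fun S => ev (insert i S) r g) =
        ev A x (fun S => r i * ev S r (fun T => g (insert i T)) + (1 - r i) * ev S r g) := by
      refine ev_congr fun S hS => ?_
      exact ev_insert (fun h => hi (hS h)) r g
    rw [h, ev_add, ev_const_mul, ev_const_mul, ih, ih]
    ring

end Pool.Agent.Lib.MP_7470b6_lc.Crs
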