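import Pool.Agent.Lib.MP_7470b6_lc.Crs.Defs

/-!
# Expectations over product measures
-/

open Finset

namespace Pool.Agent.Lib.MP_7470b6_lc.Crs

variable {ι κ : Type*} [DecidableEq ι] [DecidableEq κ]

/-- Expectation of `f` for the random subset of `A` with independent members. -/
noncomputable def ev (A : Finset ι) (p : ι → ℝ) (f : Finset ι → ℝ) : ℝ :=
  ∑ T ∈ A.powerset, (∏ i ∈ A, if i ∈ T then p i else 1 - p i) * f T

/-- `f` only depends on the intersection of its argument with `B`. -/
def DepOn (f : Finset ι → ℝ) (B : Finset ι) : Prop :=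
  ∀ T T', T ∩ B = T' ∩ B → f T = f T'

end Pool.Agent.Lib.MP_7470b6_lc.Crs
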