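import Mathlib

/-!
# Truncated exponential
-/

open Finset

namespace Pool.Agent.Lib.MP_7470b6_lc.Crs

/-- Truncated exponential series. -/
noncomputable def SS (n : ℕ) (t : ℝ) : ℝ := ∑ j ∈ Finset.range n, t ^ j / (j.factorial : ℝ)

end Pool.Agent.Lib.MP_7470b6_lc.Crs
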