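import Pool.Agent.Lib.MP_7470b6_lc.Crs.CombD
import Pool.Agent.Lib.MP_7470b6_lc.Crs.SideND

/-!
# Lower bounds
-/

open Finset

namespace Pool.Agent.Lib.MP_7470b6_lc.Crs

variable {V : Type} [Fintype V] [DecidableEq V]

/-- Weight function for triangle free graphs. -/
noncomputable def W4 (k l : ℕ) : ℝ := 1 / ((k : ℝ) + l + 1)

/-- Weight function for bipartite graphs. -/
noncomputable def W1 (k l : ℕ) : ℝ := min (1 / ((k : ℝ) + 1)) (1 / ((l : ℝ) + 1))

/-- Lower bound, triangle free graphs. -/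
noncomputable def low4 (lam t : ℝ) : ℝ :=
  (1 - Real.exp (-t)) * (2 * eta lam t * (∫ s in (0 : ℝ)..1, Real.exp (-(lam * (1 - t) * s))) -
    eta lam t ^ 2 + ∫ s in (0 : ℝ)..1, (Real.exp (-((1 - t) * (1 - (1 - lam) * s))) - eta lam t) ^ 2)

/-- The quantity `P(no active leaf, fewer than n others) - eta`. -/
noncomputable def tau (lam t : ℝ) (n : ℕ) : ℝ :=
  Real.exp (-(1 - t)) * SS n ((1 - lam) * (1 - t)) - eta lam t

/-- Lower bound, bipartite graphs. -/
noncomputable def low1 (lam t : ℝ) : ℝ :=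
  (1 - Real.exp (-t)) * (2 * eta lam t * (∫ s in (0 : ℝ)..1, Real.exp (-(lam * (1 - t) * s))) -
    eta lam t ^ 2 + (1 / 2 * tau lam t 1 ^ 2 + 1 / 6 * tau lam t 2 ^ 2 + 1 / 12 * tau lam t 3 ^ 2 +
      1 / 4 * tau lam t 4 ^ 2))

end Pool.Agent.Lib.MP_7470b6_lc.Crs
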