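import Pool.Agent.Lib.MP_7470b6_lc.Crs.RU1

/-!
# Job RU2
-/

open Finset

namespace Pool.Agent.Lib.MP_7470b6_lc.Crs

variable {V : Type} [Fintype V] [DecidableEq V]

/-- Auxiliary (RU2): with `lf G T v u` no active leaf other than `u` is attached to `v`. -/
private theorem ru2_cntA_zero (G : SimpleGraph V) (T : Finset (Idx V)) {u v : V}
    (h : lf G T v u) : cntA G T v u = 0 := by
  classical
  unfold cntA
  rw [Finset.card_eq_zero, Finset.filter_eq_empty_iff]
  intro b hb hact
  unfold nb at hb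
  simp only [Finset.mem_filter, Finset.mem_univ, true_and] at hb
  obtain ⟨hbu, hbe⟩ := hb
  obtain ⟨h1, h2, _⟩ := hact
  have h3 := h.2 s(b, v) h1 h2 (Sym2.mem_mk_right b v)
  rw [Sym2.eq_iff] at h3
  rcases h3 with ⟨h4, h5⟩ | ⟨h4, _⟩
  · exact hbu (h4.trans h5)
  · exact hbu h4

/-- Auxiliary (RU2). -/
private theorem ru2_no_act (G : SimpleGraph V) (T : Finset (Idx V)) {u v : V}
    (h : ¬ lf G T v u) (h0 : cntA G T u v = 0) : ∀ b, ¬ act G T b u := by
  classical
  intro b hact
  by_cases hb : b = v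
  · subst hb
    exact h hact.2.2
  · unfold cntA at h0
    rw [Finset.card_eq_zero, Finset.filter_eq_empty_iff] at h0
    refine h0 ?_ hact
    unfold nb
    simp only [Finset.mem_filter, Finset.mem_univ, true_and]
    refine ⟨hb, ?_⟩
    rw [Sym2.eq_swap]
    exact hact.1

open Classical in
/-- Job RU2. Pointwise lower bound. Proof: cases. With `lf v u` (and the edge present) we have
`act v u`, so `cntA v u = 0` (`v` has only one present edge) and `dg_act` gives
`z ≥ W (cntA u v) 0 = 1 / (1 + cntA u v)`; if also `lf u v` then `cntA u v = 0` and the left side is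
`1 + 1 - 1 + 0`. Same with `u` and `v` exchanged. If neither holds only the last term can be nonzero;
then no active leaf is attached to `u` or `v` (members `b ≠ v` by `cntA = 0`, `b = v` since `lf v u` is false),
so `s(u,v) ∈ FF`, and `dg_le` with the monotonicity of `W`. -/
theorem pointwise (G : SimpleGraph V) (T : Finset (Idx V)) {W : ℕ → ℕ → ℝ}
    (hW0 : ∀ k : ℕ, W k 0 = 1 / ((k : ℝ) + 1)) (hW0' : ∀ k : ℕ, W 0 k = 1 / ((k : ℝ) + 1))
    (hWa : ∀ k k' l l' : ℕ, k ≤ k' → l ≤ l' → W k' l' ≤ W k l)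
    {z : Sym2 V → ℝ}
    (hz : ∀ u v, s(u, v) ∈ FF G T → W (dg (FF G T) u - 1) (dg (FF G T) v - 1) ≤ z s(u, v))
    (hz0 : ∀ e, 0 ≤ z e) {u v : V} (huv : s(u, v) ∈ edges G) (hT : Sum.inl s(u, v) ∈ T) :
    (if lf G T v u then 1 / (1 + (cntA G T u v : ℝ)) else 0) +
      (if lf G T u v then 1 / (1 + (cntA G T v u : ℝ)) else 0) -
      (if lf G T u v ∧ lf G T v u then 1 else 0) +
      (if ¬ lf G T u v ∧ ¬ lf G T v u ∧ cntA G T u v = 0 ∧ cntA G T v u = 0 then
        W (cntK G T u v) (cntK G T v u) else 0) ≤ z s(u, v) := by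
  have huv' : s(v, u) ∈ edges G := by rw [Sym2.eq_swap]; exact huv
  have hT' : Sum.inl s(v, u) ∈ T := by rw [Sym2.eq_swap]; exact hT
  by_cases h1 : lf G T v u
  · have hact : act G T v u := ⟨huv', hT', h1⟩
    obtain ⟨hF, hdv, hdu⟩ := dg_act G T hact
    have hc : cntA G T v u = 0 := ru2_cntA_zero G T h1
    have hz1 := hz u v hF
    rw [hdv, hdu, Nat.add_sub_cancel, Nat.sub_self, hW0] at hz1
    have h2 : ¬ (¬ lf G T u v ∧ ¬ lf G T v u ∧ cntA G T u v = 0 ∧ cntA G T v u = 0) :=
      fun h => h.2.1 h1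
    rw [if_pos h1, if_neg h2, hc]
    rw [add_comm (cntA G T u v : ℝ) 1] at hz1
    by_cases h3 : lf G T u v
    · rw [if_pos h3, if_pos (⟨h3, h1⟩ : lf G T u v ∧ lf G T v u)]
      norm_num
      norm_num at hz1
      linarith
    · rw [if_neg h3, if_neg (fun h : lf G T u v ∧ lf G T v u => h3 h.1)]
      linarith
  · by_cases h3 : lf G T u v
    · have hact : act G T u v := ⟨huv, hT, h3⟩
      obtain ⟨hF, hdu, hdv⟩ := dg_act G T hact
      have hF' : s(u, v) ∈ FF G T := by rw [Sym2.eq_swap]; exact hF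
      have hz1 := hz u v hF'
      rw [hdv, hdu, Nat.add_sub_cancel, Nat.sub_self, hW0'] at hz1
      have h2 : ¬ (¬ lf G T u v ∧ ¬ lf G T v u ∧ cntA G T u v = 0 ∧ cntA G T v u = 0) :=
        fun h => h.1 h3
      rw [if_neg h1, if_pos h3, if_neg (fun h : lf G T u v ∧ lf G T v u => h1 h.2), if_neg h2]
      rw [add_comm (cntA G T v u : ℝ) 1] at hz1
      linarith
    · rw [if_neg h1, if_neg h3, if_neg (fun h : lf G T u v ∧ lf G T v u => h1 h.2)]
      by_cases h2 : ¬ lf G T u v ∧ ¬ lf G T v u ∧ cntA G T u v = 0 ∧ cntA G T v u = 0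
      · rw [if_pos h2]
        obtain ⟨_, _, hc1, hc2⟩ := h2
        have hn1 := ru2_no_act G T h1 hc1
        have hn2 := ru2_no_act G T h3 hc2
        have hF : s(u, v) ∈ FF G T := by
          unfold FF
          rw [Finset.mem_filter]
          exact ⟨huv, hT, u, v, rfl, Or.inr (Or.inr ⟨hn1, hn2⟩)⟩
        have hd1 := dg_le G T huv hT
        have hd2 := dg_le G T huv' hT'
        have hz1 := hz u v hF
        have hm := hWa (dg (FF G T) u - 1) (cntK G T u v) (dg (FF G T) v - 1) (cntK G T v u)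
          (by omega) (by omega)
        linarith
      · rw [if_neg h2]
        have := hz0 s(u, v)
        linarith

end Pool.Agent.Lib.MP_7470b6_lc.Crs
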