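import Pool.Agent.Lib.MP_7470b6_lc.Crs.CB3
import Pool.Agent.Lib.MP_7470b6_lc.Crs.RU2
import Pool.Agent.Lib.MP_7470b6_lc.Crs.FinD

/-!
# Job FN1
-/

open Finset

namespace Pool.Agent.Lib.MP_7470b6_lc.Crs

variable {V : Type} [Fintype V] [DecidableEq V]

/-- Job FN1. Take `ev` of `pointwise` multiplied by the indicator of `Sum.inl s(u,v) ∈ T` (for `T` without the edge use
`0 ≤ z`), `ev_leaf` twice, `ev_leaf_both`. -/
theorem low_general {G : SimpleGraph V} (hG : G.CliqueFree 3) {x : Sym2 V → ℝ} (hx : FM G x)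
    {lam : ℝ} (hl0 : 0 ≤ lam) (hl1 : lam ≤ Real.exp (-1)) {W : ℕ → ℕ → ℝ}
    (hW0 : ∀ k : ℕ, W k 0 = 1 / ((k : ℝ) + 1)) (hW0' : ∀ k : ℕ, W 0 k = 1 / ((k : ℝ) + 1))
    (hWa : ∀ k k' l l' : ℕ, k ≤ k' → l ≤ l' → W k' l' ≤ W k l)
    {z : Finset (Idx V) → Sym2 V → ℝ}
    (hz : ∀ T ⊆ gr G, ∀ u v, s(u, v) ∈ FF G T →
      W (dg (FF G T) u - 1) (dg (FF G T) v - 1) ≤ z T s(u, v))
    (hz0 : ∀ T ⊆ gr G, ∀ e, 0 ≤ z T e) {u v : V} (huv : s(u, v) ∈ edges G) (hxe : 0 < x s(u, v))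
    (R : ℝ) (hR : R ≤ ev (gr G) (pr G x lam) (fun T => open Classical in
      (if Sum.inl s(u, v) ∈ T then 1 else 0) *
      (if ¬ lf G T u v ∧ ¬ lf G T v u ∧ cntA G T u v = 0 ∧ cntA G T v u = 0 then
        W (cntK G T u v) (cntK G T v u) else 0))) :
    (1 - Real.exp (-(x s(u, v)))) * (2 * eta lam (x s(u, v)) *
      (∫ s in (0 : ℝ)..1, Real.exp (-(lam * (1 - x s(u, v)) * s))) - eta lam (x s(u, v)) ^ 2) + R ≤
      ev (gr G) (pr G x lam) (fun T => z T s(u, v)) := by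
  classical
  have hp := pr_mem hx hl0 hl1
  have h1 : ∀ T ⊆ gr G, (if Sum.inl s(u, v) ∈ T then (1 : ℝ) else 0) *
        (if lf G T v u then 1 / (1 + (cntA G T u v : ℝ)) else 0) +
      (if Sum.inl s(u, v) ∈ T then (1 : ℝ) else 0) *
        (if lf G T u v then 1 / (1 + (cntA G T v u : ℝ)) else 0) -
      (if Sum.inl s(u, v) ∈ T then (1 : ℝ) else 0) * (if lf G T u v ∧ lf G T v u then 1 else 0) +
      (if Sum.inl s(u, v) ∈ T then (1 : ℝ) else 0) *
        (if ¬ lf G T u v ∧ ¬ lf G T v u ∧ cntA G T u v = 0 ∧ cntA G T v u = 0 then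
          W (cntK G T u v) (cntK G T v u) else 0) ≤ z T s(u, v) := by
    intro T hT
    by_cases h : Sum.inl s(u, v) ∈ T
    · have h2 := pointwise G T hW0 hW0' hWa (z := z T) (fun a b hab => hz T hT a b hab)
        (hz0 T hT) huv h
      simp only [if_pos h, one_mul]
      exact h2
    · simp only [if_neg h, zero_mul, add_zero, sub_zero]
      exact hz0 T hT _
  have h2 := ev_mono hp h1
  rw [ev_add, ev_sub, ev_add] at h2
  have h3 := ev_leaf hG hx hl0 hl1 huv hxe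
  have hsw : s(v, u) = s(u, v) := Sym2.eq_swap
  have hvu : s(v, u) ∈ edges G := by
    rw [hsw]
    exact huv
  have hxe' : 0 < x s(v, u) := by
    rw [hsw]
    exact hxe
  have h4 := ev_leaf hG hx hl0 hl1 hvu hxe'
  rw [hsw] at h4
  have h5 := ev_leaf_both (x := x) (lam := lam) huv hxe
  linarith

end Pool.Agent.Lib.MP_7470b6_lc.Crs
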