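import Pool.Agent.Lib.MP_7470b6_lc.Crs.FN1

/-!
# Job FN2
-/

open Finset

namespace Pool.Agent.Lib.MP_7470b6_lc.Crs

variable {V : Type} [Fintype V] [DecidableEq V]

private theorem FN2_mf {α : Type*} {p : α → Prop} (inst : DecidablePred p) {s : Finset α} {a : α} :
    a ∈ @Finset.filter α p inst s ↔ a ∈ s ∧ p a := Finset.mem_filter

private theorem FN2_int (k l : ℕ) : ∫ s in (0 : ℝ)..1, s ^ k * s ^ l = W4 k l := by
  have h1 : ∀ s : ℝ, s ^ k * s ^ l = s ^ (k + l) := fun s => (pow_add s k l).symm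
  simp only [h1]
  rw [integral_pow]
  unfold W4
  simp

private theorem FN2_oth {G : SimpleGraph V} {x : Sym2 V → ℝ} (hx : FM G x) (u v : V) :
    0 ≤ oth G x u v := by
  unfold oth
  exact Finset.sum_nonneg fun f hf => hx.nonneg f ((FN2_mf _).1 hf).1

private theorem FN2_lam {lam : ℝ} (hl1 : lam ≤ Real.exp (-1)) : lam ≤ 1 :=
  hl1.trans (Real.exp_le_one_iff.2 (by norm_num))

private theorem FN2_side {G : SimpleGraph V} (hG : G.CliqueFree 3) {x : Sym2 V → ℝ} (hx : FM G x)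
    {lam : ℝ} (hl0 : 0 ≤ lam) (hl1 : lam ≤ Real.exp (-1)) {u v : V} (huv : s(u, v) ∈ edges G)
    (hxe : 0 < x s(u, v)) {s : ℝ} (hs0 : 0 ≤ s) (hs1 : s ≤ 1) :
    Real.exp (-((1 - x s(u, v)) * (1 - (1 - lam) * s))) - eta lam (x s(u, v)) ≤
      ev (gr G) (pr G x lam) (fH G (fun k => s ^ k) u v) := by
  rw [ev_fH (h := fun k => s ^ k) (pow_zero s) huv hxe, ev_side hG hx u v (fun k => s ^ k)]
  have h1 : ∑ b ∈ nb G u v, x s(b, u) ≤ 1 - x s(u, v) := by
    rw [sum_nb huv]
    linarith [hx.vertex u v huv]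
  have h2 : ∀ b ∈ nb G u v, 0 ≤ x s(b, u) := by
    intro b hb
    unfold nb at hb
    have h3 := ((FN2_mf _).1 hb).2.2
    rw [Sym2.eq_swap] at h3
    exact hx.nonneg _ h3
  have h3 := side_pow (nb G u v) (fun b => x s(b, u)) h2 h1 hl0 (FN2_lam hl1) hs0 hs1
  linarith

private theorem FN2_nonneg {G : SimpleGraph V} {x : Sym2 V → ℝ} (hx : FM G x)
    {lam : ℝ} (hl0 : 0 ≤ lam) (hl1 : lam ≤ Real.exp (-1)) {u v : V} (huv : s(u, v) ∈ edges G)
    (hxe : 0 < x s(u, v)) {s : ℝ} (hs0 : 0 ≤ s) :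
    0 ≤ Real.exp (-((1 - x s(u, v)) * (1 - (1 - lam) * s))) - eta lam (x s(u, v)) := by
  have h0 := hx.vertex u v huv
  have h1 := FN2_oth hx u v
  have h2 := (eta_le hl0 hl1 hxe (by linarith)).2
  have h3 : Real.exp (-(1 - x s(u, v))) ≤
      Real.exp (-((1 - x s(u, v)) * (1 - (1 - lam) * s))) := by
    apply Real.exp_le_exp.2
    have h4 : 0 ≤ (1 - x s(u, v)) * ((1 - lam) * s) :=
      mul_nonneg (by linarith) (mul_nonneg (by linarith [FN2_lam hl1]) hs0)
    nlinarith
  linarith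

private theorem FN2_cont (G : SimpleGraph V) (u v : V) (T : Finset (Idx V)) :
    Continuous fun s : ℝ => fH G (fun k => s ^ k) u v T := by
  unfold fH
  refine continuous_const.mul ?_
  split_ifs
  · exact continuous_pow _
  · exact continuous_const

private theorem FN2_fH (G : SimpleGraph V) (u v : V) (T : Finset (Idx V)) (s : ℝ) :
    fH G (fun k => s ^ k) u v T * fH G (fun k => s ^ k) v u T =
      (open Classical in
        if ¬ lf G T u v ∧ ¬ lf G T v u ∧ cntA G T u v = 0 ∧ cntA G T v u = 0 then (1 : ℝ) else 0) *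
      (s ^ cntK G T u v * s ^ cntK G T v u) := by
  unfold fH
  by_cases h1 : lf G T u v
  · simp [h1]
  · by_cases h2 : lf G T v u
    · simp [h2]
    · by_cases h3 : cntA G T u v = 0
      · by_cases h4 : cntA G T v u = 0
        · simp [h1, h2, h3, h4]
        · simp [h4]
      · simp [h3]

/-- Job FN2. `W4 k l = ∫ s in 0..1, s^k * s^l`, `ev_both` with `h k = s^k`, `ev_fH`, `ev_side`, `side_pow` with
`m = 1 - t` (`sum_nb`, `FM.vertex`), `eta_le` for nonnegativity; `low_general`. The last term of `low_general` is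
`ev (1[e] * fH u v * fH v u)` with `h k = s ^ k`, integrated over `s`. -/
theorem low4_le {G : SimpleGraph V} (hG : G.CliqueFree 3) {x : Sym2 V → ℝ} (hx : FM G x)
    {lam : ℝ} (hl0 : 0 ≤ lam) (hl1 : lam ≤ Real.exp (-1))
    {z : Finset (Idx V) → Sym2 V → ℝ}
    (hz : ∀ T ⊆ gr G, ∀ u v, s(u, v) ∈ FF G T →
      W4 (dg (FF G T) u - 1) (dg (FF G T) v - 1) ≤ z T s(u, v))
    (hz0 : ∀ T ⊆ gr G, ∀ e, 0 ≤ z T e) {u v : V} (huv : s(u, v) ∈ edges G)
    (hxe : 0 < x s(u, v)) :
    low4 lam (x s(u, v)) ≤ ev (gr G) (pr G x lam) (fun T => z T s(u, v)) := by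
  classical
  obtain ⟨t, ht⟩ : ∃ t : ℝ, t = x s(u, v) := ⟨_, rfl⟩
  obtain ⟨A, hA⟩ : ∃ A : ℝ → ℝ, A = fun s =>
    (Real.exp (-((1 - t) * (1 - (1 - lam) * s))) - eta lam t) ^ 2 := ⟨_, rfl⟩
  obtain ⟨Q, hQ⟩ : ∃ Q : ℝ → ℝ, Q = fun s => ev (gr G) (pr G x lam)
    (fun T => (if Sum.inl s(u, v) ∈ T then (1 : ℝ) else 0) *
      (fH G (fun k => s ^ k) u v T * fH G (fun k => s ^ k) v u T)) := ⟨_, rfl⟩
  have ht1 : 0 ≤ 1 - Real.exp (-t) := by
    have h1 : Real.exp (-t) ≤ 1 := Real.exp_le_one_iff.2 (by rw [ht]; linarith)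
    linarith
  have hsw : s(v, u) = s(u, v) := Sym2.eq_swap
  have hQA : ∀ s ∈ Set.Icc (0 : ℝ) 1, (1 - Real.exp (-t)) * A s ≤ Q s := by
    intro s hs
    have hvu : s(v, u) ∈ edges G := by
      rw [hsw]
      exact huv
    have hxe' : 0 < x s(v, u) := by
      rw [hsw]
      exact hxe
    have h1 := FN2_side hG hx hl0 hl1 huv hxe hs.1 hs.2
    have h2 := FN2_side hG hx hl0 hl1 hvu hxe' hs.1 hs.2
    rw [hsw] at h2
    have h3 := FN2_nonneg hx hl0 hl1 huv hxe hs.1
    have h4 := ev_both hG hx hl0 hl1 (h := fun k => s ^ k) (fun k => pow_nonneg hs.1 k) huv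
    rw [← ht] at h1 h2 h3 h4
    rw [hA, hQ]
    refine le_trans ?_ h4
    refine mul_le_mul_of_nonneg_left ?_ ht1
    beta_reduce
    rw [sq]
    exact mul_le_mul h1 h2 h3 (h3.trans h1)
  have hQc : Continuous Q := by
    rw [hQ]
    unfold ev
    refine continuous_finsetSum _ fun T _ => continuous_const.mul (continuous_const.mul ?_)
    exact (FN2_cont G u v T).mul (FN2_cont G v u T)
  have hAc : Continuous fun s => (1 - Real.exp (-t)) * A s := by
    rw [hA]
    fun_prop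
  have h5 : ∫ s in (0 : ℝ)..1, (1 - Real.exp (-t)) * A s ≤ ∫ s in (0 : ℝ)..1, Q s :=
    intervalIntegral.integral_mono_on zero_le_one (hAc.intervalIntegrable _ _)
      (hQc.intervalIntegrable _ _) hQA
  have h6 : ∫ s in (0 : ℝ)..1, Q s = ev (gr G) (pr G x lam) (fun T =>
      (if Sum.inl s(u, v) ∈ T then (1 : ℝ) else 0) *
      (if ¬ lf G T u v ∧ ¬ lf G T v u ∧ cntA G T u v = 0 ∧ cntA G T v u = 0 then
        W4 (cntK G T u v) (cntK G T v u) else 0)) := by
    rw [hQ]
    unfold ev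
    rw [intervalIntegral.integral_finsetSum]
    · refine Finset.sum_congr rfl fun T _ => ?_
      rw [intervalIntegral.integral_const_mul]
      congr 1
      rw [intervalIntegral.integral_const_mul]
      congr 1
      simp only [FN2_fH]
      rw [intervalIntegral.integral_const_mul, FN2_int]
      split_ifs
      · rw [one_mul]
      · rw [zero_mul]
    · intro T _
      refine Continuous.intervalIntegrable ?_ _ _
      refine continuous_const.mul (continuous_const.mul ?_)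
      exact (FN2_cont G u v T).mul (FN2_cont G v u T)
  rw [h6, intervalIntegral.integral_const_mul] at h5
  have h7 := low_general hG hx hl0 hl1 (W := W4) (fun k => by unfold W4; simp)
    (fun k => by unfold W4; simp) (fun k k' l l' hk hl => by
      unfold W4
      have hk' : (k : ℝ) ≤ k' := by exact_mod_cast hk
      have hl' : (l : ℝ) ≤ l' := by exact_mod_cast hl
      exact one_div_le_one_div_of_le (by positivity) (by linarith)) hz hz0 huv hxe _ h5
  refine le_trans (le_of_eq ?_) h7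
  unfold low4
  rw [hA, ← ht]
  ring

end Pool.Agent.Lib.MP_7470b6_lc.Crs
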