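import Pool.Agent.Lib.MP_7470b6_lc.Crs.SideND

/-!
# Job SN2
-/

open Finset

namespace Pool.Agent.Lib.MP_7470b6_lc.Crs

theorem sn2_SS_succ (n : ℕ) (t : ℝ) : SS (n + 1) t = SS n t + t ^ n / (n.factorial : ℝ) := by
  unfold SS
  rw [Finset.sum_range_succ]

theorem sn2_SS_nonneg (n : ℕ) {t : ℝ} (ht : 0 ≤ t) : 0 ≤ SS n t := by
  unfold SS
  exact Finset.sum_nonneg fun j _ => by positivity

theorem sn2_SS_le_succ (n : ℕ) {t : ℝ} (ht : 0 ≤ t) : SS n t ≤ SS (n + 1) t := by
  rw [sn2_SS_succ]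
  have : 0 ≤ t ^ n / (n.factorial : ℝ) := by positivity
  linarith

theorem sn2_add_pow (n : ℕ) (t z : ℝ) : (t + z) ^ n / (n.factorial : ℝ) =
    ∑ a ∈ Finset.range (n + 1), t ^ a / (a.factorial : ℝ) * (z ^ (n - a) / ((n - a).factorial : ℝ)) := by
  rw [add_pow, Finset.sum_div]
  refine Finset.sum_congr rfl fun a ha => ?_
  have h1 : a ≤ n := Nat.lt_succ_iff.mp (Finset.mem_range.mp ha)
  have h2 : (n.choose a : ℝ) = n.factorial / (a.factorial * (n - a).factorial) := Nat.cast_choose ℝ h1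
  have h3 : (n.factorial : ℝ) ≠ 0 := by positivity
  have h4 : (a.factorial : ℝ) ≠ 0 := by positivity
  have h5 : ((n - a).factorial : ℝ) ≠ 0 := by positivity
  rw [h2]
  field_simp

theorem sn2_SS_add (n : ℕ) (t z : ℝ) : SS n (t + z) = ∑ a ∈ Finset.range n, t ^ a / (a.factorial : ℝ) * SS (n - a) z := by
  induction n with
  | zero => simp [SS]
  | succ n ih =>
    rw [sn2_SS_succ, ih, sn2_add_pow, Finset.sum_range_succ, Finset.sum_range_succ _ n, ← add_assoc, ← Finset.sum_add_distrib]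
    congr 1
    · refine Finset.sum_congr rfl fun a ha => ?_
      have h1 : a < n := Finset.mem_range.mp ha
      have h2 : n + 1 - a = (n - a) + 1 := by omega
      rw [h2, sn2_SS_succ]
      ring
    · have h2 : n + 1 - n = 0 + 1 := by omega
      rw [h2, sn2_SS_succ]
      simp [SS]

theorem sn2_SS_le_exp (n : ℕ) {z : ℝ} (hz : 0 ≤ z) : SS n z ≤ Real.exp z := by
  unfold SS
  exact Real.sum_le_exp_of_nonneg hz n

/-- Job SN2. `SS n (t + z) - SS n t ≤ (exp z - 1) * SS (n-1) t`. Proof: for `n = 0` trivial (both sides are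
`0` for `SS (0-1) t = 0`). The derivative in `z` of the left side is `SS (n-1) (t+z) ≤ exp z * SS (n-1) t`
(expand by the binomial theorem), the derivative of the right side; both vanish at `z = 0`.
Alternatively a direct comparison of coefficients. -/
theorem SS_step (n : ℕ) {t z : ℝ} (ht : 0 ≤ t) (hz : 0 ≤ z) :
    SS (n + 1) (t + z) ≤ SS (n + 1) t + (Real.exp z - 1) * SS n t := by
  rw [sn2_SS_add, Finset.sum_range_succ]
  have h1 : ∑ a ∈ Finset.range n, t ^ a / (a.factorial : ℝ) * SS (n + 1 - a) z ≤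
      ∑ a ∈ Finset.range n, t ^ a / (a.factorial : ℝ) * Real.exp z := by
    refine Finset.sum_le_sum fun a _ => ?_
    exact mul_le_mul_of_nonneg_left (sn2_SS_le_exp _ hz) (by positivity)
  have h2 : SS (n + 1 - n) z = 1 := by
    have h2 : n + 1 - n = 0 + 1 := by omega
    rw [h2, sn2_SS_succ]
    simp [SS]
  rw [h2, sn2_SS_succ]
  rw [← Finset.sum_mul] at h1
  have h3 : SS n t = ∑ a ∈ Finset.range n, t ^ a / (a.factorial : ℝ) := rfl
  rw [h3]
  nlinarith [h1]

theorem sn2_claim {α : Type*} [DecidableEq α] (N : Finset α) (z : α → ℝ) (hz : ∀ b ∈ N, 0 ≤ z b) :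
    0 ≤ ∑ b ∈ N, z b ∧ ∀ n : ℕ,
    SS n (∑ b ∈ N, z b) ≤ ∑ B ∈ N.powerset, (∏ b ∈ B, (Real.exp (z b) - 1)) * (if B.card < n then (1 : ℝ) else 0) := by
  refine ⟨Finset.sum_nonneg hz, ?_⟩
  induction N using Finset.induction_on with
  | empty =>
    intro n
    cases n with
    | zero => simp [SS]
    | succ n =>
      rw [Finset.sum_empty]
      have h1 : SS (n + 1) 0 = 1 := by
        unfold SS
        rw [Finset.sum_range_succ']
        simp
      rw [h1]
      simp
  | insert a N ha ih =>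
    intro n
    have hza : 0 ≤ z a := hz a (Finset.mem_insert_self _ _)
    have hzN : ∀ b ∈ N, 0 ≤ z b := fun b hb => hz b (Finset.mem_insert_of_mem hb)
    have hs : 0 ≤ ∑ b ∈ N, z b := Finset.sum_nonneg hzN
    have hea : 0 ≤ Real.exp (z a) - 1 := by
      have := Real.one_le_exp hza
      linarith
    rw [Finset.sum_powerset_insert ha, Finset.sum_insert ha]
    cases n with
    | zero =>
      simp [SS]
    | succ m =>
      have h1 := SS_step m hs hza
      rw [add_comm (z a)]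
      refine h1.trans (add_le_add (ih hzN (m + 1)) ?_)
      have h2 : ∑ B ∈ N.powerset, (∏ b ∈ insert a B, (Real.exp (z b) - 1)) * (if (insert a B).card < m + 1 then (1 : ℝ) else 0) =
          (Real.exp (z a) - 1) * ∑ B ∈ N.powerset, (∏ b ∈ B, (Real.exp (z b) - 1)) * (if B.card < m then (1 : ℝ) else 0) := by
        rw [Finset.mul_sum]
        refine Finset.sum_congr rfl fun B hB => ?_
        have haB : a ∉ B := fun h => ha (Finset.mem_powerset.mp hB h)
        rw [Finset.prod_insert haB, Finset.card_insert_of_notMem haB, mul_assoc]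
        simp only [Nat.add_lt_add_iff_right]
      rw [h2]
      exact mul_le_mul_of_nonneg_left (ih hzN m) hea

theorem sn2_SS_exp (n : ℕ) {t z : ℝ} (ht : 0 ≤ t) (hz : 0 ≤ z) : SS n (t + z) ≤ Real.exp z * SS n t := by
  cases n with
  | zero => simp [SS]
  | succ n =>
    have h1 := SS_step n ht hz
    have h2 := sn2_SS_le_succ n ht
    have h3 := Real.one_le_exp hz
    nlinarith

/-- Job SN2. Proof: write the summand as `exp (-∑ w) * ∏ b ∈ B, (exp ((1-lam) w b) - 1)`. Claim for all `n`: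
`SS n (∑ b ∈ N, z b) ≤ ∑ B ∈ N.powerset, (∏ b ∈ B, (exp (z b) - 1)) * (if B.card < n then 1 else 0)`
by induction on `N` with `SS_step` (adding one element `a`: the sum splits into the subsets not
containing `a` and those containing `a`, the latter with `n - 1` and the factor `exp (z a) - 1`).
Then `exp (-M) * SS n ((1-lam) M)` is nonincreasing in `M`: for `M ≤ m`,
`SS n ((1-lam) m) ≤ exp ((1-lam)(m-M)) SS n ((1-lam) M) ≤ exp (m - M) SS n ((1-lam) M)`. -/
theorem side_lt {α : Type*} [DecidableEq α] (N : Finset α) (w : α → ℝ)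
    (hw : ∀ b ∈ N, 0 ≤ w b) {m lam : ℝ} (hm : ∑ b ∈ N, w b ≤ m) (hl0 : 0 ≤ lam) (hl1 : lam ≤ 1)
    (n : ℕ) :
    Real.exp (-m) * SS n ((1 - lam) * m) ≤
      ∑ B ∈ N.powerset, (∏ b ∈ B, (Real.exp (-(lam * w b)) - Real.exp (-(w b)))) *
        (∏ b ∈ N \ B, Real.exp (-(w b))) * (if B.card < n then 1 else 0) := by
  have hM0 : 0 ≤ ∑ b ∈ N, w b := Finset.sum_nonneg hw
  have hl : 0 ≤ 1 - lam := by linarith
  have h1 : ∀ B ∈ N.powerset, (∏ b ∈ B, (Real.exp (-(lam * w b)) - Real.exp (-(w b)))) *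
        (∏ b ∈ N \ B, Real.exp (-(w b))) * (if B.card < n then (1 : ℝ) else 0) =
        Real.exp (-(∑ b ∈ N, w b)) * ((∏ b ∈ B, (Real.exp ((1 - lam) * w b) - 1)) * (if B.card < n then (1 : ℝ) else 0)) := by
    intro B hB
    have h2 : (∏ b ∈ B, (Real.exp (-(lam * w b)) - Real.exp (-(w b)))) =
        (∏ b ∈ B, Real.exp (-(w b))) * ∏ b ∈ B, (Real.exp ((1 - lam) * w b) - 1) := by
      rw [← Finset.prod_mul_distrib]
      refine Finset.prod_congr rfl fun b _ => ?_
      rw [mul_sub, ← Real.exp_add]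
      ring_nf
    have h3 : Real.exp (-(∑ b ∈ N, w b)) = (∏ b ∈ N \ B, Real.exp (-(w b))) * ∏ b ∈ B, Real.exp (-(w b)) := by
      rw [Finset.prod_sdiff (Finset.mem_powerset.mp hB), ← Finset.sum_neg_distrib, Real.exp_sum]
    rw [h2, h3]
    ring
  rw [Finset.sum_congr rfl h1, ← Finset.mul_sum]
  have h2 := (sn2_claim N (fun b => (1 - lam) * w b) (fun b hb => mul_nonneg hl (hw b hb))).2 n
  rw [← Finset.mul_sum] at h2
  refine le_trans ?_ (mul_le_mul_of_nonneg_left h2 (Real.exp_pos _).le)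
  have h3 := sn2_SS_exp n (t := (1 - lam) * ∑ b ∈ N, w b) (z := (1 - lam) * (m - ∑ b ∈ N, w b)) (mul_nonneg hl hM0) (mul_nonneg hl (by linarith))
  have h4 : (1 - lam) * ∑ b ∈ N, w b + (1 - lam) * (m - ∑ b ∈ N, w b) = (1 - lam) * m := by ring
  rw [h4] at h3
  have h5 : Real.exp ((1 - lam) * (m - ∑ b ∈ N, w b)) ≤ Real.exp (m - ∑ b ∈ N, w b) := by
    apply Real.exp_le_exp.mpr
    nlinarith
  have h6 := sn2_SS_nonneg n (mul_nonneg hl hM0)
  calc Real.exp (-m) * SS n ((1 - lam) * m) ≤ Real.exp (-m) * (Real.exp (m - ∑ b ∈ N, w b) * SS n ((1 - lam) * ∑ b ∈ N, w b)) := by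
        apply mul_le_mul_of_nonneg_left _ (Real.exp_pos _).le
        exact h3.trans (mul_le_mul_of_nonneg_right h5 h6)
    _ = Real.exp (-(∑ b ∈ N, w b)) * SS n ((1 - lam) * ∑ b ∈ N, w b) := by
        rw [← mul_assoc, ← Real.exp_add]
        ring_nf

end Pool.Agent.Lib.MP_7470b6_lc.Crs
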