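import Pool.Agent.Lib.MP_7470b6_lc.Crs.FN1
import Pool.Agent.Lib.MP_7470b6_lc.Crs.SN2

/-!
# Job FN3
-/

open Finset

namespace Pool.Agent.Lib.MP_7470b6_lc.Crs

variable {V : Type} [Fintype V] [DecidableEq V]

/-- The indicator of `k < n`. -/
noncomputable def fn3_h (n k : ℕ) : ℝ := if k < n then 1 else 0

theorem fn3_h_nonneg (n k : ℕ) : 0 ≤ fn3_h n k := by
  unfold fn3_h
  split_ifs <;> norm_num

theorem fn3_W1 (k l : ℕ) : 1 / 2 * (fn3_h 1 k * fn3_h 1 l) + 1 / 6 * (fn3_h 2 k * fn3_h 2 l) +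
    1 / 12 * (fn3_h 3 k * fn3_h 3 l) + 1 / 4 * (fn3_h 4 k * fn3_h 4 l) ≤ W1 k l := by
  have hmax : ∀ m : ℕ, k ≤ m → l ≤ m → 1 / ((m : ℝ) + 1) ≤ W1 k l := by
    intro m hk hl
    unfold W1
    have h1 : (k : ℝ) ≤ m := by exact_mod_cast hk
    have h2 : (l : ℝ) ≤ m := by exact_mod_cast hl
    exact le_min (one_div_le_one_div_of_le (by positivity) (by linarith)) (one_div_le_one_div_of_le (by positivity) (by linarith))
  have hpos : 0 ≤ W1 k l := by
    unfold W1
    exact le_min (by positivity) (by positivity)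
  have hprod : ∀ n : ℕ, fn3_h n k * fn3_h n l = if max k l < n then 1 else 0 := by
    intro n
    unfold fn3_h
    by_cases h1 : k < n <;> by_cases h2 : l < n <;> simp [h1, h2]
  simp only [hprod]
  rcases lt_or_ge (max k l) 4 with h4 | h4
  · have h5 := hmax (max k l) (le_max_left _ _) (le_max_right _ _)
    generalize max k l = m at *
    interval_cases m <;> norm_num at h5 ⊢ <;> linarith
  · have h1 : ¬ max k l < 1 := by omega
    have h2 : ¬ max k l < 2 := by omega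
    have h3 : ¬ max k l < 3 := by omega
    have h4' : ¬ max k l < 4 := by omega
    rw [if_neg h1, if_neg h2, if_neg h3, if_neg h4']
    simpa using hpos

theorem fn3_SS_ge_one (n : ℕ) {t : ℝ} (ht : 0 ≤ t) : 1 ≤ SS (n + 1) t := by
  unfold SS
  rw [Finset.sum_range_succ']
  have h1 : 0 ≤ ∑ k ∈ Finset.range n, t ^ (k + 1) / ((k + 1).factorial : ℝ) := Finset.sum_nonneg fun j _ => by positivity
  simpa using h1

theorem fn3_tau_nonneg {lam t : ℝ} (hl0 : 0 ≤ lam) (hl1 : lam ≤ Real.exp (-1)) (ht0 : 0 < t) (ht1 : t ≤ 1) (n : ℕ) :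
    0 ≤ tau lam t (n + 1) := by
  have hlam1 : lam ≤ 1 := hl1.trans (Real.exp_le_one_iff.mpr (by norm_num))
  have h1 := (eta_le hl0 hl1 ht0 ht1).2
  have h2 : 1 ≤ SS (n + 1) ((1 - lam) * (1 - t)) := fn3_SS_ge_one n (mul_nonneg (by linarith) (by linarith))
  have h3 := Real.exp_pos (-(1 - t))
  unfold tau
  nlinarith

theorem fn3_t_le {G : SimpleGraph V} {x : Sym2 V → ℝ} (hx : FM G x) {u v : V} (huv : s(u, v) ∈ edges G) :
    x s(u, v) ≤ 1 := by
  have h1 := hx.vertex u v huv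
  have h2 : 0 ≤ oth G x u v := by
    unfold oth
    refine Finset.sum_nonneg fun f hf => hx.nonneg f (Finset.mem_filter.mp hf).1
  linarith

theorem fn3_end {G : SimpleGraph V} (hG : G.CliqueFree 3) {x : Sym2 V → ℝ} (hx : FM G x)
    {lam : ℝ} (hl0 : 0 ≤ lam) (hl1 : lam ≤ Real.exp (-1)) {u v : V} (huv : s(u, v) ∈ edges G)
    (hxe : 0 < x s(u, v)) (n : ℕ) :
    tau lam (x s(u, v)) (n + 1) ≤ ev (gr G) (pr G x lam) (fH G (fn3_h (n + 1)) u v) := by
  classical
  have hlam1 : lam ≤ 1 := hl1.trans (Real.exp_le_one_iff.mpr (by norm_num))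
  have hh : fn3_h (n + 1) 0 = 1 := by simp [fn3_h]
  rw [ev_fH hh huv hxe, ev_side hG hx u v (fn3_h (n + 1))]
  unfold tau
  have hw : ∀ b ∈ nb G u v, 0 ≤ x s(b, u) := by
    intro b hb
    have h1 : s(u, b) ∈ edges G := by
      simp only [nb, Finset.mem_filter] at hb
      exact hb.2.2
    rw [Sym2.eq_swap]
    exact hx.nonneg _ h1
  have hm : ∑ b ∈ nb G u v, x s(b, u) ≤ 1 - x s(u, v) := by
    rw [sum_nb huv]
    have := hx.vertex u v huv
    linarith
  have h1 := side_lt (nb G u v) (fun b => x s(b, u)) hw hm hl0 hlam1 (n + 1)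
  have h2 : ∀ B : Finset V, fn3_h (n + 1) B.card = if B.card < n + 1 then 1 else 0 := fun B => rfl
  simp only [h2]
  linarith

theorem fn3_low1_aux {G : SimpleGraph V} (hG : G.CliqueFree 3) {x : Sym2 V → ℝ} (hx : FM G x)
    {lam : ℝ} (hl0 : 0 ≤ lam) (hl1 : lam ≤ Real.exp (-1)) {u v : V} (huv : s(u, v) ∈ edges G)
    (hxe : 0 < x s(u, v)) (n : ℕ) :
    (1 - Real.exp (-(x s(u, v)))) * tau lam (x s(u, v)) (n + 1) ^ 2 ≤
      ev (gr G) (pr G x lam) (fun T => open Classical in (if Sum.inl s(u, v) ∈ T then 1 else 0) *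
        (fH G (fn3_h (n + 1)) u v T * fH G (fn3_h (n + 1)) v u T)) := by
  classical
  have h1 := ev_both hG hx hl0 hl1 (fn3_h_nonneg (n + 1)) huv
  refine le_trans ?_ h1
  have ht1 := fn3_t_le hx huv
  have hτ := fn3_tau_nonneg hl0 hl1 hxe ht1 n
  have h2 := fn3_end hG hx hl0 hl1 huv hxe n
  have hsw : s(v, u) = s(u, v) := Sym2.eq_swap
  have h3 := fn3_end hG hx hl0 hl1 (u := v) (v := u) (by rw [hsw]; exact huv) (by rw [hsw]; exact hxe) n
  rw [hsw] at h3
  have h4 : 0 ≤ 1 - Real.exp (-(x s(u, v))) := by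
    have : Real.exp (-(x s(u, v))) ≤ 1 := Real.exp_le_one_iff.mpr (by linarith)
    linarith
  apply mul_le_mul_of_nonneg_left _ h4
  rw [sq]
  exact mul_le_mul h2 h3 hτ (hτ.trans h2)

/-- Job FN3. `W1 k l ≥ 1/2 [k<1][l<1] + 1/6 [k<2][l<2] + 1/12 [k<3][l<3] + 1/4 [k<4][l<4]`, `ev_both` with
`h k = if k < n then 1 else 0`, `ev_fH`, `ev_side`, `side_lt` with `m = 1 - t`, and `tau ≥ 0` for `n ≥ 1` by `eta_le`
(`SS n ≥ 1`); `low_general`. -/
theorem low1_le {G : SimpleGraph V} (hG : G.CliqueFree 3) {x : Sym2 V → ℝ} (hx : FM G x)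
    {lam : ℝ} (hl0 : 0 ≤ lam) (hl1 : lam ≤ Real.exp (-1))
    {z : Finset (Idx V) → Sym2 V → ℝ}
    (hz : ∀ T ⊆ gr G, ∀ u v, s(u, v) ∈ FF G T →
      W1 (dg (FF G T) u - 1) (dg (FF G T) v - 1) ≤ z T s(u, v))
    (hz0 : ∀ T ⊆ gr G, ∀ e, 0 ≤ z T e) {u v : V} (huv : s(u, v) ∈ edges G)
    (hxe : 0 < x s(u, v)) :
    low1 lam (x s(u, v)) ≤ ev (gr G) (pr G x lam) (fun T => z T s(u, v)) := by
  classical
  have hW0 : ∀ k : ℕ, W1 k 0 = 1 / ((k : ℝ) + 1) := by
    intro k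
    unfold W1
    apply min_eq_left
    exact one_div_le_one_div_of_le (by norm_num) (by
      have : (0 : ℝ) ≤ k := Nat.cast_nonneg k
      push_cast
      linarith)
  have hW0' : ∀ k : ℕ, W1 0 k = 1 / ((k : ℝ) + 1) := by
    intro k
    unfold W1
    apply min_eq_right
    exact one_div_le_one_div_of_le (by norm_num) (by
      have : (0 : ℝ) ≤ k := Nat.cast_nonneg k
      push_cast
      linarith)
  have hWa : ∀ k k' l l' : ℕ, k ≤ k' → l ≤ l' → W1 k' l' ≤ W1 k l := by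
    intro k k' l l' hk hl
    unfold W1
    have h1 : (k : ℝ) ≤ k' := by exact_mod_cast hk
    have h2 : (l : ℝ) ≤ l' := by exact_mod_cast hl
    exact min_le_min (one_div_le_one_div_of_le (by positivity) (by linarith)) (one_div_le_one_div_of_le (by positivity) (by linarith))
  set t := x s(u, v) with ht
  have hR : (1 - Real.exp (-t)) * (1 / 2 * tau lam t 1 ^ 2 + 1 / 6 * tau lam t 2 ^ 2 + 1 / 12 * tau lam t 3 ^ 2 +
      1 / 4 * tau lam t 4 ^ 2) ≤ ev (gr G) (pr G x lam) (fun T => open Classical in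
      (if Sum.inl s(u, v) ∈ T then 1 else 0) *
      (if ¬ lf G T u v ∧ ¬ lf G T v u ∧ cntA G T u v = 0 ∧ cntA G T v u = 0 then
        W1 (cntK G T u v) (cntK G T v u) else 0)) := by
    have a1 := fn3_low1_aux hG hx hl0 hl1 huv hxe 0
    have a2 := fn3_low1_aux hG hx hl0 hl1 huv hxe 1
    have a3 := fn3_low1_aux hG hx hl0 hl1 huv hxe 2
    have a4 := fn3_low1_aux hG hx hl0 hl1 huv hxe 3
    have key : 1 / 2 * ev (gr G) (pr G x lam) (fun T => (if Sum.inl s(u, v) ∈ T then 1 else 0) *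
        (fH G (fn3_h (0 + 1)) u v T * fH G (fn3_h (0 + 1)) v u T)) +
        1 / 6 * ev (gr G) (pr G x lam) (fun T => (if Sum.inl s(u, v) ∈ T then 1 else 0) *
        (fH G (fn3_h (1 + 1)) u v T * fH G (fn3_h (1 + 1)) v u T)) +
        1 / 12 * ev (gr G) (pr G x lam) (fun T => (if Sum.inl s(u, v) ∈ T then 1 else 0) *
        (fH G (fn3_h (2 + 1)) u v T * fH G (fn3_h (2 + 1)) v u T)) +
        1 / 4 * ev (gr G) (pr G x lam) (fun T => (if Sum.inl s(u, v) ∈ T then 1 else 0) *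
        (fH G (fn3_h (3 + 1)) u v T * fH G (fn3_h (3 + 1)) v u T)) ≤
        ev (gr G) (pr G x lam) (fun T =>
      (if Sum.inl s(u, v) ∈ T then 1 else 0) *
      (if ¬ lf G T u v ∧ ¬ lf G T v u ∧ cntA G T u v = 0 ∧ cntA G T v u = 0 then
        W1 (cntK G T u v) (cntK G T v u) else 0)) := by
      rw [← ev_const_mul, ← ev_const_mul, ← ev_const_mul, ← ev_const_mul, ← ev_add, ← ev_add, ← ev_add]
      refine ev_mono (pr_mem hx hl0 hl1) fun T _ => ?_
      by_cases hT : Sum.inl s(u, v) ∈ T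
      · rw [if_pos hT]
        have hw := fn3_W1 (cntK G T u v) (cntK G T v u)
        unfold fH
        by_cases c1 : lf G T u v
        · simp [c1]
        by_cases c2 : lf G T v u
        · simp [c2]
        by_cases c3 : cntA G T u v = 0
        · by_cases c4 : cntA G T v u = 0
          · simp only [c1, c2, c3, c4, not_false_eq_true, and_self, if_true, if_false, sub_zero, one_mul, zero_add, Nat.reduceAdd]
            linarith
          · simp [c4]
        · simp [c3]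
      · rw [if_neg hT]
        simp
    refine le_trans ?_ key
    have hmul : (1 - Real.exp (-t)) * (1 / 2 * tau lam t 1 ^ 2 + 1 / 6 * tau lam t 2 ^ 2 + 1 / 12 * tau lam t 3 ^ 2 +
      1 / 4 * tau lam t 4 ^ 2) = 1 / 2 * ((1 - Real.exp (-t)) * tau lam t (0 + 1) ^ 2) + 1 / 6 * ((1 - Real.exp (-t)) * tau lam t (1 + 1) ^ 2) +
      1 / 12 * ((1 - Real.exp (-t)) * tau lam t (2 + 1) ^ 2) + 1 / 4 * ((1 - Real.exp (-t)) * tau lam t (3 + 1) ^ 2) := by
      ring
    rw [hmul]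
    linarith
  have h1 := low_general hG hx hl0 hl1 hW0 hW0' hWa hz hz0 huv hxe _ hR
  refine le_trans (le_of_eq ?_) h1
  unfold low1
  ring

end Pool.Agent.Lib.MP_7470b6_lc.Crs
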