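import Pool.Agent.Lib.MP_7470b6_lc.Crs.NM0
import Pool.Agent.Lib.MP_7470b6_lc.Crs.FinD

/-!
# Job NM1
-/

open Finset

namespace Pool.Agent.Lib.MP_7470b6_lc.Crs

private theorem nm1_D (t : ℝ) : ((-(0.3678 * (1 - t))) ^ 0 / 1 + (-(0.3678 * (1 - t))) ^ 1 / 2 + (-(0.3678 * (1 - t))) ^ 2 / 6 + (-(0.3678 * (1 - t))) ^ 3 / 24) -
    ((-(1 - t)) ^ 0 / 1 + (-(1 - t)) ^ 1 / 1 + (-(1 - t)) ^ 2 / 2 + (-(1 - t)) ^ 3 / 6 + (-(1 - t)) ^ 4 / 24 + (-(1 - t)) ^ 5 / 120 + (-(1 - t)) ^ 6 / 720) * (1 / 2 * 1 + 1 / 6 * (1 + (0.6322 * (1 - t))) + 1 / 12 * (1 + (0.6322 * (1 - t)) + (0.6322 * (1 - t)) ^ 2 / 2) + 1 / 4 * (1 + (0.6322 * (1 - t)) + (0.6322 * (1 - t)) ^ 2 / 2 + (0.6322 * (1 - t)) ^ 3 / 6)) =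
      139874232927571 / 432000000000000 * (t ^ 0 * (1 - t) ^ 9) +
      2943237814002473 / 1080000000000000 * (t ^ 1 * (1 - t) ^ 8) +
      240980670217433 / 24000000000000 * (t ^ 2 * (1 - t) ^ 7) +
      380886147726769 / 18000000000000 * (t ^ 3 * (1 - t) ^ 6) +
      502250082051587 / 18000000000000 * (t ^ 4 * (1 - t) ^ 5) +
      23576707627427 / 1000000000000 * (t ^ 5 * (1 - t) ^ 4) +
      2493372307 / 200000000 * (t ^ 6 * (1 - t) ^ 3) +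
      113161 / 30000 * (t ^ 7 * (1 - t) ^ 2) +
      1 / 2 * (t ^ 8 * (1 - t) ^ 1) := by
  ring

private theorem nm1_P (t : ℝ) : 2 * (0.3678 - 0.3678 ^ 2 * t / 2) * (((-(0.3678 * (1 - t))) ^ 0 / 1 + (-(0.3678 * (1 - t))) ^ 1 / 2 + (-(0.3678 * (1 - t))) ^ 2 / 6 + (-(0.3678 * (1 - t))) ^ 3 / 24) -
    ((-(1 - t)) ^ 0 / 1 + (-(1 - t)) ^ 1 / 1 + (-(1 - t)) ^ 2 / 2 + (-(1 - t)) ^ 3 / 6 + (-(1 - t)) ^ 4 / 24 + (-(1 - t)) ^ 5 / 120 + (-(1 - t)) ^ 6 / 720) * (1 / 2 * 1 + 1 / 6 * (1 + (0.6322 * (1 - t))) + 1 / 12 * (1 + (0.6322 * (1 - t)) + (0.6322 * (1 - t)) ^ 2 / 2) + 1 / 4 * (1 + (0.6322 * (1 - t)) + (0.6322 * (1 - t)) ^ 2 / 2 + (0.6322 * (1 - t)) ^ 3 / 6))) +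
    (1 - t / 2 + t ^ 2 / 6 - t ^ 3 / 24) * (((-(2 * (1 - t))) ^ 0 / 1 + (-(2 * (1 - t))) ^ 1 / 1 + (-(2 * (1 - t))) ^ 2 / 2 + (-(2 * (1 - t))) ^ 3 / 6 + (-(2 * (1 - t))) ^ 4 / 24 + (-(2 * (1 - t))) ^ 5 / 120 + (-(2 * (1 - t))) ^ 6 / 720 + (-(2 * (1 - t))) ^ 7 / 5040 + (-(2 * (1 - t))) ^ 8 / 40320 + (-(2 * (1 - t))) ^ 9 / 362880) * (1 / 2 * 1 ^ 2 + 1 / 6 * (1 + (0.6322 * (1 - t))) ^ 2 + 1 / 12 * (1 + (0.6322 * (1 - t)) + (0.6322 * (1 - t)) ^ 2 / 2) ^ 2 + 1 / 4 * (1 + (0.6322 * (1 - t)) + (0.6322 * (1 - t)) ^ 2 / 2 + (0.6322 * (1 - t)) ^ 3 / 6) ^ 2)) - 0.522 =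
      793321969858137664634063 / 6378750000000000000000000000 * (t ^ 0 * (1 - t) ^ 18) +
      28676115950624837761664761 / 1822500000000000000000000000 * (t ^ 1 * (1 - t) ^ 17) +
      5012610183550558677617898511 / 19136250000000000000000000000 * (t ^ 2 * (1 - t) ^ 16) +
      38880225018032365759658802101 / 17010000000000000000000000000 * (t ^ 3 * (1 - t) ^ 15) +
      662307672729309537307698436849 / 51030000000000000000000000000 * (t ^ 4 * (1 - t) ^ 14) +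
      445017035799073520541110270497 / 8505000000000000000000000000 * (t ^ 5 * (1 - t) ^ 13) +
      572640625452489316856200722829 / 3645000000000000000000000000 * (t ^ 6 * (1 - t) ^ 12) +
      205221834246200320341929399329 / 567000000000000000000000000 * (t ^ 7 * (1 - t) ^ 11) +
      1109453919829239984583209622319 / 1701000000000000000000000000 * (t ^ 8 * (1 - t) ^ 10) +
      527400052061453094621938775419 / 567000000000000000000000000 * (t ^ 9 * (1 - t) ^ 9) +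
      7390357805752320856518903077 / 7000000000000000000000000 * (t ^ 10 * (1 - t) ^ 8) +
      360607868865548568063138694139 / 378000000000000000000000000 * (t ^ 11 * (1 - t) ^ 7) +
      7371917063231628301037808883 / 10800000000000000000000000 * (t ^ 12 * (1 - t) ^ 6) +
      137565650238841192671343 / 360000000000000000000 * (t ^ 13 * (1 - t) ^ 5) +
      12293877396029136820699 / 75000000000000000000 * (t ^ 14 * (1 - t) ^ 4) +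
      2342067871445278027 / 45000000000000000 * (t ^ 15 * (1 - t) ^ 3) +
      33775283099 / 2929687500 * (t ^ 16 * (1 - t) ^ 2) +
      238642987 / 150000000 * (t ^ 17 * (1 - t) ^ 1) +
      103 / 1000 * (t ^ 18 * (1 - t) ^ 0) := by
  ring

private theorem nm1_fac : (Nat.factorial 0 = 1) ∧ (Nat.factorial 1 = 1) ∧ (Nat.factorial 2 = 2) ∧
    (Nat.factorial 3 = 6) ∧ (Nat.factorial 4 = 24) ∧ (Nat.factorial 5 = 120) ∧
    (Nat.factorial 6 = 720) ∧ (Nat.factorial 7 = 5040) ∧ (Nat.factorial 8 = 40320) ∧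
    (Nat.factorial 9 = 362880) ∧ (Nat.factorial 10 = 3628800) ∧
    (Nat.factorial 11 = 39916800) := by
  decide

private theorem nm1_A {t : ℝ} (h0 : 0 ≤ t) :
    t * (0.3678 - 0.3678 ^ 2 * t / 2) ≤ 1 - Real.exp (-(0.3678 * t)) := by
  have hA := taylor_even 1 (y := 0.3678 * t) (by positivity)
  obtain ⟨f0, f1, f2, f3, f4, f5, f6, f7, f8, f9, f10, f11⟩ := nm1_fac
  simp only [Finset.sum_range_succ, Finset.sum_range_zero, f0, f1, f2] at hA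
  push_cast at hA
  linear_combination hA

private theorem nm1_B {t : ℝ} (h0 : 0 ≤ t) :
    t * (1 - t / 2 + t ^ 2 / 6 - t ^ 3 / 24) ≤ 1 - Real.exp (-t) := by
  have hA := taylor_even 2 (y := t) h0
  obtain ⟨f0, f1, f2, f3, f4, f5, f6, f7, f8, f9, f10, f11⟩ := nm1_fac
  simp only [Finset.sum_range_succ, Finset.sum_range_zero, f0, f1, f2, f3, f4] at hA
  push_cast at hA
  linear_combination hA

private theorem nm1_C {t : ℝ} (h1 : t ≤ 1) (h0 : 0 ≤ t) :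
    0 ≤ 1 - t / 2 + t ^ 2 / 6 - t ^ 3 / 24 := by
  have h2 : t ^ 3 ≤ t ^ 2 := by nlinarith [sq_nonneg t]
  nlinarith [sq_nonneg t]

private theorem nm1_E1 {t : ℝ} (h1 : t ≤ 1) : Real.exp (-(1 - t)) ≤
    (-(1 - t)) ^ 0 / 1 + (-(1 - t)) ^ 1 / 1 + (-(1 - t)) ^ 2 / 2 + (-(1 - t)) ^ 3 / 6 + (-(1 - t)) ^ 4 / 24 + (-(1 - t)) ^ 5 / 120 + (-(1 - t)) ^ 6 / 720 := by
  have hA := taylor_even 3 (y := 1 - t) (by linarith)
  obtain ⟨f0, f1, f2, f3, f4, f5, f6, f7, f8, f9, f10, f11⟩ := nm1_fac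
  simp only [Finset.sum_range_succ, Finset.sum_range_zero, f0, f1, f2, f3, f4, f5, f6] at hA
  push_cast at hA
  linear_combination hA

private theorem nm1_E2 {t : ℝ} (h1 : t ≤ 1) :
    (-(2 * (1 - t))) ^ 0 / 1 + (-(2 * (1 - t))) ^ 1 / 1 + (-(2 * (1 - t))) ^ 2 / 2 + (-(2 * (1 - t))) ^ 3 / 6 + (-(2 * (1 - t))) ^ 4 / 24 + (-(2 * (1 - t))) ^ 5 / 120 + (-(2 * (1 - t))) ^ 6 / 720 + (-(2 * (1 - t))) ^ 7 / 5040 + (-(2 * (1 - t))) ^ 8 / 40320 + (-(2 * (1 - t))) ^ 9 / 362880 ≤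
      Real.exp (-(1 - t)) ^ 2 := by
  have hA := taylor_odd 4 (y := 2 * (1 - t)) (by linarith)
  obtain ⟨f0, f1, f2, f3, f4, f5, f6, f7, f8, f9, f10, f11⟩ := nm1_fac
  simp only [Finset.sum_range_succ, Finset.sum_range_zero, f0, f1, f2, f3, f4, f5, f6, f7, f8,
    f9] at hA
  have h2 : Real.exp (-(1 - t)) ^ 2 = Real.exp (-(2 * (1 - t))) := by
    rw [← Real.exp_nat_mul]
    congr 1
    push_cast
    ring
  rw [h2]
  push_cast at hA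
  linear_combination hA

private theorem nm1_J {t : ℝ} (h1 : t ≤ 1) :
    (-(0.3678 * (1 - t))) ^ 0 / 1 + (-(0.3678 * (1 - t))) ^ 1 / 2 + (-(0.3678 * (1 - t))) ^ 2 / 6 + (-(0.3678 * (1 - t))) ^ 3 / 24 ≤ ∫ s in (0 : ℝ)..1, Real.exp (-(0.3678 * (1 - t) * s)) := by
  have hc : ∀ f : ℝ → ℝ, Continuous f → IntervalIntegrable f MeasureTheory.volume 0 1 :=
    fun f hf => hf.intervalIntegrable 0 1
  have h2 : ∫ s in (0 : ℝ)..1, ∑ j ∈ Finset.range (2 * 1 + 2),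
      (-(0.3678 * (1 - t))) ^ j / (j.factorial : ℝ) * s ^ j ≤
        ∫ s in (0 : ℝ)..1, Real.exp (-(0.3678 * (1 - t) * s)) := by
    refine intervalIntegral.integral_mono_on zero_le_one (hc _ (by fun_prop))
      (hc _ (by fun_prop)) ?_
    intro s hs
    have h3 : 0 ≤ 0.3678 * (1 - t) * s :=
      mul_nonneg (mul_nonneg (by norm_num) (by linarith)) hs.1
    refine le_trans (le_of_eq ?_) (taylor_odd 1 h3)
    refine Finset.sum_congr rfl fun j _ => ?_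
    rw [show -(0.3678 * (1 - t) * s) = (-(0.3678 * (1 - t))) * s by ring, mul_pow]
    ring
  refine le_trans (le_of_eq ?_) h2
  rw [intervalIntegral.integral_finsetSum fun j _ => hc _ (by fun_prop)]
  obtain ⟨f0, f1, f2, f3, f4, f5, f6, f7, f8, f9, f10, f11⟩ := nm1_fac
  simp only [Finset.sum_range_succ, Finset.sum_range_zero, f0, f1, f2, f3,
    intervalIntegral.integral_const_mul, integral_pow]
  norm_num
  ring

/-- Job NM1. -/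
theorem low1_expand {lam t : ℝ} (ht : 0 < t) :
    low1 lam t = 2 * (1 - Real.exp (-(lam * t))) *
        ((∫ s in (0 : ℝ)..1, Real.exp (-(lam * (1 - t) * s))) -
          Real.exp (-(1 - t)) * (1 / 2 * SS 1 ((1 - lam) * (1 - t)) +
            1 / 6 * SS 2 ((1 - lam) * (1 - t)) + 1 / 12 * SS 3 ((1 - lam) * (1 - t)) +
            1 / 4 * SS 4 ((1 - lam) * (1 - t)))) +
      (1 - Real.exp (-t)) * (Real.exp (-(1 - t)) ^ 2 * (1 / 2 * SS 1 ((1 - lam) * (1 - t)) ^ 2 +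
            1 / 6 * SS 2 ((1 - lam) * (1 - t)) ^ 2 + 1 / 12 * SS 3 ((1 - lam) * (1 - t)) ^ 2 +
            1 / 4 * SS 4 ((1 - lam) * (1 - t)) ^ 2)) := by
  have hk : 1 - Real.exp (-t) ≠ 0 := by
    have := Real.exp_lt_one_iff.mpr (show -t < 0 by linarith)
    linarith
  have h3 : (1 - Real.exp (-t)) * eta lam t = 1 - Real.exp (-(lam * t)) := by
    unfold eta
    field_simp
  unfold low1 tau
  rw [← h3]
  ring

/-- Job NM1. -/
theorem num1 {t : ℝ} (h0 : 0 < t) (h1 : t ≤ 1) : 0.522 * t ≤ low1 0.3678 t := by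
  rw [low1_expand h0]
  have hm : (0 : ℝ) ≤ 1 - t := by linarith
  have hA := nm1_A h0.le
  have hB := nm1_B h0.le
  have hE1 := nm1_E1 h1
  have hE2 := nm1_E2 h1
  have hJ := nm1_J h1
  have hD := nm1_D t
  have hP := nm1_P t
  have hS : ∀ y : ℝ, SS 1 y = 1 ∧ SS 2 y = 1 + y ∧ SS 3 y = 1 + y + y ^ 2 / 2 ∧
      SS 4 y = 1 + y + y ^ 2 / 2 + y ^ 3 / 6 := by
    intro y
    refine ⟨?_, ?_, ?_, ?_⟩ <;> simp [SS, Finset.sum_range_succ, Nat.factorial]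
  obtain ⟨s1, s2, s3, s4⟩ := hS ((1 - 0.3678) * (1 - t))
  rw [s1, s2, s3, s4]
  have hk : (1 - 0.3678 : ℝ) * (1 - t) = 0.6322 * (1 - t) := by ring
  rw [hk]
  set J : ℝ := ∫ s in (0 : ℝ)..1, Real.exp (-(0.3678 * (1 - t) * s)) with hJd
  set E : ℝ := Real.exp (-(1 - t)) with hEd
  set p : ℝ := 1 / 2 * 1 + 1 / 6 * (1 + (0.6322 * (1 - t))) + 1 / 12 * (1 + (0.6322 * (1 - t)) + (0.6322 * (1 - t)) ^ 2 / 2) + 1 / 4 * (1 + (0.6322 * (1 - t)) + (0.6322 * (1 - t)) ^ 2 / 2 + (0.6322 * (1 - t)) ^ 3 / 6) with hp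
  set q : ℝ := 1 / 2 * 1 ^ 2 + 1 / 6 * (1 + (0.6322 * (1 - t))) ^ 2 + 1 / 12 * (1 + (0.6322 * (1 - t)) + (0.6322 * (1 - t)) ^ 2 / 2) ^ 2 + 1 / 4 * (1 + (0.6322 * (1 - t)) + (0.6322 * (1 - t)) ^ 2 / 2 + (0.6322 * (1 - t)) ^ 3 / 6) ^ 2 with hq
  set Jp : ℝ := (-(0.3678 * (1 - t))) ^ 0 / 1 + (-(0.3678 * (1 - t))) ^ 1 / 2 + (-(0.3678 * (1 - t))) ^ 2 / 6 + (-(0.3678 * (1 - t))) ^ 3 / 24 with hJp
  set E1 : ℝ := (-(1 - t)) ^ 0 / 1 + (-(1 - t)) ^ 1 / 1 + (-(1 - t)) ^ 2 / 2 + (-(1 - t)) ^ 3 / 6 + (-(1 - t)) ^ 4 / 24 + (-(1 - t)) ^ 5 / 120 + (-(1 - t)) ^ 6 / 720 with hE1d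
  set E2 : ℝ := (-(2 * (1 - t))) ^ 0 / 1 + (-(2 * (1 - t))) ^ 1 / 1 + (-(2 * (1 - t))) ^ 2 / 2 + (-(2 * (1 - t))) ^ 3 / 6 + (-(2 * (1 - t))) ^ 4 / 24 + (-(2 * (1 - t))) ^ 5 / 120 + (-(2 * (1 - t))) ^ 6 / 720 + (-(2 * (1 - t))) ^ 7 / 5040 + (-(2 * (1 - t))) ^ 8 / 40320 + (-(2 * (1 - t))) ^ 9 / 362880 with hE2d
  have hp0 : 0 ≤ p := by rw [hp]; positivity
  have hq0 : 0 ≤ q := by rw [hq]; positivity
  have hDpos : 0 ≤ Jp - E1 * p := by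
    rw [hD]
    positivity
  have hPpos : 0 ≤ 2 * (0.3678 - 0.3678 ^ 2 * t / 2) * (Jp - E1 * p) +
      (1 - t / 2 + t ^ 2 / 6 - t ^ 3 / 24) * (E2 * q) - 0.522 := by
    rw [hP]
    positivity
  have hA0 : 0 ≤ 1 - Real.exp (-(0.3678 * t)) := by
    have := Real.exp_le_one_iff.mpr (show -(0.3678 * t) ≤ 0 by linarith)
    linarith
  have hB0 : 0 ≤ 1 - Real.exp (-t) := by
    have := Real.exp_le_one_iff.mpr (show -t ≤ 0 by linarith)
    linarith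
  have k1 : t * (0.3678 - 0.3678 ^ 2 * t / 2) * (Jp - E1 * p) ≤
      (1 - Real.exp (-(0.3678 * t))) * (J - E * p) := by
    refine mul_le_mul hA ?_ hDpos hA0
    have := mul_le_mul_of_nonneg_right hE1 hp0
    linarith
  have k2 : t * (1 - t / 2 + t ^ 2 / 6 - t ^ 3 / 24) * (E2 * q) ≤
      (1 - Real.exp (-t)) * (E ^ 2 * q) := by
    refine le_trans (mul_le_mul_of_nonneg_left (mul_le_mul_of_nonneg_right hE2 hq0) ?_)
      (mul_le_mul_of_nonneg_right hB ?_)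
    · exact mul_nonneg h0.le (nm1_C h1 h0.le)
    · positivity
  have k3 := mul_nonneg h0.le hPpos
  clear_value Jp E1 E2 J E p q
  clear hJ hE1 hE2 hD hP hDpos hPpos
  linear_combination 2 * k1 + k2 + k3

end Pool.Agent.Lib.MP_7470b6_lc.Crs
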