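import Pool.Agent.Lib.MP_7470b6_lc.Crs.NM0
import Pool.Agent.Lib.MP_7470b6_lc.Crs.FinD

/-!
# Job NM4
-/

open Finset

namespace Pool.Agent.Lib.MP_7470b6_lc.Crs

private theorem nm4_ii {f : ℝ → ℝ} (hf : Continuous f) :
    IntervalIntegrable f MeasureTheory.volume 0 1 := hf.intervalIntegrable 0 1

private theorem nm4_int_le (n : ℕ) {a : ℝ} (ha : 0 ≤ a) {g : ℝ → ℝ} (hg : Continuous g)
    (hg0 : ∀ s ∈ Set.Icc (0 : ℝ) 1, 0 ≤ g s) :
    ∫ s in (0 : ℝ)..1, Real.exp (-(a * g s)) ≤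
      ∑ j ∈ Finset.range (2 * n + 1), (-a) ^ j / (j.factorial : ℝ) * ∫ s in (0 : ℝ)..1, g s ^ j := by
  have h1 : ∫ s in (0 : ℝ)..1, Real.exp (-(a * g s)) ≤
      ∫ s in (0 : ℝ)..1, ∑ j ∈ Finset.range (2 * n + 1),
        (-a) ^ j / (j.factorial : ℝ) * g s ^ j := by
    refine intervalIntegral.integral_mono_on zero_le_one (nm4_ii (by fun_prop))
      (nm4_ii (by fun_prop)) ?_
    intro s hs
    refine (taylor_even n (mul_nonneg ha (hg0 s hs))).trans (le_of_eq ?_)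
    refine Finset.sum_congr rfl fun j _ => ?_
    rw [← neg_mul, mul_pow]
    ring
  refine h1.trans (le_of_eq ?_)
  rw [intervalIntegral.integral_finsetSum fun j _ => nm4_ii (by fun_prop)]
  refine Finset.sum_congr rfl fun j _ => ?_
  rw [intervalIntegral.integral_const_mul]

private theorem nm4_le_int (n : ℕ) {a : ℝ} (ha : 0 ≤ a) {g : ℝ → ℝ} (hg : Continuous g)
    (hg0 : ∀ s ∈ Set.Icc (0 : ℝ) 1, 0 ≤ g s) :
    ∑ j ∈ Finset.range (2 * n + 2), (-a) ^ j / (j.factorial : ℝ) * ∫ s in (0 : ℝ)..1, g s ^ j ≤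
      ∫ s in (0 : ℝ)..1, Real.exp (-(a * g s)) := by
  have h1 : ∫ s in (0 : ℝ)..1, ∑ j ∈ Finset.range (2 * n + 2),
        (-a) ^ j / (j.factorial : ℝ) * g s ^ j ≤
      ∫ s in (0 : ℝ)..1, Real.exp (-(a * g s)) := by
    refine intervalIntegral.integral_mono_on zero_le_one (nm4_ii (by fun_prop))
      (nm4_ii (by fun_prop)) ?_
    intro s hs
    refine le_trans (le_of_eq ?_) (taylor_odd n (mul_nonneg ha (hg0 s hs)))
    refine Finset.sum_congr rfl fun j _ => ?_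
    rw [← neg_mul, mul_pow]
    ring
  refine le_trans (le_of_eq ?_) h1
  rw [intervalIntegral.integral_finsetSum fun j _ => nm4_ii (by fun_prop)]
  refine Finset.sum_congr rfl fun j _ => ?_
  rw [intervalIntegral.integral_const_mul]

private theorem nm4_mom (j : ℕ) : ∫ s in (0 : ℝ)..1, s ^ j = 1 / ((j : ℝ) + 1) := by
  rw [integral_pow]
  simp

private theorem nm4_momk (j : ℕ) : ∫ s in (0 : ℝ)..1, (1 - 0.6322 * s) ^ j =
    (1 - 0.3678 ^ (j + 1)) / (0.6322 * ((j : ℝ) + 1)) := by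
  have h := intervalIntegral.integral_comp_sub_mul (a := (0 : ℝ)) (b := 1)
    (fun y : ℝ => y ^ j) (c := 0.6322) (by norm_num) 1
  rw [h, integral_pow, smul_eq_mul]
  have h0 : ((j : ℝ) + 1) ≠ 0 := by positivity
  norm_num
  field_simp

private theorem nm4_D (t : ℝ) : ((-(0.3678 * (1 - t))) ^ 0 / 1 + (-(0.3678 * (1 - t))) ^ 1 / 2 + (-(0.3678 * (1 - t))) ^ 2 / 6 + (-(0.3678 * (1 - t))) ^ 3 / 24 + (-(0.3678 * (1 - t))) ^ 4 / 120 + (-(0.3678 * (1 - t))) ^ 5 / 720) -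
    ((-(1 - t)) ^ 0 / 1 * ((1 - 0.3678 ^ 1) / (0.6322 * 1)) + (-(1 - t)) ^ 1 / 1 * ((1 - 0.3678 ^ 2) / (0.6322 * 2)) + (-(1 - t)) ^ 2 / 2 * ((1 - 0.3678 ^ 3) / (0.6322 * 3)) + (-(1 - t)) ^ 3 / 6 * ((1 - 0.3678 ^ 4) / (0.6322 * 4)) + (-(1 - t)) ^ 4 / 24 * ((1 - 0.3678 ^ 5) / (0.6322 * 5)) + (-(1 - t)) ^ 5 / 120 * ((1 - 0.3678 ^ 6) / (0.6322 * 6)) + (-(1 - t)) ^ 6 / 720 * ((1 - 0.3678 ^ 7) / (0.6322 * 7)) + (-(1 - t)) ^ 7 / 5040 * ((1 - 0.3678 ^ 8) / (0.6322 * 8)) + (-(1 - t)) ^ 8 / 40320 * ((1 - 0.3678 ^ 9) / (0.6322 * 9))) =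
      45873800968901702365212212299801919 / 141750000000000000000000000000000000 * (t ^ 0 * (1 - t) ^ 8) +
      839838451710798317356913920031 / 350000000000000000000000000000 * (t ^ 1 * (1 - t) ^ 7) +
      601285643886328043201312039 / 78750000000000000000000000 * (t ^ 2 * (1 - t) ^ 6) +
      6082816389751965241 / 450000000000000000 * (t ^ 3 * (1 - t) ^ 5) +
      71903503722427 / 5000000000000 * (t ^ 4 * (1 - t) ^ 4) +
      5516896921 / 600000000 * (t ^ 5 * (1 - t) ^ 3) +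
      98161 / 30000 * (t ^ 6 * (1 - t) ^ 2) +
      1 / 2 * (t ^ 7 * (1 - t) ^ 1) := by
  ring

private theorem nm4_P (t : ℝ) : 2 * (0.3678 - 0.3678 ^ 2 * t / 2) * (((-(0.3678 * (1 - t))) ^ 0 / 1 + (-(0.3678 * (1 - t))) ^ 1 / 2 + (-(0.3678 * (1 - t))) ^ 2 / 6 + (-(0.3678 * (1 - t))) ^ 3 / 24 + (-(0.3678 * (1 - t))) ^ 4 / 120 + (-(0.3678 * (1 - t))) ^ 5 / 720) -
    ((-(1 - t)) ^ 0 / 1 * ((1 - 0.3678 ^ 1) / (0.6322 * 1)) + (-(1 - t)) ^ 1 / 1 * ((1 - 0.3678 ^ 2) / (0.6322 * 2)) + (-(1 - t)) ^ 2 / 2 * ((1 - 0.3678 ^ 3) / (0.6322 * 3)) + (-(1 - t)) ^ 3 / 6 * ((1 - 0.3678 ^ 4) / (0.6322 * 4)) + (-(1 - t)) ^ 4 / 24 * ((1 - 0.3678 ^ 5) / (0.6322 * 5)) + (-(1 - t)) ^ 5 / 120 * ((1 - 0.3678 ^ 6) / (0.6322 * 6)) + (-(1 - t)) ^ 6 / 720 * ((1 - 0.3678 ^ 7) / (0.6322 * 7)) + (-(1 - t)) ^ 7 / 5040 * ((1 - 0.3678 ^ 8) / (0.6322 * 8)) + (-(1 - t)) ^ 8 / 40320 * ((1 - 0.3678 ^ 9) / (0.6322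 * 9)))) +
    (1 - t / 2 + t ^ 2 / 6 - t ^ 3 / 24) * ((-(2 * (1 - t))) ^ 0 / 1 * ((1 - 0.3678 ^ 1) / (0.6322 * 1)) + (-(2 * (1 - t))) ^ 1 / 1 * ((1 - 0.3678 ^ 2) / (0.6322 * 2)) + (-(2 * (1 - t))) ^ 2 / 2 * ((1 - 0.3678 ^ 3) / (0.6322 * 3)) + (-(2 * (1 - t))) ^ 3 / 6 * ((1 - 0.3678 ^ 4) / (0.6322 * 4)) + (-(2 * (1 - t))) ^ 4 / 24 * ((1 - 0.3678 ^ 5) / (0.6322 * 5)) + (-(2 * (1 - t))) ^ 5 / 120 * ((1 - 0.3678 ^ 6) / (0.6322 * 6)) + (-(2 * (1 - t))) ^ 6 / 720 * ((1 - 0.3678 ^ 7) / (0.6322 * 7)) + (-(2 * (1 - t))) ^ 7 / 5040 * ((1 - 0.3678 ^ 8) / (0.6322 * 8)) + (-(2 * (1 - t))) ^ 8 / 40320 * ((1 - 0.3678 ^ 9) / (0.6322 * 9)) + (-(2 * (1 - t))) ^ 9 / 362880 * ((1 - 0.3678 ^ 10) / (0.6322 * 10)) + (-(2 * (1 - t))) ^ 10 / 3628800 * ((1 - 0.3678 ^ 11) / (0.6322 * 11)) + (-(2 * (1 - t))) ^ 11 / 39916800 * ((1 - 0.3678 ^ 12) / (0.6322 * 12))) - 0.51 =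
      692927039215718986473257136896773625808647 / 22840576171875000000000000000000000000000000000 * (t ^ 0 * (1 - t) ^ 14) +
      188001223002993535313419414503937766732179543 / 10441406250000000000000000000000000000000000000 * (t ^ 1 * (1 - t) ^ 13) +
      313046207380032540349981635926589473319875346163 / 1096347656250000000000000000000000000000000000000 * (t ^ 2 * (1 - t) ^ 12) +
      75513796159300216034815639748029882971077029147 / 36544921875000000000000000000000000000000000000 * (t ^ 3 * (1 - t) ^ 11) +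
      527008253749782098593034298339668492914121861 / 58471875000000000000000000000000000000000000 * (t ^ 4 * (1 - t) ^ 10) +
      56322344908110586405138852273177863357362803 / 2126250000000000000000000000000000000000000 * (t ^ 5 * (1 - t) ^ 9) +
      196676569963795920101175029561155351493928601 / 3543750000000000000000000000000000000000000 * (t ^ 6 * (1 - t) ^ 8) +
      2882814189054915329775120222326531674589 / 33750000000000000000000000000000000000 * (t ^ 7 * (1 - t) ^ 7) +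
      578156317920402420528118097329889243 / 5906250000000000000000000000000000 * (t ^ 8 * (1 - t) ^ 6) +
      313528313851603569434044013 / 3750000000000000000000000 * (t ^ 9 * (1 - t) ^ 5) +
      59172095427498627164597 / 1125000000000000000000 * (t ^ 10 * (1 - t) ^ 4) +
      1066502085212449277 / 45000000000000000 * (t ^ 11 * (1 - t) ^ 3) +
      5433887980219 / 750000000000 * (t ^ 12 * (1 - t) ^ 2) +
      202042987 / 150000000 * (t ^ 13 * (1 - t) ^ 1) +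
      23 / 200 * (t ^ 14 * (1 - t) ^ 0) := by
  ring

private theorem nm4_fac : (Nat.factorial 0 = 1) ∧ (Nat.factorial 1 = 1) ∧ (Nat.factorial 2 = 2) ∧
    (Nat.factorial 3 = 6) ∧ (Nat.factorial 4 = 24) ∧ (Nat.factorial 5 = 120) ∧
    (Nat.factorial 6 = 720) ∧ (Nat.factorial 7 = 5040) ∧ (Nat.factorial 8 = 40320) ∧
    (Nat.factorial 9 = 362880) ∧ (Nat.factorial 10 = 3628800) ∧
    (Nat.factorial 11 = 39916800) := by
  decide

private theorem nm4_A {t : ℝ} (h0 : 0 ≤ t) :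
    t * (0.3678 - 0.3678 ^ 2 * t / 2) ≤ 1 - Real.exp (-(0.3678 * t)) := by
  have hA := taylor_even 1 (y := 0.3678 * t) (by positivity)
  obtain ⟨f0, f1, f2, f3, f4, f5, f6, f7, f8, f9, f10, f11⟩ := nm4_fac
  simp only [Finset.sum_range_succ, Finset.sum_range_zero, f0, f1, f2] at hA
  push_cast at hA
  linear_combination hA

private theorem nm4_B {t : ℝ} (h0 : 0 ≤ t) :
    t * (1 - t / 2 + t ^ 2 / 6 - t ^ 3 / 24) ≤ 1 - Real.exp (-t) := by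
  have hA := taylor_even 2 (y := t) h0
  obtain ⟨f0, f1, f2, f3, f4, f5, f6, f7, f8, f9, f10, f11⟩ := nm4_fac
  simp only [Finset.sum_range_succ, Finset.sum_range_zero, f0, f1, f2, f3, f4] at hA
  push_cast at hA
  linear_combination hA

private theorem nm4_C {t : ℝ} (h0 : 0 ≤ t) (h1 : t ≤ 1) :
    0 ≤ 1 - t / 2 + t ^ 2 / 6 - t ^ 3 / 24 := by
  have h2 : t ^ 3 ≤ t ^ 2 := by nlinarith [sq_nonneg t]
  nlinarith [sq_nonneg t]

/-- Job NM4. -/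
theorem low4_expand {lam t : ℝ} (ht : 0 < t) :
    low4 lam t = 2 * (1 - Real.exp (-(lam * t))) *
        ((∫ s in (0 : ℝ)..1, Real.exp (-(lam * (1 - t) * s))) -
          ∫ s in (0 : ℝ)..1, Real.exp (-((1 - t) * (1 - (1 - lam) * s)))) +
      (1 - Real.exp (-t)) * ∫ s in (0 : ℝ)..1, Real.exp (-((1 - t) * (1 - (1 - lam) * s))) ^ 2 := by
  have hk : 1 - Real.exp (-t) ≠ 0 := by
    have := Real.exp_lt_one_iff.mpr (show -t < 0 by linarith)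
    linarith
  have h1 : ∫ s in (0 : ℝ)..1, (Real.exp (-((1 - t) * (1 - (1 - lam) * s))) - eta lam t) ^ 2 =
      (∫ s in (0 : ℝ)..1, Real.exp (-((1 - t) * (1 - (1 - lam) * s))) ^ 2) -
        2 * eta lam t * (∫ s in (0 : ℝ)..1, Real.exp (-((1 - t) * (1 - (1 - lam) * s)))) +
        eta lam t ^ 2 := by
    have h2 : ∀ s : ℝ, (Real.exp (-((1 - t) * (1 - (1 - lam) * s))) - eta lam t) ^ 2 =
        Real.exp (-((1 - t) * (1 - (1 - lam) * s))) ^ 2 -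
          2 * eta lam t * Real.exp (-((1 - t) * (1 - (1 - lam) * s))) + eta lam t ^ 2 := by
      intro s
      ring
    simp only [h2]
    rw [intervalIntegral.integral_add (nm4_ii (by fun_prop)) (nm4_ii (by fun_prop)),
      intervalIntegral.integral_sub (nm4_ii (by fun_prop)) (nm4_ii (by fun_prop)),
      intervalIntegral.integral_const_mul, intervalIntegral.integral_const]
    simp
  have h3 : (1 - Real.exp (-t)) * eta lam t = 1 - Real.exp (-(lam * t)) := by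
    unfold eta
    field_simp
  unfold low4
  rw [h1, ← h3]
  ring

/-- Job NM4. -/
theorem num4 {t : ℝ} (h0 : 0 < t) (h1 : t ≤ 1) : 0.51 * t ≤ low4 0.3678 t := by
  rw [low4_expand h0]
  have hm : (0 : ℝ) ≤ 1 - t := by linarith
  have hJ := nm4_le_int 2 (a := 0.3678 * (1 - t)) (by positivity) (g := fun s => s)
    continuous_id (fun s hs => hs.1)
  have hI1 := nm4_int_le 4 (a := 1 - t) hm (g := fun s => 1 - 0.6322 * s) (by fun_prop)
    (fun s hs => by nlinarith [hs.1, hs.2])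
  have hI2 := nm4_le_int 5 (a := 2 * (1 - t)) (by positivity) (g := fun s => 1 - 0.6322 * s)
    (by fun_prop) (fun s hs => by nlinarith [hs.1, hs.2])
  obtain ⟨f0, f1, f2, f3, f4, f5, f6, f7, f8, f9, f10, f11⟩ := nm4_fac
  simp only [nm4_mom, nm4_momk, Finset.sum_range_succ, Finset.sum_range_zero, f0, f1, f2, f3, f4,
    f5, f6, f7, f8, f9, f10, f11] at hJ hI1 hI2
  set J : ℝ := ∫ s in (0 : ℝ)..1, Real.exp (-(0.3678 * (1 - t) * s)) with hJd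
  have e1 : (∫ s in (0 : ℝ)..1, Real.exp (-((1 - t) * (1 - (1 - 0.3678) * s)))) =
      ∫ s in (0 : ℝ)..1, Real.exp (-((1 - t) * (1 - 0.6322 * s))) := by
    norm_num
  have e2 : (∫ s in (0 : ℝ)..1, Real.exp (-((1 - t) * (1 - (1 - 0.3678) * s))) ^ 2) =
      ∫ s in (0 : ℝ)..1, Real.exp (-(2 * (1 - t) * (1 - 0.6322 * s))) := by
    refine intervalIntegral.integral_congr fun s _ => ?_
    show Real.exp (-((1 - t) * (1 - (1 - 0.3678) * s))) ^ 2 =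
      Real.exp (-(2 * (1 - t) * (1 - 0.6322 * s)))
    rw [← Real.exp_nat_mul]
    congr 1
    push_cast
    ring
  rw [e1, e2]
  set I1 : ℝ := ∫ s in (0 : ℝ)..1, Real.exp (-((1 - t) * (1 - 0.6322 * s))) with hI1d
  set I2 : ℝ := ∫ s in (0 : ℝ)..1, Real.exp (-(2 * (1 - t) * (1 - 0.6322 * s))) with hI2d
  have hD := nm4_D t
  have hP := nm4_P t
  set Jp : ℝ := (-(0.3678 * (1 - t))) ^ 0 / 1 + (-(0.3678 * (1 - t))) ^ 1 / 2 + (-(0.3678 * (1 - t))) ^ 2 / 6 + (-(0.3678 * (1 - t))) ^ 3 / 24 + (-(0.3678 * (1 - t))) ^ 4 / 120 + (-(0.3678 * (1 - t))) ^ 5 / 720 with hJp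
  set I1p : ℝ := (-(1 - t)) ^ 0 / 1 * ((1 - 0.3678 ^ 1) / (0.6322 * 1)) + (-(1 - t)) ^ 1 / 1 * ((1 - 0.3678 ^ 2) / (0.6322 * 2)) + (-(1 - t)) ^ 2 / 2 * ((1 - 0.3678 ^ 3) / (0.6322 * 3)) + (-(1 - t)) ^ 3 / 6 * ((1 - 0.3678 ^ 4) / (0.6322 * 4)) + (-(1 - t)) ^ 4 / 24 * ((1 - 0.3678 ^ 5) / (0.6322 * 5)) + (-(1 - t)) ^ 5 / 120 * ((1 - 0.3678 ^ 6) / (0.6322 * 6)) + (-(1 - t)) ^ 6 / 720 * ((1 - 0.3678 ^ 7) / (0.6322 * 7)) + (-(1 - t)) ^ 7 / 5040 * ((1 - 0.3678 ^ 8) / (0.6322 * 8)) + (-(1 - t)) ^ 8 / 40320 * ((1 - 0.3678 ^ 9) / (0.6322 * 9)) with hI1p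
  set I2p : ℝ := (-(2 * (1 - t))) ^ 0 / 1 * ((1 - 0.3678 ^ 1) / (0.6322 * 1)) + (-(2 * (1 - t))) ^ 1 / 1 * ((1 - 0.3678 ^ 2) / (0.6322 * 2)) + (-(2 * (1 - t))) ^ 2 / 2 * ((1 - 0.3678 ^ 3) / (0.6322 * 3)) + (-(2 * (1 - t))) ^ 3 / 6 * ((1 - 0.3678 ^ 4) / (0.6322 * 4)) + (-(2 * (1 - t))) ^ 4 / 24 * ((1 - 0.3678 ^ 5) / (0.6322 * 5)) + (-(2 * (1 - t))) ^ 5 / 120 * ((1 - 0.3678 ^ 6) / (0.6322 * 6)) + (-(2 * (1 - t))) ^ 6 / 720 * ((1 - 0.3678 ^ 7) / (0.6322 * 7)) + (-(2 * (1 - t))) ^ 7 / 5040 * ((1 - 0.3678 ^ 8) / (0.6322 * 8)) + (-(2 * (1 - t))) ^ 8 / 40320 * ((1 - 0.3678 ^ 9) / (0.6322 * 9)) + (-(2 * (1 - t))) ^ 9 / 362880 * ((1 - 0.3678 ^ 10) / (0.6322 * 10)) + (-(2 * (1 - t))) ^ 10 / 3628800 * ((1 - 0.3678 ^ 11) / (0.6322 * 11)) + (-(2 * (1 - t))) ^ 11 / 39916800 * ((1 - 0.3678 ^ 12) / (0.6322 * 12)) with hI2p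
  have hJ' : Jp ≤ J := by
    refine le_trans (le_of_eq ?_) hJ
    rw [hJp]
    push_cast
    ring
  have hI1' : I1 ≤ I1p := by
    refine hI1.trans (le_of_eq ?_)
    rw [hI1p]
    push_cast
    ring
  have hI2' : I2p ≤ I2 := by
    refine le_trans (le_of_eq ?_) hI2
    rw [hI2p]
    push_cast
    ring
  have hDpos : 0 ≤ Jp - I1p := by
    rw [hD]
    positivity
  have hPpos : 0 ≤ 2 * (0.3678 - 0.3678 ^ 2 * t / 2) * (Jp - I1p) +
      (1 - t / 2 + t ^ 2 / 6 - t ^ 3 / 24) * I2p - 0.51 := by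
    rw [hP]
    positivity
  have hA' := nm4_A h0.le
  have hB' := nm4_B h0.le
  have hA0 : 0 ≤ 1 - Real.exp (-(0.3678 * t)) := by
    have := Real.exp_le_one_iff.mpr (show -(0.3678 * t) ≤ 0 by linarith)
    linarith
  have hB0 : 0 ≤ 1 - Real.exp (-t) := by
    have := Real.exp_le_one_iff.mpr (show -t ≤ 0 by linarith)
    linarith
  have hI2n : 0 ≤ I2 := intervalIntegral.integral_nonneg zero_le_one fun s _ => (Real.exp_pos _).le
  have k1 : t * (0.3678 - 0.3678 ^ 2 * t / 2) * (Jp - I1p) ≤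
      (1 - Real.exp (-(0.3678 * t))) * (J - I1) :=
    mul_le_mul hA' (by linarith) hDpos hA0
  have k2 : t * (1 - t / 2 + t ^ 2 / 6 - t ^ 3 / 24) * I2p ≤ (1 - Real.exp (-t)) * I2 := by
    refine le_trans (mul_le_mul_of_nonneg_left hI2' ?_) (mul_le_mul_of_nonneg_right hB' hI2n)
    exact mul_nonneg h0.le (nm4_C h0.le h1)
  have k3 := mul_nonneg h0.le hPpos
  clear_value Jp I1p I2p J I1 I2
  clear hJ hI1 hI2 hD hP
  linear_combination 2 * k1 + k2 + k3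

end Pool.Agent.Lib.MP_7470b6_lc.Crs
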