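import Pool.Agent.Lib.MP_7470b6_lc.Crs.EVC
import Pool.Agent.Lib.MP_7470b6_lc.Crs.DIS
import Pool.Agent.Lib.MP_7470b6_lc.Crs.BIM
import Pool.Agent.Lib.MP_7470b6_lc.Crs.CWM
import Pool.Agent.Lib.MP_7470b6_lc.Crs.FN2
import Pool.Agent.Lib.MP_7470b6_lc.Crs.FN3
import Pool.Agent.Lib.MP_7470b6_lc.Crs.NM4
import Pool.Agent.Lib.MP_7470b6_lc.Crs.NM1

/-!
# The main theorems
-/

open Finset

namespace Pool.Agent.Lib.MP_7470b6_lc.Crs

variable {V : Type} [Fintype V]

theorem main_poly {G : SimpleGraph V} : matchingPolytope G = PF (edges G) := rfl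

theorem main_fm [DecidableEq V] {G : SimpleGraph V} {x : Sym2 V → ℝ}
    (hx : x ∈ matchingPolytope G) : FM G x := by
  rw [main_poly] at hx
  refine ⟨fun e _ => PF_nonneg hx e, fun u v huv => ?_⟩
  have h := PF_vertex hx u
  classical
  have h2 : (edges G).filter (fun e => u ∈ e) =
      insert s(u, v) ((edges G).filter (fun f => u ∈ f ∧ f ≠ s(u, v))) := by
    ext f
    simp only [Finset.mem_filter, Finset.mem_insert]
    constructor
    · rintro ⟨h1, h2⟩
      by_cases hf : f = s(u, v)
      · exact Or.inl hf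
      · exact Or.inr ⟨h1, h2, hf⟩
    · rintro (rfl | ⟨h1, h2, h3⟩)
      · exact ⟨huv, Sym2.mem_mk_left u v⟩
      · exact ⟨h1, h2⟩
  have h3 : ∑ e ∈ (edges G).filter (fun e => u ∈ e), x e = x s(u, v) + oth G x u v := by
    rw [h2, Finset.sum_insert (by simp), oth]
  rw [← h3]
  convert h

/-- The retention probability. -/
noncomputable def ret (x : Sym2 V → ℝ) (f : Sym2 V) : ℝ := (1 - Real.exp (-(x f))) / x f

theorem ret_mul (x : Sym2 V → ℝ) (f : Sym2 V) : x f * ret x f = 1 - Real.exp (-(x f)) := by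
  unfold ret
  by_cases h : x f = 0
  · simp [h]
  · field_simp

theorem ret_mem {x : Sym2 V → ℝ} {f : Sym2 V} (hx : 0 ≤ x f) : 0 ≤ ret x f ∧ ret x f ≤ 1 := by
  unfold ret
  rcases hx.eq_or_lt with h | h
  · simp [← h]
  · have h1 : 0 ≤ 1 - Real.exp (-(x f)) := by
      have := Real.exp_le_one_iff.mpr (show -(x f) ≤ 0 by linarith)
      linarith
    refine ⟨div_nonneg h1 h.le, ?_⟩
    rw [div_le_one h]
    have := Real.add_one_le_exp (-(x f))
    linarith

theorem main_assemble [DecidableEq V] {G : SimpleGraph V} {x : Sym2 V → ℝ}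
    (hx : x ∈ matchingPolytope G) {lam c : ℝ} (hl0 : 0 ≤ lam) (hl1 : lam ≤ Real.exp (-1))
    {z : Finset (Idx V) → Sym2 V → ℝ} (hz : ∀ T ⊆ gr G, z T ∈ PF (FF G T))
    (hc : ∀ e ∈ edges G, 0 < x e → c * x e ≤ ev (gr G) (pr G x lam) (fun T => z T e)) :
    ∃ μ, IsScheme G μ ∧ Balanced G x μ c := by
  classical
  have hfm := main_fm hx
  have hpr := pr_mem hfm hl0 hl1
  set q : V × V → ℝ := fun j => pr G x lam (Sum.inr j) with hq
  set Z : Finset (Sym2 V) → Sym2 V → ℝ := fun S e =>
    ev S (ret x) (fun S' => ev (Finset.univ : Finset (V × V)) q (fun C => z (S'.disjSum C) e))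
    with hZdef
  have hsub : ∀ S' ⊆ edges G, ∀ C : Finset (V × V), S'.disjSum C ⊆ gr G := by
    intro S' hS' C
    exact Finset.disjSum_mono hS' (Finset.subset_univ C)
  have hZ : ∀ S ⊆ edges G, Z S ∈ PF S := by
    intro S hS
    refine PF_ev (fun i hi => ret_mem (hfm.nonneg i (hS hi))) ?_
    intro S' hS'
    refine PF_ev (fun i _ => hpr _ ?_) ?_
    · simp [gr]
    · intro C _
      refine PF_mono ?_ (hz _ (hsub S' (hS'.trans hS) C))
      intro e he
      have h := (FF_sub G _ he).2
      rw [Finset.inl_mem_disjSum] at h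
      exact hS' h
  obtain ⟨μ, hμ, hμZ⟩ := exists_scheme hZ
  refine ⟨μ, hμ, ?_⟩
  intro e he hxe
  have hin : probIn G x μ e = ev (gr G) (pr G x lam) (fun T => z T e) := by
    have h1 : probIn G x μ e = ev (edges G) x (fun S => Z S e) := by
      unfold probIn ev prob
      refine Finset.sum_congr rfl fun S hS => ?_
      rw [hμZ S (Finset.mem_powerset.mp hS) e]
      congr 1
      refine Finset.prod_congr rfl fun i _ => ?_
      congr
    rw [h1]
    simp only [hZdef]
    rw [ev_thin]
    unfold gr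
    rw [ev_disjSum]
    have h2 : (fun i => x i * ret x i) = (fun i => pr G x lam (Sum.inl i)) := by
      funext i
      rw [ret_mul]
      rfl
    rw [h2]
  have hpres : probPresent G x e = x e := by
    have h1 := ev_mem he x
    rw [← h1]
    unfold probPresent ev prob
    refine Finset.sum_congr rfl fun S hS => ?_
    by_cases h : e ∈ S
    · simp only [h, if_true, mul_one]
      refine Finset.prod_congr rfl fun i _ => ?_
      congr
    · simp [h]
  rw [hin, hpres, le_div_iff₀ hxe]
  exact hc e he hxe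

theorem main_triangle_free (G : SimpleGraph V) (hG : G.CliqueFree 3) (x : Sym2 V → ℝ)
    (hx : x ∈ matchingPolytope G) : ∃ μ, IsScheme G μ ∧ Balanced G x μ 0.51 := by
  classical
  choose z hz hzb using fun T : Finset (Idx V) => exists_caroWei (FF G T)
  have hfm := main_fm hx
  refine main_assemble hx (lam := 0.3678) (by norm_num) lam_le (z := z) (fun T _ => hz T) ?_
  intro e he hxe
  induction e using Sym2.ind with
  | _ u v =>
  have hle : x s(u, v) ≤ 1 := by
    have h1 := hfm.vertex u v he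
    have h2 : 0 ≤ oth G x u v := by
      unfold oth
      refine Finset.sum_nonneg fun f hf => hfm.nonneg f ?_
      exact (Finset.mem_filter.mp hf).1
    linarith
  refine le_trans (num4 hxe hle) ?_
  refine low4_le hG hfm (by norm_num) lam_le ?_ (fun T _ e => PF_nonneg (hz T) e) he hxe
  intro T _ a b hab
  have h := hzb T a b hab
  refine le_trans (le_of_eq ?_) h
  have ha : 1 ≤ dg (FF G T) a := by
    unfold dg
    refine Finset.card_pos.mpr ⟨s(a, b), ?_⟩
    simp [hab]
  have hb : 1 ≤ dg (FF G T) b := by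
    unfold dg
    refine Finset.card_pos.mpr ⟨s(a, b), ?_⟩
    simp [hab]
  unfold W4
  push_cast [Nat.cast_sub ha, Nat.cast_sub hb]
  ring_nf

theorem main_bipartite (G : SimpleGraph V) (c : V → Bool) (hc : ∀ u v, G.Adj u v → c u ≠ c v)
    (x : Sym2 V → ℝ) (hx : x ∈ matchingPolytope G) :
    ∃ μ, IsScheme G μ ∧ Balanced G x μ 0.522 := by
  classical
  have hG : G.CliqueFree 3 := by
    intro s hs
    obtain ⟨a, b, d, hab, had, hbd, -⟩ := SimpleGraph.is3Clique_iff.mp hs
    have h1 := hc a b hab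
    have h2 := hc a d had
    have h3 := hc b d hbd
    cases ha : c a <;> cases hb : c b <;> cases hd : c d <;> simp_all
  have hex : ∀ T : Finset (Idx V), ∃ z ∈ PF (FF G T), ∀ u v : V, s(u, v) ∈ FF G T →
      min (1 / (dg (FF G T) u : ℝ)) (1 / (dg (FF G T) v : ℝ)) ≤ z s(u, v) := by
    intro T
    refine exists_min c ?_
    intro u v huv
    exact hc u v ((mk_mem_edges G u v).mp (FF_sub G T huv).1)
  choose z hz hzb using hex
  have hfm := main_fm hx
  refine main_assemble hx (lam := 0.3678) (by norm_num) lam_le (z := z) (fun T _ => hz T) ?_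
  intro e he hxe
  induction e using Sym2.ind with
  | _ u v =>
  have hle : x s(u, v) ≤ 1 := by
    have h1 := hfm.vertex u v he
    have h2 : 0 ≤ oth G x u v := by
      unfold oth
      refine Finset.sum_nonneg fun f hf => hfm.nonneg f ?_
      exact (Finset.mem_filter.mp hf).1
    linarith
  refine le_trans (num1 hxe hle) ?_
  refine low1_le hG hfm (by norm_num) lam_le ?_ (fun T _ e => PF_nonneg (hz T) e) he hxe
  intro T _ a b hab
  have h := hzb T a b hab
  refine le_trans (le_of_eq ?_) h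
  have ha : 1 ≤ dg (FF G T) a := by
    unfold dg
    refine Finset.card_pos.mpr ⟨s(a, b), ?_⟩
    simp [hab]
  have hb : 1 ≤ dg (FF G T) b := by
    unfold dg
    refine Finset.card_pos.mpr ⟨s(a, b), ?_⟩
    simp [hab]
  unfold W1
  push_cast [Nat.cast_sub ha, Nat.cast_sub hb]
  ring_nf

end Pool.Agent.Lib.MP_7470b6_lc.Crs
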