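import Mathlib

/-!
# Job NM0
-/

open Finset

namespace Pool.Agent.Lib.MP_7470b6_lc.Crs

/-- Job NM0. `Real.exp_one_lt_d9`. -/
theorem lam_le : (0.3678 : ℝ) ≤ Real.exp (-1) := by
  rw [Real.exp_neg]
  have h1 := Real.exp_one_lt_d9
  have h2 := Real.exp_pos 1
  rw [le_inv_comm₀ (by norm_num) h2]
  refine h1.le.trans ?_
  norm_num

/-- The signed remainder of the exponential series at `-y`. -/
private noncomputable def nm0g (n : ℕ) (y : ℝ) : ℝ :=
  (-1) ^ n * (Real.exp (-y) - ∑ j ∈ Finset.range n, (-y) ^ j / (j.factorial : ℝ))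

private theorem nm0_hasDeriv (n : ℕ) (y : ℝ) : HasDerivAt (nm0g (n + 1)) (nm0g n y) y := by
  have h1 : HasDerivAt (fun y : ℝ => Real.exp (-y)) (-Real.exp (-y)) y := by
    have h := (hasDerivAt_neg y).exp
    rw [mul_neg_one] at h
    exact h
  have h2 : ∀ n : ℕ, HasDerivAt (fun y : ℝ => ∑ j ∈ Finset.range (n + 1), (-y) ^ j / (j.factorial : ℝ))
      (-∑ j ∈ Finset.range n, (-y) ^ j / (j.factorial : ℝ)) y := by
    intro n
    induction n with
    | zero =>
      have : (fun y : ℝ => ∑ j ∈ Finset.range (0 + 1), (-y) ^ j / (j.factorial : ℝ)) = fun _ => 1 := by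
        funext z; simp
      rw [this]
      simpa using hasDerivAt_const y (1 : ℝ)
    | succ n ih =>
      have h3 : (fun y : ℝ => ∑ j ∈ Finset.range (n + 1 + 1), (-y) ^ j / (j.factorial : ℝ)) =
          fun y => (∑ j ∈ Finset.range (n + 1), (-y) ^ j / (j.factorial : ℝ)) + (-y) ^ (n + 1) / ((n + 1).factorial : ℝ) := by
        funext z; rw [Finset.sum_range_succ]
      rw [h3, Finset.sum_range_succ, neg_add]
      refine ih.add ?_
      have h4 : HasDerivAt (fun y : ℝ => (-y) ^ (n + 1)) (((n + 1 : ℕ) : ℝ) * (-y) ^ n * (-1)) y := by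
        have h := (hasDerivAt_neg y).pow (n + 1)
        rw [Nat.add_sub_cancel] at h
        exact h
      have h5 := h4.div_const ((n + 1).factorial : ℝ)
      have h6 : ((n + 1 : ℕ) : ℝ) * (-y) ^ n * (-1) / ((n + 1).factorial : ℝ) = -((-y) ^ n / (n.factorial : ℝ)) := by
        rw [Nat.factorial_succ]
        have h7 : (n.factorial : ℝ) ≠ 0 := by positivity
        have h8 : ((n + 1 : ℕ) : ℝ) ≠ 0 := by positivity
        push_cast at h8 ⊢
        field_simp
      rw [h6] at h5
      exact h5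
  have h3 := (h1.sub (h2 n)).const_mul ((-1 : ℝ) ^ (n + 1))
  have h4 : (-1 : ℝ) ^ (n + 1) * (-Real.exp (-y) - -∑ j ∈ Finset.range n, (-y) ^ j / (j.factorial : ℝ)) = nm0g n y := by
    unfold nm0g
    rw [pow_succ]
    ring
  rw [h4] at h3
  exact h3

private theorem nm0_nonneg (n : ℕ) : ∀ y : ℝ, 0 ≤ y → 0 ≤ nm0g n y := by
  induction n with
  | zero =>
    intro y _
    unfold nm0g
    simp [Real.exp_nonneg]
  | succ n ih =>
    intro y hy
    have h0 : nm0g (n + 1) 0 = 0 := by
      unfold nm0g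
      rw [Finset.sum_range_succ']
      simp
    have hmono : MonotoneOn (nm0g (n + 1)) (Set.Ici 0) := by
      refine monotoneOn_of_deriv_nonneg (convex_Ici 0) ?_ ?_ ?_
      · exact fun x _ => (nm0_hasDeriv n x).continuousAt.continuousWithinAt
      · exact fun x _ => (nm0_hasDeriv n x).differentiableAt.differentiableWithinAt
      · intro x hx
        rw [(nm0_hasDeriv n x).deriv]
        rw [interior_Ici] at hx
        exact ih x (le_of_lt hx)
    have := hmono (Set.mem_Ici.2 (le_refl (0 : ℝ))) (Set.mem_Ici.2 hy) hy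
    rwa [h0] at this

/-- Job NM0. Taylor bounds: `exp (-y)` is between consecutive partial sums of `∑ (-y)^j/j!`, for `y ≥ 0`.
Proof: induction on `n`, differentiate (or `integral`), monotonicity. -/
theorem taylor_even (n : ℕ) {y : ℝ} (hy : 0 ≤ y) :
    Real.exp (-y) ≤ ∑ j ∈ Finset.range (2 * n + 1), (-y) ^ j / (j.factorial : ℝ) := by
  have h := nm0_nonneg (2 * n + 1) y hy
  unfold nm0g at h
  have h1 : (-1 : ℝ) ^ (2 * n + 1) = -1 := by
    rw [pow_succ, pow_mul]; simp
  rw [h1] at h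
  linarith

/-- Job NM0. -/
theorem taylor_odd (n : ℕ) {y : ℝ} (hy : 0 ≤ y) :
    ∑ j ∈ Finset.range (2 * n + 2), (-y) ^ j / (j.factorial : ℝ) ≤ Real.exp (-y) := by
  have h := nm0_nonneg (2 * n + 2) y hy
  unfold nm0g at h
  have h1 : (-1 : ℝ) ^ (2 * n + 2) = 1 := by
    rw [pow_add, pow_mul]; simp
  rw [h1] at h
  linarith

end Pool.Agent.Lib.MP_7470b6_lc.Crs
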