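import Pool.Agent.Lib.MP_7470b6_lc.Crs.EvD

/-!
# Polytopes of matchings
-/

open Finset

namespace Pool.Agent.Lib.MP_7470b6_lc.Crs

/-- The polytope of the matchings contained in a finite set of pairs. -/
def PF {V : Type} (F : Finset (Sym2 V)) : Set (Sym2 V → ℝ) :=
  convexHull ℝ {y | ∃ M : Finset (Sym2 V), M ⊆ F ∧ IsMatch M ∧ y = chi M}

open Classical in
/-- Degree of a vertex with respect to a finite set of pairs. -/
noncomputable def dg {V : Type} (F : Finset (Sym2 V)) (v : V) : ℕ :=
  (F.filter (fun e => v ∈ e)).card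

end Pool.Agent.Lib.MP_7470b6_lc.Crs
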