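import Pool.Agent.Lib.MP_7470b6_lc.Crs.PolyD

/-!
# The local rule
-/

open Finset

namespace Pool.Agent.Lib.MP_7470b6_lc.Crs

variable {V : Type} [Fintype V] [DecidableEq V]

/-- Index set: edges and coins. -/
abbrev Idx (V : Type) : Type := Sym2 V ⊕ (V × V)

/-- The coin of `(b, u)` is a success and `b` has no present edge except possibly `s(b,u)`. -/
def lf (G : SimpleGraph V) (T : Finset (Idx V)) (b u : V) : Prop :=
  Sum.inr (b, u) ∈ T ∧ ∀ f ∈ edges G, Sum.inl f ∈ T → b ∈ f → f = s(b, u)

/-- `b` is an active leaf attached to `u`. -/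
def act (G : SimpleGraph V) (T : Finset (Idx V)) (b u : V) : Prop :=
  s(b, u) ∈ edges G ∧ Sum.inl s(b, u) ∈ T ∧ lf G T b u

open Classical in
/-- The set of candidate edges: present edges joining an active leaf to its neighbour, and present
edges none of whose ends has an active leaf attached to it. -/
noncomputable def FF (G : SimpleGraph V) (T : Finset (Idx V)) : Finset (Sym2 V) :=
  (edges G).filter (fun e => Sum.inl e ∈ T ∧ ∃ u v, e = s(u, v) ∧
    (act G T u v ∨ act G T v u ∨ ((∀ b, ¬ act G T b u) ∧ ∀ b, ¬ act G T b v)))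

open Classical in
/-- The neighbours of `u` other than `v`. -/
noncomputable def nb (G : SimpleGraph V) (u v : V) : Finset V :=
  Finset.univ.filter (fun b => b ≠ v ∧ s(u, b) ∈ edges G)

open Classical in
/-- Number of active leaves attached to `u`, other than `v`. -/
noncomputable def cntA (G : SimpleGraph V) (T : Finset (Idx V)) (u v : V) : ℕ :=
  ((nb G u v).filter (fun b => act G T b u)).card

open Classical in
/-- Number of present edges at `u`, other than `s(u,v)`. -/
noncomputable def cntK (G : SimpleGraph V) (T : Finset (Idx V)) (u v : V) : ℕ :=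
  ((nb G u v).filter (fun b => Sum.inl s(u, b) ∈ T)).card

end Pool.Agent.Lib.MP_7470b6_lc.Crs
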