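import Pool.Agent.Lib.MP_7470b6_lc.Crs.RuleD

/-!
# Probabilities
-/

open Finset

namespace Pool.Agent.Lib.MP_7470b6_lc.Crs

variable {V : Type} [Fintype V] [DecidableEq V]

/-- Ground set of all indices. -/
noncomputable def gr (G : SimpleGraph V) : Finset (Idx V) :=
  (edges G).disjSum (Finset.univ : Finset (V × V))

open Classical in
/-- Sum of `x` over the edges at `b` other than `s(b,u)`. -/
noncomputable def oth (G : SimpleGraph V) (x : Sym2 V → ℝ) (b u : V) : ℝ :=
  ∑ f ∈ (edges G).filter (fun f => b ∈ f ∧ f ≠ s(b, u)), x f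

open Classical in
/-- The probabilities: the edge `f` is present with probability `1 - exp (-x f)`; the coins are such
that `lf b u` has probability `(1 - exp (-lam x)) / (1 - exp (-x))`. -/
noncomputable def pr (G : SimpleGraph V) (x : Sym2 V → ℝ) (lam : ℝ) : Idx V → ℝ
  | Sum.inl f => 1 - Real.exp (-(x f))
  | Sum.inr (b, u) =>
      if s(b, u) ∈ edges G ∧ 0 < x s(b, u) then
        (1 - Real.exp (-(lam * x s(b, u)))) /
          ((1 - Real.exp (-(x s(b, u)))) * Real.exp (-(oth G x b u)))
      else 0

/-- `x` is nonnegative on the edges with sum at most one at every vertex. -/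
structure FM (G : SimpleGraph V) (x : Sym2 V → ℝ) : Prop where
  nonneg : ∀ e ∈ edges G, 0 ≤ x e
  vertex : ∀ u v, s(u, v) ∈ edges G → x s(u, v) + oth G x u v ≤ 1

/-- The blocks. -/
noncomputable def blk (G : SimpleGraph V) (b u : V) : Finset (Idx V) :=
  open Classical in
  ((edges G).filter (fun f => b ∈ f)).disjSum ({(b, u)} : Finset (V × V))

/-- The indices on which `lf u v` depends. -/
noncomputable def stem (G : SimpleGraph V) (u v : V) : Finset (Idx V) :=
  open Classical in
  ((edges G).filter (fun f => u ∈ f ∧ f ≠ s(u, v))).disjSum ({(u, v)} : Finset (V × V))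

end Pool.Agent.Lib.MP_7470b6_lc.Crs
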